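import Pool.Agent.PFD.DefsD5

/-!
# Squad PFD, block D5, part a: the block side for `V = U × W`

`F = FF M`, `e` a block of `G` with the abelian defect group `V`, `γ` a block of `C(V)` under `e`,
`T = Tg V γ`, `Sp V γ U W`: `V = U × W`, both factors normalised by `T`, `T / C(V)` free on `U - 1`,
`U ≠ 1`.  `j` is a coherent local idempotent (`PFC.Jd`), `A = Crn hj`.  Target: `PbxStmt`, the input
`PIn` of `PmzStmt` (`Pool/Agent/PFC/DefsP2.lean`) for blocks, with `ls F A = ln e` and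
`dim Z(A) = |Irr(e)|`.  Complete proofs in the docstrings; a row may take other rows (also those of
`PFC/StmtsB6.lean`, `PFC/StmtsB6b.lean`) as hypotheses.
-/

open scoped BigOperators

noncomputable section

namespace Pool.Agent.PFD

open Pool.Agent.Helper51_AWC Pool.Agent.Helper79_WRA Pool.Agent.PP Pool.Agent.PP.KF
open Pool.Agent.PP.K9 Pool.Agent.PP.K9.H97 Pool.Agent.PP.H75 Pool.Agent.PP.T3 Pool.Agent.PP.T2
open Pool.Agent.PFC (Jd Crn jal Pj PIn Ctf ls Cz cv)

attribute [local instance] Ideal.Quotient.field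

/-- SPF: the fixed points of the inertial group.

Proof.  `v = u w`, `u ∈ U`, `w ∈ W` (`V` is abelian, `U ⊔ W = V`).  If `t` commutes with `v` then
`u w = (t u t⁻¹)(t w t⁻¹)`, so `(t u t⁻¹)⁻¹ u = (t w t⁻¹) w⁻¹ ∈ U ⊓ W = 1`, so `t u = u t`: `t ∈ C(V)`, or
`u = 1` and `v ∈ W`. -/
def SpfStmt : Prop := ∀ (ℓ : ℕ) (F : Type) [Field F] (G : Type) [Group G] [Finite G] (e : G → F)
  (V : Subgroup G) (γ : G → F), Ld ℓ e V γ → ∀ U W : Subgroup G, Sp V γ U W →
  ∀ t ∈ Tg V γ, ∀ v ∈ V, t * v = v * t → t ∈ Subgroup.centralizer (V : Set G) ∨ v ∈ W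

/-- JLX: the local algebra at `Q`, if only `C(V)` centralises `Q` in the inertial group.

Proof.  As `PFC.JlqStmt` and `PFC.LpbStmt` (their Lean files), where the freeness is used only for
this: the inertial group of the local block `f` of `C(Q)` is the set of the elements of `C(Q)` in
`Tg V γ` (`T6.LwdStmt`), so by hypothesis it is `C(V)` and the inertial index of `f` is one.  (If
`Q = ⊥` this means that the inertial index of `e` is one; the proof is the same.) -/
def JlxStmt : Prop := ∀ (ℓ : ℕ) [Fact ℓ.Prime] (M : Ideal (integralClosure ℤ ℂ)) [M.IsMaximal],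
  (ℓ : integralClosure ℤ ℂ) ∈ M → ∀ (G : Type) [Group G] [Finite G] (e : G → FF M)
  (V : Subgroup G) (γ : G → FF M), Ld ℓ e V γ → ∀ j : G → FF M, Jd M V γ j →
  ∀ Q : Subgroup G, Q ≤ V →
  (∀ t ∈ Tg V γ, (∀ u ∈ Q, t * u = u * t) → t ∈ Subgroup.centralizer (V : Set G)) →
  ∃ n π, Pj (fun t : Subgroup.centralizer (Q : Set G) => j t) n π

/-- EGX: the groups.

Proof.  As `PFC.EgrStmt`: `V' = V` as a type (commutative by `Ld.ab`), `ι` the inclusion,
`E = Ei V γ`, `φ` the inclusion in `MulAut V`, `X = W.comap ι`.  `Ctf`: `V` is an `ℓ`-group (`Tp`);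
`nt`: `U ≠ 1`, `U ⊓ W = 1`; `cop`: `E ≅ T / C(V)`, `K9.InxStmt`; `stab`, `cmp` (complement
`U.comap ι`): `Sp.sw`, `Sp.su`, `Sp.dj`, `Sp.jn`; `free`: SPF, and an element of `T` in `C(V)` induces
the identity. -/
def EgxStmt : Prop := ∀ (ℓ : ℕ) [Fact ℓ.Prime] (M : Ideal (integralClosure ℤ ℂ)) [M.IsMaximal],
  (ℓ : integralClosure ℤ ℂ) ∈ M → ∀ (G : Type) [Group G] [Finite G] (e : G → FF M)
  (V : Subgroup G) (γ : G → FF M), Ld ℓ e V γ → ∀ U W : Subgroup G, Sp V γ U W →
  ∃ (V' E : Type) (_ : CommGroup V') (_ : Fintype V') (_ : Group E) (_ : Fintype E) (ι : V' →* G)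
    (φ : E →* MulAut V') (X : Subgroup V'), Function.Injective ι ∧ ι.range = V ∧ X.map ι = W ∧
    Ctf ℓ φ X ∧ Nonempty (E ≃* Ei V γ) ∧
    (∀ t ∈ Tg V γ, ∃ x : E, ∀ w, ι (φ x w) = t * ι w * t⁻¹) ∧
    ∀ x : E, ∃ t ∈ Tg V γ, ∀ w, ι (φ x w) = t * ι w * t⁻¹

/-- FUL: the two-sided ideal of `F G` generated by `j` contains `e`.

Proof.  `C = C(V)`, `j' = br_V(j)`.  (1) Let `τ` be the irreducible representation of `C` with
`ev τ γ = 1` (`PFC.LnoStmt`, `PFC.RepStmt` for `C`, `γ|C`, as in the proof of `PFC.LpbStmt`).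
`ev τ j' ≠ 0` (`Jd.nz`), so there are `a_k`, `b_k` supported on `C` with `∑ ev τ (a_k j' b_k) = 1` (the
matrices `τ h` span; the ideal generated by a nonzero matrix is everything).
`i = ∑ γ a_k j' b_k γ`, `ev τ (γ - i) = 0`, so `n = γ - i` is nilpotent (REP), and
`γ = i (γ + n + n² + ...)`: `γ = ∑ a_k' j' b_k'` with functions supported on `C`.  (2) By the proof of
`T6.YexStmt` (`FmgStmt` for the group `C`, its block `γ` and the defect group `V`) there is `y₀ ∈ C`
such that `V` is a Sylow `ℓ`-subgroup of `C ∩ C(y₀)` and the class sum of `y₀` in `C` has a nonzero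
central character at `γ`.  `c = γ y₀ = ∑ (y₀ a_k') j' b_k'` up to the order of the factors (`γ` is central
in `F C`).  Put `w = ∑ (a_k' ) j (b_k' y₀)` with the same coefficients: `w` commutes with `V`
(all factors do), `br_V(w) = c` and `w` is in the ideal generated by `j`, so `e w = w` (JUN).
(3) `z = ∑ x w x⁻¹` over the cosets `x V` of `V` in `G`: a class function, in the ideal generated by
`j`, `e z = z`.  By `T8.OmiStmt` for a lift `i` of `w` over the local ring (values `s(w g)` with a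
section `s` of `rr`, invariant under `V`) the central character of `e` at `z`, which is the residue of
`|G| chv i χ/(|V| χ(1))`, is `ix V γ` times the residue of `|C| (∑ i(t) κ(t))/(|V| κ(1))`; the last
number is `|C ∩ C(y₀) : V| ω_κ(class sum of y₀)` up to the residue `0` (as in YEX), not zero, and
`ix V γ ≠ 0` in `F` (`K9.InxStmt`).  (4) So `z` acts in all irreducible modular representations of `e`
as a scalar `λ ≠ 0` (the same one: `e` is a block, `H50.char_uniq`, `Helper74_PP/Loc.lean`), so `z - λ e`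
is nilpotent (`IbnStmt`), and `e` is `z` times a polynomial in `z`, in the ideal generated by `j`. -/
def FulStmt : Prop := ∀ (ℓ : ℕ) [Fact ℓ.Prime] (M : Ideal (integralClosure ℤ ℂ)) [M.IsMaximal],
  (ℓ : integralClosure ℤ ℂ) ∈ M → ∀ (G : Type) [Group G] [Finite G] (e : G → FF M)
  (V : Subgroup G) (γ : G → FF M), Ld ℓ e V γ → ∀ j : G → FF M, Jd M V γ j →
  e ∈ Submodule.span (FF M) {x : G → FF M | ∃ a b, x = mulF a (mulF j b)}

/-- LSG: the number of simple modules of a full corner.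

Proof.  `≤`: `PFC.LseStmt`.  `≥`: let `σ` be an irreducible representation of `G` with
`actF e (tr σ) = tr σ`, so `ev σ e = 1` (EIG; `tr σ ≠ 0`).  `ev σ j ≠ 0`, otherwise `ev σ` vanishes on the
ideal generated by `j`.  `P = ev σ j` is an idempotent matrix of rank `n > 0`, `P = Y X`, `X Y = 1`;
`π_σ(a) = X (ev σ a) Y` is a surjective homomorphism of algebras `Crn hj → Mat_n(F)` (as in
`PFC.PicStmt`), with kernel `{a | ev σ a = 0}`.  For `tr σ ≠ tr σ'` there is `a ∈ F G` with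
`ev σ a = 1`, `ev σ' a = 0` (`IbjStmt`), so `mkj a` is in the kernel for `σ'` and not in the one for `σ`.
So `tr σ ↦ ker π_σ` is injective into `kers F (Crn hj)`, which is finite by `≤` of the first part (its
proof gives an injection into a finite set), so `ln e ≤ ls`. -/
def LsgStmt : Prop := ∀ (ℓ : ℕ) (F : Type) [Field F], GoodF ℓ F → ∀ (G : Type) [Group G]
  [Finite G] (e j : G → F), IsIdem e → mulF e j = j → ∀ hj : mulF j j = j,
  e ∈ Submodule.span F {x : G → F | ∃ a b, x = mulF a (mulF j b)} →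
  ls F (Crn hj) = ln e

/-- CTR: the centre of a full corner.

Proof.  `Z = {a | IsCl a, e a = a}`.  `a ↦ a j` maps `Z` into the centre of `Crn hj`.  Let
`e = ∑ a_k j b_k` (an element of the span is such a finite sum).  `ζ ↦ ∑ a_k ζ b_k` is the inverse: for
`x ∈ F G` and `ζ` central in the corner,
`x (∑_k a_k ζ b_k) = ∑_{l,k} a_l j b_l x a_k ζ b_k = ∑ a_l ζ (j b_l x a_k j) b_k = (∑_l a_l ζ b_l) x e`
(`x` replaced by `e x = x e`; `e` times the sum is the sum, because `a_k` can be replaced by `e a_k`), so it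
is central; `(∑ a_k ζ b_k) j = ∑ a_k ζ (j b_k j) = ∑ a_k (j b_k j) ζ = e j ζ = ζ`, and for `a ∈ Z`
`∑ a_k a j b_k = a e = a`.  So the dimension of the centre is that of `Z`.  `a ↦ (x ↦ a(x⁻¹))` maps the class
functions onto the class functions and `mulF e` to `actF e` (`mulF e a (x) = ∑_t e(t) a(t⁻¹ x)`; with
`f(x) = a(x⁻¹)`: `a(t⁻¹ x) = f(x⁻¹ t) = f(t x⁻¹)`), and the image of the idempotent operator
`actL e` on `cfs` is `{f | actF e f = f}`. -/
def CtrStmt : Prop := ∀ (F : Type) [Field F] (G : Type) [Group G] [Finite G] (e j : G → F),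
  IsIdem e → mulF e j = j → ∀ hj : mulF j j = j,
  e ∈ Submodule.span F {x : G → F | ∃ a b, x = mulF a (mulF j b)} →
  Module.finrank F (Subalgebra.center F (Crn hj)) = rk e (cfs F G)

/-- PBX: the input of `PmzStmt` for blocks.

Proof.  EGX, `PFC.JexStmt`: `j`; `hj = Jd.id`, `hv` from `Jd.iv`; `A = Crn hj`, `α = jal hj ι hv`.
`PIn`: `fin`, `frm`, `loc`, `top`: `PFC.FfaStmt`; `ps`: `PFC.FpsStmt`; `lcq`: if `¬ Q ≤ X` then
`Q.map ι` is not contained in `W`, by SPF an element of `T` which centralises it is in `C(V)`: JLX,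
`PFC.LcpStmt`; `uni`: `PFC.UntStmt` for every `x ∈ E`.  `ls`: FUL, LSG (`PFC.JunStmt`: `e j = j`).
Centre: CTR and `ChpStmt` (`Helper94_PP/StmtsKR.lean`; `IrrE M e` is the set there). -/
def PbxStmt : Prop := ∀ (ℓ : ℕ) [Fact ℓ.Prime] (M : Ideal (integralClosure ℤ ℂ)) [M.IsMaximal],
  (ℓ : integralClosure ℤ ℂ) ∈ M → ∀ (G : Type) [Group G] [Finite G] (e : G → FF M)
  (V : Subgroup G) (γ : G → FF M), Ld ℓ e V γ → ∀ U W : Subgroup G, Sp V γ U W →
  ∃ (V' E A : Type) (_ : CommGroup V') (_ : Fintype V') (_ : Group E) (_ : Fintype E)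
    (_ : Ring A) (_ : Algebra (FF M) A) (ι : V' →* G) (φ : E →* MulAut V') (X : Subgroup V')
    (α : V' →* A), Function.Injective ι ∧ ι.range = V ∧ X.map ι = W ∧
    Ctf ℓ φ X ∧ PIn (FF M) φ X α ∧ Nonempty (E ≃* Ei V γ) ∧
    (∀ t ∈ Tg V γ, ∃ x : E, ∀ w, ι (φ x w) = t * ι w * t⁻¹) ∧
    (∀ x : E, ∃ t ∈ Tg V γ, ∀ w, ι (φ x w) = t * ι w * t⁻¹) ∧
    ls (FF M) A = ln e ∧
    Module.finrank (FF M) (Subalgebra.center (FF M) A) = (IrrE M e).ncard

end Pool.Agent.PFD
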