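import Pool.Agent.PFD.DefsD3
import Pool.Agent.PFD.StmtsD5a
import Pool.Agent.Helper50_PP.Ffa

/-!
# Squad PFD: the top statements and their junctions

`KalStmt`: the theorem for algebras (blocks D1, D2, D3, D4, D6): the dimension of the centre of an
algebra `A` as in the output `PMid` of the Puig part (`PFC/DefsP2.lean`) is the number of conjugacy
classes of `V ⋊ E`.
`KctStmt`: the dimension of the centre of the twisted group algebra.
`KegStmt`: the number of ordinary characters of a block (from `PbxStmt`, `PmzStmt`, `KalStmt`).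
-/

open scoped BigOperators

noncomputable section

namespace Pool.Agent.PFD

open Pool.Agent.Helper51_AWC Pool.Agent.Helper79_WRA Pool.Agent.PP Pool.Agent.PP.KF
open Pool.Agent.PP.K9 Pool.Agent.PP.K9.H97 Pool.Agent.PP.H75 Pool.Agent.PP.T3 Pool.Agent.PP.T2
open Pool.Agent.PFC (PIn PMid Ctf ls Cz PmzStmt)

attribute [local instance] Ideal.Quotient.field

/-- CYB: a bicharacter argument: commuting elements of `E` commute in every twisted group algebra.

Proof.  Let `e f = f e`, `E' = ⟨e, f⟩`, an abelian group which acts on `U - 1` without fixed points,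
`U` the complement of `W` in `Ctf.cmp` (`U ≠ 1` by `nt`), and `ℓ` does not divide `|E'|`.  Let
`U₁ = {u ∈ U : u ^ ℓ = 1} ≠ 1`, `X = F ⊗ U₁` (functions `U₁ → F` which are homomorphisms to `(F, +)`, or the
`F`-vector space with a basis of `U₁`; `E'` acts linearly).  The commuting operators of finite order
prime to `ℓ` have a common eigenvector `x ≠ 0`, with the character `χ : E' → Fˣ`.  If `χ g = 1` then
`g x = x`, so `g` has a nonzero fixed vector in `X`, hence (averaging: `F ⊗ U₁^g = X^g`) `g u = u` for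
some `u ∈ U₁ - 1`, so `g = 1`.  So `χ` is injective and `E'` is cyclic
(`isCyclic_of_subgroup_isDomain`), `e = g ^ a`, `f = g ^ b`.  In the twisted group algebra (or directly
with the cocycle identities) `n e`, `n f` are multiples of `(n g) ^ a`, `(n g) ^ b`, so they commute:
`c(e, f) = c(f, e)`.

(Other proofs that two commuting elements of `E` generate a cyclic group are welcome: e.g. if
`E'` is not cyclic it contains `C_p × C_p` and `U` is generated by the fixed points of its elements,
or: `∑_{g ∈ E'} g` and a counting argument.) -/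
def CybStmt : Prop :=
  ∀ (F V E : Type) [Field F] [CommGroup V] [Fintype V] [Group E] [Fintype E]
    (ℓ : ℕ) (φ : E →* MulAut V) (W : Subgroup V) (z : Coc F E), Ctf ℓ φ W →
    ∀ e f : E, e * f = f * e → z.c e f = z.c f e

/-- KCT: the dimension of the centre of the twisted group algebra.

Proof.  `CP (D0 φ z)` has the basis `b_g = iS v * n e`, `g = (v, e) ∈ V ⋊ E`, with
`b_g b_h = z(e, f) b_(g h)` for `g = (v, e)`, `h = (w, f)` (`CP.sn_mul_sn`, `CP.sum_iS_n`).  By CYB commuting
elements `g`, `h` have commuting `b_g`, `b_h` (their images `e`, `f` in `E` commute).  So for every class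
`K` of `V ⋊ E`, with `g ∈ K`, the element `s_K = ∑_{h ∈ K} b_(x_h) b_g b_(x_h)⁻¹` (`x_h g x_h⁻¹ = h`) does
not depend on the choice of the `x_h`, it is central, with support `K`, and the `s_K` are a basis of the
centre: if `a = ∑ a_g b_g` is central then `b_x a b_x⁻¹ = a` gives `a_(x g x⁻¹)` as a multiple of `a_g`. -/
def KctStmt : Prop :=
  ∀ (F V E : Type) [Field F] [CommGroup V] [Fintype V] [Group E] [Fintype E]
    (ℓ : ℕ) (φ : E →* MulAut V) (W : Subgroup V) (z : Coc F E), Ctf ℓ φ W →
    Module.finrank F (Subalgebra.center F (CP (D0 φ z))) = Nat.card (ConjClasses (V ⋊[φ] E))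

/-- MEQ: the dimensions of the centres of `A` and of the twisted group algebra are equal. -/
def MeqStmt : Prop :=
  ∀ (F V E A : Type) [Field F] [IsAlgClosed F] [CommGroup V] [Fintype V] [Group E] [Fintype E]
    [Ring A] [Algebra F A] (ℓ : ℕ) [CharP F ℓ] (φ : E →* MulAut V) (W : Subgroup V)
    (α : V →* A), Ctf ℓ φ W → PMid F φ W α → ∃ z : Coc F E,
    Module.finrank F (Subalgebra.center F A) =
      Module.finrank F (Subalgebra.center F (CP (D0 φ z)))

/-- KAL: the theorem for algebras. -/
def KalStmt : Prop :=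
  ∀ (F V E A : Type) [Field F] [IsAlgClosed F] [CommGroup V] [Fintype V] [Group E] [Fintype E]
    [Ring A] [Algebra F A] (ℓ : ℕ) [CharP F ℓ] (φ : E →* MulAut V) (W : Subgroup V)
    (α : V →* A), Ctf ℓ φ W → PMid F φ W α →
    Module.finrank F (Subalgebra.center F A) = Nat.card (ConjClasses (V ⋊[φ] E))

theorem kal (hm : MeqStmt) (hk : KctStmt) : KalStmt := by
  intro F V E A _ _ _ _ _ _ _ _ ℓ _ φ W α hc hp
  obtain ⟨z, hz⟩ := hm F V E A ℓ φ W α hc hp
  rw [hz]
  exact hk F V E ℓ φ W z hc

/-- KEG: the number of ordinary characters of a block with the abelian defect group `V = U × W`, both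
factors normalised by the inertial group `T`, `T / C(V)` free on `U - 1`, `U ≠ 1`. -/
def KegStmt : Prop := ∀ (ℓ : ℕ) [Fact ℓ.Prime] (M : Ideal (integralClosure ℤ ℂ)) [M.IsMaximal],
  (ℓ : integralClosure ℤ ℂ) ∈ M → ∀ (G : Type) [Group G] [Finite G] (e : G → FF M)
  (V : Subgroup G) (γ : G → FF M), Ld ℓ e V γ → ∀ U W : Subgroup G, Sp V γ U W →
  ∃ (V' E : Type) (_ : CommGroup V') (_ : Fintype V') (_ : Group E) (_ : Fintype E)
    (ι : V' →* G) (φ : E →* MulAut V'),
    Function.Injective ι ∧ ι.range = V ∧ Function.Injective φ ∧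
    (∀ t ∈ Tg V γ, ∃ x : E, ∀ w, ι (φ x w) = t * ι w * t⁻¹) ∧
    (∀ x : E, ∃ t ∈ Tg V γ, ∀ w, ι (φ x w) = t * ι w * t⁻¹) ∧
    (IrrE M e).ncard = Nat.card (ConjClasses (V' ⋊[φ] E))

theorem keg (pbx : PbxStmt) (pmz : PmzStmt) (kal : KalStmt) : KegStmt := by
  intro ℓ hℓ M hMm hM G _ _ e V γ hL U W hS
  have hG : GoodF ℓ (FF M) := H50.fld ℓ Fact.out M hM
  obtain ⟨V', E, A, i1, i2, i3, i4, i5, i6, ι, φ, X, α, h1, h2, _, h4, h5, h6, h7, h8, _, h10⟩ :=
    pbx ℓ M hM G e V γ hL U W hS
  have hch : CharP (FF M) ℓ := hG.char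
  have hcl : IsAlgClosed (FF M) := hG.closed
  obtain ⟨A', iA', iAl', α', hp, _, hz⟩ := pmz (FF M) V' E A ℓ φ X α h4 h5
  have hφ : Function.Injective φ := by
    rw [injective_iff_map_eq_one]
    intro x hx
    obtain ⟨u, hu⟩ := h4.nt
    have h : φ x u = u := by
      rw [hx]
      rfl
    exact (h4.free x u h).resolve_right hu
  refine ⟨V', E, i1, i2, i3, i4, ι, φ, h1, h2, hφ, h7, h8, ?_⟩
  rw [← h10, ← hz]
  exact kal (FF M) V' E A' ℓ φ X α' h4 hp

end Pool.Agent.PFD
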