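import Pool.Agent.PFD.DefsD2

/-!
Squad PFD (helper51): the Witt vectors and the formal power series are complete discrete valuation
rings in the sense of `Cdv`.
-/

namespace Pool.Agent.PFD.D2

section adic
variable {R F : Type} [CommRing R] [Field F]

/-- a `Cdv` from adic completeness -/
noncomputable def cdvOfComplete (π : R) (κ : R →+* F) (surj : Function.Surjective κ)
    (ker : ∀ r, κ r = 0 ↔ ∃ s, r = π * s) (reg : ∀ r, π * r = 0 → r = 0)
    (loc : ∀ r, κ r ≠ 0 → IsUnit r) (hc : IsAdicComplete (Ideal.span {π}) R) : Cdv R F where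
  π := π
  κ := κ
  surj := surj
  ker := ker
  reg := reg
  loc := loc
  sep := by
    intro r h
    have hh := hc.toIsHausdorff
    apply hh.haus' r
    intro n
    rw [SModEq.zero, Ideal.smul_eq_mul, Ideal.mul_top, Ideal.span_singleton_pow,
      Ideal.mem_span_singleton]
    obtain ⟨s, hs⟩ := h n
    exact ⟨s, hs⟩
  cpl := by
    intro u
    have hp := hc.toIsPrecomplete
    obtain ⟨r, hr⟩ := hp.prec' (fun n => ∑ i ∈ Finset.range n, π ^ i * u i) (by
      intro m n hmn
      rw [SModEq.sub_mem, Ideal.smul_eq_mul, Ideal.mul_top, Ideal.span_singleton_pow,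
        Ideal.mem_span_singleton]
      have h1 : ∑ i ∈ Finset.range n, π ^ i * u i =
          ∑ i ∈ Finset.range m, π ^ i * u i + ∑ i ∈ Finset.Ico m n, π ^ i * u i := by
        rw [Finset.sum_range_add_sum_Ico _ hmn]
      rw [h1, sub_add_cancel_left]
      apply dvd_neg.mpr
      apply Finset.dvd_sum
      intro i hi
      exact Dvd.dvd.mul_right (pow_dvd_pow π (Finset.mem_Ico.mp hi).1) _)
    refine ⟨r, fun n => ?_⟩
    have h2 := hr n
    rw [SModEq.sub_mem, Ideal.smul_eq_mul, Ideal.mul_top, Ideal.span_singleton_pow,
      Ideal.mem_span_singleton] at h2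
    obtain ⟨s, hs⟩ := h2
    refine ⟨-s, ?_⟩
    rw [mul_neg, ← hs, neg_sub]

end adic

section witt
variable (p : ℕ) [Fact p.Prime] (F : Type) [Field F] [CharP F p] [IsAlgClosed F]

/-- the Witt vectors of an algebraically closed field of characteristic `p` -/
noncomputable def wittCdv : Cdv (WittVector p F) F :=
  cdvOfComplete (p : WittVector p F) WittVector.constantCoeff
    (WittVector.constantCoeff_surjective p)
    (by
      intro r
      have h := WittVector.mem_span_p_iff_coeff_zero_eq_zero (p := p) (k := F) r
      rw [Ideal.mem_span_singleton] at h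
      exact h.symm)
    (by
      intro r hr
      rw [mul_comm] at hr
      exact WittVector.eq_zero_of_p_mul_eq_zero r hr)
    (fun r hr => WittVector.isUnit_of_coeff_zero_ne_zero r hr)
    inferInstance

theorem wittCdv_π : (wittCdv p F).π = (p : WittVector p F) := rfl

theorem witt_charZero : CharZero (WittVector p F) := by
  apply charZero_of_inj_zero
  intro n
  induction n using Nat.strong_induction_on with
  | _ n ih =>
    intro hn
    by_cases hd : p ∣ n
    · obtain ⟨m, rfl⟩ := hd
      by_cases hm : m = 0
      · rw [hm, mul_zero]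
      · have hp : 2 ≤ p := (Fact.out : p.Prime).two_le
        have h1 : m < p * m := by nlinarith [Nat.pos_of_ne_zero hm]
        rw [Nat.cast_mul, mul_comm] at hn
        have h2 := ih m h1 (WittVector.eq_zero_of_p_mul_eq_zero _ hn)
        exact absurd h2 hm
    · exfalso
      have h1 : (WittVector.constantCoeff : WittVector p F →+* F) (n : WittVector p F) = 0 := by
        rw [hn, map_zero]
      rw [map_natCast] at h1
      exact hd ((CharP.cast_eq_zero_iff F p n).mp h1)

theorem witt_dom : IsDomain (WittVector p F) := inferInstance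

theorem witt_pid : IsPrincipalIdealRing (WittVector p F) := inferInstance

/-- the Teichmueller section -/
theorem witt_teich : ∃ τ : F →* WittVector p F, ∀ x, (wittCdv p F).κ (τ x) = x :=
  ⟨WittVector.teichmuller p, fun x => WittVector.teichmuller_coeff_zero p x⟩

end witt

end Pool.Agent.PFD.D2
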