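import Pool.Agent.PFC.DefsP2
import Pool.Agent.PFC.StmtsB4a

/-!
# Squad PFD, block D6 (helper43): from `PMid` to the twisted group algebra of `V : E`

`PMid F φ W α`: `A(R) = F V` for the subgroups `R` of `V` which are not in `W`, units for all `e ∈ E`.
Output: units `n e` with `n e n f = c(e, f) n (e f)`, `c(e, f) ∈ F`, and the `V × V`-frame of the
complement of the twisted group algebra, with stabilisers `tw (φ e) R`, `R ≤ W`.
-/

open scoped BigOperators

noncomputable section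

namespace Pool.Agent.PFD.D6

open Pool.Agent.PFC

/-- units which realise `E` up to scalars -/
structure Unt {F V E A : Type} [Field F] [CommGroup V] [Group E] [Ring A] [Algebra F A]
    (φ : E →* MulAut V) (α : V →* A) (n n' : E → A) (c : E → E → F) : Prop where
  one : n 1 = 1
  li : ∀ e, n' e * n e = 1
  ri : ∀ e, n e * n' e = 1
  tw : ∀ e u, n e * α u = α (φ e u) * n e
  mul : ∀ e f, n e * n f = c e f • n (e * f)

/-- UNT: the units can be chosen multiplicative up to scalars.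

Proof.  Let `L = Cz F α ⊤`, a local finite-dimensional algebra over the algebraically closed field `F`:
`L = F + J`, `J` a nilpotent ideal (nonunits; a finite-dimensional division algebra over `F` is `F`), `J^N = 0`.
Choose units `y_e` by `PMid.uni`, `y_1 = 1`.  Conjugation by `y_e` maps `L` to `L` and `J^k` to `J^k`.
`y_e y_f y_(ef)⁻¹ ∈ L` is a unit.  Claim for every `k ≥ 1`: there are such `y_e` and scalars
`c(e,f) ≠ 0` with `y_e y_f y_(ef)⁻¹ ∈ c(e,f) (1 + J^k)`.  `k = 1`: `L = F + J`.  Step: write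
`y_e y_f y_(ef)⁻¹ = c(e,f) (1 + j(e,f))`, `j(e,f) ∈ J^k`.  `(y_e y_f) y_g = y_e (y_f y_g)` gives
`c(e,f) c(ef,g) = c(f,g) c(e,fg)` (modulo `J`) and, modulo `J^(k+1)`,
`j(e,f) + j(ef,g) = y_e j(f,g) y_e⁻¹ + j(e,fg)`.  Put `a_e = |E|⁻¹ ∑_g j(e,g)` (`|E| ≠ 0` in `F`); the sum
over `g` gives `j(e,f) + a_(ef) = y_e a_f y_e⁻¹ + a_e` modulo `J^(k+1)`.  Replace `y_e` by
`(1 + a_e)⁻¹ y_e` (for `e = 1` use that `j(1,g) = 0`): the new `j(e,f)` is
`j(e,f) - a_e - y_e a_f y_e⁻¹ + a_(ef) = 0` modulo `J^(k+1)`.  With `k = N` one has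
`y_e y_f = c(e,f) y_(ef)`. -/
def UntStmt : Prop :=
  ∀ (F V E A : Type) [Field F] [IsAlgClosed F] [CommGroup V] [Fintype V] [Group E] [Fintype E]
    [Ring A] [Algebra F A] (ℓ : ℕ) [CharP F ℓ] (φ : E →* MulAut V) (W : Subgroup V)
    (α : V →* A), Ctf ℓ φ W → PMid F φ W α →
    ∃ (n n' : E → A) (c : E → E → F), Unt φ α n n' c

/-- QWF: the frame of the complement.

Proof.  `P = range q`, a retract of `A` as `V × V`-module, so `PS` (all stabilisers `tw (φ e) R`) holds for
`P` (row `PSM`).  By `PSX` the points of the frame whose stabiliser `K` has `P(K) = 0`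
(`Fx K ≤ BK K`) can be removed.  So it is enough to show `P(K) = 0` for `K = tw (φ e) R`, `R` not in `W`;
then the remaining stabilisers are `tw (φ e) R` with `R ≤ W`, and `b`, `c ∘ q` is the frame for `q`.  Let
`x ∈ P` be fixed by `K`: `α(φ e u) x = x α(u)` for `u ∈ R`.  Then `n'_e x` commutes with `α(R)`, so
`n'_e x = ∑ c_u α(u) + z` with `z ∈ BK (cj) R` (`spn`), and `x = ∑ c_u n_e α(u) + n_e z`; left
multiplication by `n_e` maps `BK (cj) R` into `BK (bi) K` (it intertwines conjugation by `u` and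
`(φ e u, u)`; subgroups `R' < R` correspond to `tw (φ e) R'`, transversals to transversals).  Apply
`q`: `x = q x = q (n_e z) ∈ BK (bi) K`, as a vector of `P` (`q` is equivariant). -/
def QwfStmt : Prop :=
  ∀ (F V E A : Type) [Field F] [CommGroup V] [Fintype V] [Group E] [Fintype E]
    [Ring A] [Algebra F A] (ℓ : ℕ) [CharP F ℓ] (φ : E →* MulAut V) (W : Subgroup V)
    (α : V →* A) (n n' : E → A) (c : E → E → F) (q : A →ₗ[F] A), Ctf ℓ φ W → Unt φ α n n' c →
    PS (fun K => ∃ (e : E) (R : Subgroup V), K = tw (φ e).toMonoidHom R) (bi F α) →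
    (∀ R : Subgroup V, ¬ R ≤ W → ∀ a ∈ Fx (cj F α) R, ∃ c : V → F,
      a - ∑ u, c u • α u ∈ BK (cj F α) R) →
    (∀ x, q (q x) = q x) → (∀ u x, q (α u * x) = α u * q x) → (∀ u x, q (x * α u) = q x * α u) →
    (∀ e u, q (n e * α u) = 0) →
    ∃ (Ω : Type) (_ : Fintype Ω) (_ : MulAction (V × V) Ω) (b : Ω → A) (d : Ω → (A →ₗ[F] F)),
      (∀ (w : V × V) (ω : Ω), b (w • ω) = bi F α w (b ω)) ∧
      (∀ (w : V × V) (ω : Ω) (x : A), d (w • ω) (bi F α w x) = d ω x) ∧
      (∀ x, ∑ ω, d ω x • b ω = q x) ∧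
      ∀ ω : Ω, ∃ (e : E) (R : Subgroup V), R ≤ W ∧
        MulAction.stabilizer (V × V) ω = tw (φ e).toMonoidHom R

end Pool.Agent.PFD.D6
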