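import Pool.Agent.PFD.DefsD3
import Pool.Agent.PFD.StmtsD6
import Pool.Agent.PFC.StmtsB5a

/-!
# Squad PFD, block D6: the twisted extension `F_c[V : E] → A` (definitions)

* `Tg F S g g'`: the subalgebra `S` is spanned by the family `g`, and `∑ g' i ⊗ g i` is a symmetric
  Casimir element of `S`.  Example: `g (v, e) = α v * n e`, `g' (v, e) = n' e * α v⁻¹`.
* `Ev F g g' lam x = ∑ lam (g' i * x) • g i`: the bimodule map from `A` to `S`.
* `Cg`: the inverse of `Ev 1`.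
* `Cs`: Casimir elements over `S`.
* `TX A φ W z`: the output of D6.
-/

open scoped BigOperators

noncomputable section

namespace Pool.Agent.PFD.D6

open Pool.Agent.PFC

section defs

variable (F : Type) {V E A ι κ Ω : Type} [Field F] [CommGroup V] [Group E] [Ring A] [Algebra F A]

/-- the elements `v n_e` of the twisted group -/
def gg (α : V →* A) (n : E → A) (p : V × E) : A := α p.1 * n p.2

/-- their inverses -/
def gg' (α : V →* A) (n' : E → A) (p : V × E) : A := n' p.2 * α p.1⁻¹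

/-- `S` is the span of the `g i`, and `∑ g' i ⊗ g i` is a symmetric Casimir element of `S`. -/
structure Tg [Fintype ι] (S : Subalgebra F A) (g g' : ι → A) : Prop where
  spn : ∀ x : A, x ∈ S ↔ x ∈ Submodule.span F (Set.range g)
  mem : ∀ i, g' i ∈ S
  cs1 : ∀ (X : Type) [AddCommGroup X] [Module F X] (T : A →ₗ[F] A →ₗ[F] X), ∀ s ∈ S,
    ∑ i, T (g' i * s) (g i) = ∑ i, T (g' i) (s * g i)
  cs2 : ∀ (X : Type) [AddCommGroup X] [Module F X] (T : A →ₗ[F] A →ₗ[F] X), ∀ s ∈ S,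
    ∑ i, T (s * g' i) (g i) = ∑ i, T (g' i) (g i * s)
  cs3 : ∀ (X : Type) [AddCommGroup X] [Module F X] (T : A →ₗ[F] A →ₗ[F] X),
    ∑ i, T (g' i) (g i) = ∑ i, T (g i) (g' i)

/-- the bimodule map `A → S` given by the functional `lam` -/
def Ev [Fintype ι] (g g' : ι → A) (lam : A →ₗ[F] F) (x : A) : A := ∑ i, lam (g' i * x) • g i

/-- `c'` is the inverse of `Ev 1`, it is in the centre of `S`. -/
structure Cg [Fintype ι] (S : Subalgebra F A) (g g' : ι → A) (lam : A →ₗ[F] F) (c' : A) :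
    Prop where
  mem : c' ∈ S
  lin : c' * Ev F g g' lam 1 = 1
  rin : Ev F g g' lam 1 * c' = 1
  com : ∀ s ∈ S, c' * s = s * c'

/-- Casimir elements over `S` -/
def Cs [Fintype κ] (S : Subalgebra F A) (u v : κ → A) : Prop :=
  ∀ (X : Type) [AddCommGroup X] [Module F X] (T : A →ₗ[F] A →ₗ[F] X),
    (∀ a b, ∀ s ∈ S, T (a * s) b = T a (s * b)) →
    ∀ c, ∑ k, T (c * u k) (v k) = ∑ k, T (u k) (v k * c)

/-- a frame of the projection `q` over the `V × V`-set `Ω`, with stabilisers `tw (φ e) R`,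
`R ≤ W` -/
structure Fq [Fintype Ω] [MulAction (V × V) Ω] (φ : E →* MulAut V) (W : Subgroup V) (α : V →* A)
    (q : A →ₗ[F] A) (b : Ω → A) (d : Ω → (A →ₗ[F] F)) : Prop where
  eb : ∀ (w : V × V) (ω : Ω), b (w • ω) = bi F α w (b ω)
  ed : ∀ (w : V × V) (ω : Ω) (x : A), d (w • ω) (bi F α w x) = d ω x
  sum : ∀ x, ∑ ω, d ω x • b ω = q x
  st : ∀ ω : Ω, ∃ (e : E) (R : Subgroup V), R ≤ W ∧
    MulAction.stabilizer (V × V) ω = tw (φ e).toMonoidHom R

end defs

/-- the inverse of `n e` in the crossed product -/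
def ni {k S E : Type} [CommRing k] [CommRing S] [Algebra k S] [Group E] [Fintype E]
    (D : CD k S E) (e : E) : CP D := (((D.c e e⁻¹)⁻¹ : kˣ) : k) • CP.n D e⁻¹

/-- The output of D6: `A` is a split, relatively separable, symmetric extension of the twisted
group algebra `Γ0 = CP (D0 φ z)` of `V : E`.

`mu` is the form, `pr` the orthogonal projection, `x`, `y` a relative Frobenius system, `Om`, `m`, `τ`
the `W`-relative form of the complement (`T` is any transversal of `W` in `V`). -/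
structure TX {F V E : Type} (A : Type) [Field F] [CommGroup V] [Fintype V] [Group E]
    [Fintype E] [Ring A] [Algebra F A] (φ : E →* MulAut V) (W : Subgroup V) (z : Coc F E) where
  j : CP (D0 φ z) →ₐ[F] A
  pr : A →ₗ[F] CP (D0 φ z)
  pr_j : ∀ γ, pr (j γ) = γ
  pr_l : ∀ γ x, pr (j γ * x) = γ * pr x
  pr_r : ∀ x γ, pr (x * j γ) = pr x * γ
  fin : FiniteDimensional F A
  mu : A →ₗ[F] F
  mus : ∀ a b, mu (a * b) = mu (b * a)
  mun : ∀ a, (∀ b, mu (a * b) = 0) → a = 0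
  orth : ∀ x, mu (j (pr x)) = mu x
  K : Type
  fK : Fintype K
  sep : Pool.Agent.PFC.B1.Sep (CP (D0 φ z)) A K j.toRingHom
  N : Type
  fN : Fintype N
  x : N → A
  y : N → A
  e1 : ∀ a, ∑ k, x k * j (pr (y k * a)) = a
  e2 : ∀ a, ∑ k, j (pr (a * x k)) * y k = a
  unt : ∀ w : CP (D0 φ z), (∀ γ, w * γ = γ * w) → IsUnit w → IsUnit (∑ k, x k * j w * y k)
  Om : Type
  fOm : Fintype Om
  aOm : MulAction W Om
  m : Om → A
  τ : Om → (A →ₗ[F] F)
  m_eq : ∀ (w : W) (ω : Om), m (w • ω) =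
    j (vv φ z (w : V)) * m ω * j (vv φ z (w : V)⁻¹)
  τ_eq : ∀ (w : W) (ω : Om) (a : A),
    τ (w • ω) (j (vv φ z (w : V)) * a * j (vv φ z (w : V)⁻¹)) = τ ω a
  hw : ∀ T : Finset V, IsTv W ⊤ T → ∀ a : A,
    ∑ h : E, ∑ t ∈ T, ∑ g : E, ∑ v : V, ∑ ω,
      τ ω (j (vv φ z t⁻¹ * ni (D0 φ z) h) * a * j (CP.n (D0 φ z) g * vv φ z v)) •
        (j (CP.n (D0 φ z) h * vv φ z t) * m ω * j (vv φ z v⁻¹ * ni (D0 φ z) g)) =
      a - j (pr a)

/-- TOP of D6: from `PMid` to the twisted extension. -/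
def TxtStmt : Prop :=
  ∀ (F V E A : Type) [Field F] [IsAlgClosed F] [CommGroup V] [Fintype V] [Group E] [Fintype E]
    [Ring A] [Algebra F A] (ℓ : ℕ) [CharP F ℓ] (φ : E →* MulAut V) (W : Subgroup V)
    (α : V →* A), Ctf ℓ φ W → PMid F φ W α → ∃ z : Coc F E, Nonempty (TX A φ W z)

end Pool.Agent.PFD.D6
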