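import Pool.Agent.PFD.DefsD2

/-!
Squad PFD, part D2 (helper51): lifting over a complete discrete valuation ring `R` (residue map
`c.κ : R → F`, `c : Cdv R F`).  Statements.  The rows are the rows UNI SUC IDL PLF LFB STP ALG EXI FSL
of `PFC/StmtsB1.lean` with `PowerSeries F`, `PowerSeries.X` replaced by `R`, `c.π`, and with the Higman
projective bimodule replaced by a retract of a liftable bimodule `X`.
-/

namespace Pool.Agent.PFD.D2

open MulOpposite
open Pool.Agent.PFC.B1 (BiM FS Sep RngStmt PenStmt)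

/-- UNG (= B1/UNI). -/
def UngStmt : Prop :=
  ∀ (R F M : Type) [CommRing R] [Field F] (c : Cdv R F) [AddCommGroup M] [Module R M]
    [Module.Finite R M] (u : M →ₗ[R] M),
    (∀ x, ∃ y, u x - x = c.π • y) → Function.Bijective u

/-- SUG (= B1/SUC): successive approximation. -/
def SugStmt : Prop :=
  ∀ (R F M : Type) [CommRing R] [Field F] (c : Cdv R F) [AddCommGroup M] [Module R M]
    [Module.Finite R M] [Module.Free R M] (P : ℕ → M → Prop),
    (∀ n x z, P n x → P n (x + c.π ^ n • z)) →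
    (∀ n x, 1 ≤ n → P n x → ∃ z, P (n + 1) (x + c.π ^ n • z)) →
    ∀ x, P 1 x → ∃ z, ∀ n, 1 ≤ n → P n (x + c.π • z)

/-- IDG (= B1/IDL): lifting of idempotent endomorphisms commuting with a set of endomorphisms. -/
def IdgStmt : Prop :=
  ∀ (R F M : Type) [CommRing R] [IsDomain R] [IsPrincipalIdealRing R] [Field F] (c : Cdv R F)
    [AddCommGroup M] [Module R M] [Module.Finite R M] [Module.Free R M]
    (S : Set (Module.End R M)) (e : Module.End R M),
    (∀ s ∈ S, s * e = e * s) → (∀ x, ∃ y, e (e x) - e x = c.π • y) →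
    ∃ g : Module.End R M, g * g = g ∧ (∀ s ∈ S, s * g = g * s) ∧
      ∀ x, ∃ y, g x - e x = c.π • y

/-- PLG: the bimodule `ker e` lifts to a retract `P` of `X`.
Proof.  Replace `i0`, `p0` by `i0 (1 - e)`, `(1 - e) p0`.  `e0 = i0 p0 s : X → X0` lifts to an
`R`-linear `g0 : X → X` (`X` free, `s` onto), a bimodule homomorphism modulo `π`, so by `l1` to a
bimodule homomorphism `g`, idempotent modulo `π`.  IDG with `S` = all `lm γ`, `rm γ`: idempotent `h`.
`P = range h` (a submodule of `X`, finite free over the PID), `q = p0 s` on `P`. -/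
def PlgStmt : Prop :=
  ∀ (R F Γ A X X0 : Type) [CommRing R] [IsDomain R] [IsPrincipalIdealRing R] [Field F]
    (c : Cdv R F) [Ring Γ] [Algebra R Γ] [Ring A] [Algebra R A] [AddCommGroup X] [Module R X]
    [Module.Finite R X] [Module.Free R X] [AddCommGroup X0] [Module R X0] (BX : BiM R Γ X)
    (D : ResX Γ A X X0 c BX), Lft c.π BX →
    ∃ (P : Type) (_ : AddCommGroup P) (_ : Module R P) (_ : Module.Finite R P)
      (_ : Module.Free R P), Nonempty (PLX P D)

/-- LBG: a balanced bilinear map `P × P → A` lifts to a balanced bilinear map to `Γ × P`.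
Proof.  `β0 (p x) (p x')` on `X × X` has the components `e β0` (values in the image of `Γ`) and
`(1 - e) β0 = p0' i0' β0`; lift `R`-bilinearly to `Γ` and to `X`, then by `l3`, `l2`; compose the second
with `p` and both with `i × i`. -/
def LbgStmt : Prop :=
  ∀ (R F Γ A X X0 P : Type) [CommRing R] [IsDomain R] [IsPrincipalIdealRing R] [Field F]
    (c : Cdv R F) [Ring Γ] [Algebra R Γ] [Module.Finite R Γ] [Module.Free R Γ] [Ring A]
    [Algebra R A] [AddCommGroup X] [Module R X]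
    [Module.Finite R X] [Module.Free R X] [AddCommGroup X0] [Module R X0] (BX : BiM R Γ X)
    (D : ResX Γ A X X0 c BX) (_ : Lft c.π BX)
    [AddCommGroup P] [Module R P] [Module.Finite R P] [Module.Free R P] (L : PLX P D)
    (β0 : P →ₗ[R] P →ₗ[R] A),
    (∀ γ p p', β0 (L.lm γ p) p' = D.j γ * β0 p p') →
    (∀ γ p p', β0 (L.rm (op γ) p) p' = β0 p (L.lm γ p')) →
    (∀ γ p p', β0 p (L.rm (op γ) p') = β0 p p' * D.j γ) →
    ∃ β : P →ₗ[R] P →ₗ[R] Γ × P, L.toBiM.Bal β ∧ ∀ p p', L.qq (β p p') = β0 p p'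

/-- STG (= B1/STP): one step of the lifting of the multiplication; `hB` is the conclusion of LBG. -/
def StgStmt : Prop :=
  ∀ (R F Γ A X X0 K P : Type) [CommRing R] [IsDomain R] [IsPrincipalIdealRing R] [Field F]
    (c : Cdv R F) [Ring Γ] [Algebra R Γ] [Module.Finite R Γ] [Module.Free R Γ] [Ring A]
    [Algebra R A] [AddCommGroup X] [Module R X] [AddCommGroup X0] [Module R X0] (BX : BiM R Γ X)
    (D : ResX Γ A X X0 c BX) [Fintype K] (_ : Sep Γ A K D.j.toRingHom)
    [AddCommGroup P] [Module R P] [Module.Finite R P] [Module.Free R P] (L : PLX P D)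
    (_ : ∀ β0 : P →ₗ[R] P →ₗ[R] A,
      (∀ γ p p', β0 (L.lm γ p) p' = D.j γ * β0 p p') →
      (∀ γ p p', β0 (L.rm (op γ) p) p' = β0 p (L.lm γ p')) →
      (∀ γ p p', β0 p (L.rm (op γ) p') = β0 p p' * D.j γ) →
      ∃ β : P →ₗ[R] P →ₗ[R] Γ × P, L.toBiM.Bal β ∧ ∀ p p', L.qq (β p p') = β0 p p')
    (β : P →ₗ[R] P →ₗ[R] Γ × P) (n : ℕ), 1 ≤ n → L.toBiM.Bal β →
    (∀ p p', L.qq (β p p') = L.q p * L.q p') →
    (∀ x y z, ∃ w, L.toBiM.as β x y z = c.π ^ n • w) →
    ∃ ν : P →ₗ[R] P →ₗ[R] Γ × P, L.toBiM.Bal ν ∧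
      (∀ x y z, ∃ w, L.toBiM.as (β + c.π ^ n • ν) x y z = c.π ^ (n + 1) • w)

/-- ALX (= B1/ALG): the multiplication lifts; `hB` is the conclusion of LBG. -/
def AlxStmt : Prop :=
  ∀ (R F Γ A X X0 K P : Type) [CommRing R] [IsDomain R] [IsPrincipalIdealRing R] [Field F]
    (c : Cdv R F) [Ring Γ] [Algebra R Γ] [Module.Finite R Γ] [Module.Free R Γ] [Ring A]
    [Algebra R A] [AddCommGroup X] [Module R X] [AddCommGroup X0] [Module R X0] (BX : BiM R Γ X)
    (D : ResX Γ A X X0 c BX) [Fintype K] (_ : Sep Γ A K D.j.toRingHom)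
    [AddCommGroup P] [Module R P] [Module.Finite R P] [Module.Free R P] (L : PLX P D)
    (_ : ∀ β0 : P →ₗ[R] P →ₗ[R] A,
      (∀ γ p p', β0 (L.lm γ p) p' = D.j γ * β0 p p') →
      (∀ γ p p', β0 (L.rm (op γ) p) p' = β0 p (L.lm γ p')) →
      (∀ γ p p', β0 p (L.rm (op γ) p') = β0 p p' * D.j γ) →
      ∃ β : P →ₗ[R] P →ₗ[R] Γ × P, L.toBiM.Bal β ∧ ∀ p p', L.qq (β p p') = β0 p p'),
    ∃ β : P →ₗ[R] P →ₗ[R] Γ × P, L.toBiM.Bal β ∧ (∀ x y z, L.toBiM.as β x y z = 0) ∧
      ∀ p p', L.qq (β p p') = L.q p * L.q p'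

/-- EXX (= B1/EXI): existence of the deformation.
Proof.  `R`-algebra (module) structures on `A`, `X0` by `c.κ`; `ResX` from `sp0` and `FibM`; PLG, LBG,
ALX, `B1.RngStmt`. -/
def ExxStmt : Prop :=
  ∀ (R F Γ Γ0 A X X0 K : Type) [CommRing R] [IsDomain R] [IsPrincipalIdealRing R] [Field F]
    (c : Cdv R F) [Ring Γ] [Algebra R Γ] [Module.Finite R Γ] [Module.Free R Γ] [Ring Γ0]
    [Algebra F Γ0] [Ring A] [Algebra F A] [AddCommGroup X] [Module R X] [Module.Finite R X]
    [Module.Free R X] [AddCommGroup X0] [Module F X0] (f : FibG Γ Γ0 c) (BX : BiM R Γ X)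
    (B0 : BiM F Γ0 X0) (_ : FibM X X0 f BX B0) (_ : Lft c.π BX) (sp0 : SplitX A B0)
    [Fintype K] (_ : Sep Γ0 A K sp0.j.toRingHom),
    ∃ (A' : Type) (_ : Ring A') (_ : Algebra R A') (_ : Module.Finite R A')
      (_ : Module.Free R A'), Nonempty (DfmX A A' c f BX B0 sp0)

/-- FRG (= B1/FSL): a Frobenius system of the special fibre lifts. -/
def FrgStmt : Prop :=
  ∀ (R F A' A J : Type) [CommRing R] [IsDomain R] [IsPrincipalIdealRing R] [Field F]
    (c : Cdv R F) [Ring A'] [Algebra R A'] [Module.Finite R A'] [Module.Free R A'] [Ring A]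
    [Algebra F A] [Fintype J] (_ : FibG A' A c) (_ : FS F A J),
    ∃ (J' : Type) (_ : Fintype J'), Nonempty (FS R A' J')

/-- HGL: the free bimodule `Γ ⊗ Γ` is liftable; more generally a bimodule `X` with a Higman operator
modulo `π` is liftable (average over a Frobenius system of `Γ`). -/
def HglStmt : Prop :=
  ∀ (R F Γ X I : Type) [CommRing R] [IsDomain R] [IsPrincipalIdealRing R] [Field F]
    (c : Cdv R F) [Ring Γ] [Algebra R Γ] [Fintype I] (d : FS R Γ I) [AddCommGroup X] [Module R X]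
    (BX : BiM R Γ X) (a : X →ₗ[R] X),
    (∀ x, ∃ y, ∑ i, ∑ l, BX.lm (d.b i) (BX.rm (op (d.b' l))
      (a (BX.lm (d.b' i) (BX.rm (op (d.b l)) x)))) - x = c.π • y) → Lft c.π BX

end Pool.Agent.PFD.D2
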