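import Pool.Agent.PFD.DefsD1

/-!
# Squad PFD, block D1: statements of the rows, with complete proofs (helper78)

Notation of the proofs: `j` is omitted; `b_i, b_i'` are the dual bases of `B` (`u i, u' i` in `A`),
`e_p, e_p'` the dual bases `d.b p, d.b' p` of `A`, `t = c.lam`, `T = d.lam` (both symmetric),
`q a = a - j (pr a)`.  A MOVE (Casimir rules, all in `D1/Key.lean`, for every bilinear `F`):
(M1) `∑ F(x b_i, b_i') = ∑ F(b_i, b_i' x)`, (M2) `∑ F(b_i x, b_i') = ∑ F(b_i, x b_i')`,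
(M3) `∑ F(b_i, b_i') = ∑ F(b_i', b_i)`, (M4) `∑ t(a b_i) b_i' = a = ∑ t(a b_i') b_i`,
(M5) `∑ F(b_i, v b_i') = - ∑ F(v b_i + b_i De, b_i')`; the same M1 - M4 for `A`, and
(CP) `∑_(r,i,l) F(b_i x_r b_l', b_l y_r b_i') = ∑_p F(e_p, e_p') - ∑_i F(b_i, b_i')` (also with `x, y`
exchanged), (CQ) `∑_(s,i,l) T(b_i x_s b_l a) b_l' y_s b_i' = q a` (also with `x, y` exchanged),
(OR) `T(x_r b) = 0 = T(y_r b)` for `b ∈ B`, `T(q(a) a') = T(a q(a'))`.
-/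

open scoped BigOperators

noncomputable section

namespace Pool.Agent.PFD

open Pool.Agent.PFC.B1

/-- `1` -/
abbrev I1 (R B : Type) [CommRing R] [Ring B] [Algebra R B] : B →ₗ[R] B := LinearMap.id

/-- left multiplication -/
abbrev Lz (R : Type) {B : Type} [CommRing R] [Ring B] [Algebra R B] (z : B) : B →ₗ[R] B :=
  LinearMap.mulLeft R z

/-- SUM: the sum over the corners.

Proof.  Pointwise: `t(v(a1) a2 a3 a4) + t(a1 v(a2) a3 a4) + .. = t(v(a1 a2 a3 a4)) =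
- t(a1 a2 a3 a4 De) = - t(De a1 a2 a3 a4)`; then add up.  The same with six factors. -/
def SumStmt : Prop :=
  ∀ (R B A I J N : Type) [CommRing R] [Ring B] [Algebra R B] [Ring A] [Algebra R A]
    [Fintype I] [Fintype J] [Fintype N] (D : Net R B A I J N) (v : B →ₗ[R] B) (De : B),
    D.Der v De →
    (∀ X X' Y Y' : N → A, D.H4 X X' Y Y' v (I1 R B) (I1 R B) (I1 R B) +
      D.H4 X X' Y Y' (I1 R B) v (I1 R B) (I1 R B) + D.H4 X X' Y Y' (I1 R B) (I1 R B) v (I1 R B) +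
      D.H4 X X' Y Y' (I1 R B) (I1 R B) (I1 R B) v =
        - D.H4 X X' Y Y' (Lz R De) (I1 R B) (I1 R B) (I1 R B)) ∧
    (D.GB v (I1 R B) (I1 R B) (I1 R B) + D.GB (I1 R B) v (I1 R B) (I1 R B) +
      D.GB (I1 R B) (I1 R B) v (I1 R B) + D.GB (I1 R B) (I1 R B) (I1 R B) v =
        - D.GB (Lz R De) (I1 R B) (I1 R B) (I1 R B)) ∧
    (D.G6 (D.w6 v (I1 R B) (I1 R B) (I1 R B) (I1 R B) (I1 R B)) +
      D.G6 (D.w6 (I1 R B) v (I1 R B) (I1 R B) (I1 R B) (I1 R B)) +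
      D.G6 (D.w6 (I1 R B) (I1 R B) v (I1 R B) (I1 R B) (I1 R B)) +
      D.G6 (D.w6 (I1 R B) (I1 R B) (I1 R B) v (I1 R B) (I1 R B)) +
      D.G6 (D.w6 (I1 R B) (I1 R B) (I1 R B) (I1 R B) v (I1 R B)) +
      D.G6 (D.w6 (I1 R B) (I1 R B) (I1 R B) (I1 R B) (I1 R B) v) =
        - D.G6 (D.w6 (Lz R De) (I1 R B) (I1 R B) (I1 R B) (I1 R B) (I1 R B)))

/-- ROT: rotation of the 4-gon.

Proof.  In the left side `T(X_r b1 Y_s b2 X'_r b3 Y'_s b4) = T(Y_s b2 X'_r b3 Y'_s b4 X_r b1)` and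
`t(f1 b1' f2 b2' f3 b3' f4 b4') = t(f2 b2' f3 b3' f4 b4' f1 b1')`; rename
`(r, s, i1, i2, i3, i4)` into `(s, r, i4, i1, i2, i3)` (`Finset.sum_comm`). -/
def RotStmt : Prop :=
  ∀ (R B A I J N : Type) [CommRing R] [Ring B] [Algebra R B] [Ring A] [Algebra R A]
    [Fintype I] [Fintype J] [Fintype N] (D : Net R B A I J N) (X X' Y Y' : N → A)
    (f1 f2 f3 f4 : B →ₗ[R] B), D.H4 X X' Y Y' f1 f2 f3 f4 = D.H4 Y Y' X' X f2 f3 f4 f1

/-- RO6: rotation of the hexagon.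

Proof.  Rename in the left side `(i1,i2,i3) = (j3,j1,j2)`, `(k1,k2,k3) = (l3,l1,l2)`,
`(r,s,m) = (m',r',s')`: the weight `t(f1 b'_j3 f2 b'_l2 f3 b'_j1 f4 b'_l3 f5 b'_j2 f6 b'_l1)` is
`t(f3 b'_j1 f4 b'_l3 f5 b'_j2 f6 b'_l1 f1 b'_j3 f2 b'_l2)`, and
`T(x_m' b_j3 x_r' b_j1 x_s' b_j2) = T(x_r' b_j1 x_s' b_j2 x_m' b_j3)`, the same for `y`. -/
def Ro6Stmt : Prop :=
  ∀ (R B A I J N : Type) [CommRing R] [Ring B] [Algebra R B] [Ring A] [Algebra R A]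
    [Fintype I] [Fintype J] [Fintype N] (D : Net R B A I J N)
    (f1 f2 f3 f4 f5 f6 : B →ₗ[R] B),
    D.G6 (D.w6 f1 f2 f3 f4 f5 f6) = D.G6 (D.w6 f3 f4 f5 f6 f1 f2)

/-- RES: resolution of the 4-gon.

Proof.  (1) For `a, b ∈ A`: `T(a b) = ∑_k T(a b_k) T(b_k' b) + ∑_(m,i,l) T(a b_i x_m b_l') T(b_l y_m
b_i' b)` (CP with `F(p, q) = T(a p) T(q b)`, `∑_p T(a e_p) T(e_p' b) = T(a b)`).  Use it in the
4-gon with `a = x_r b_1 x_s b_2`, `b = y_r b_3 y_s b_4`; the first sum is `GB`.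
(2) In the second sum: on `b_2` (M2): `∑ (b_2 b_i) ⊗ b_2' = ∑ b_2 ⊗ (b_i b_2')`, so the weight
becomes `f2(b_i b_2')` and the first trace `T(x_r b_1 x_s b_2 x_m b_l')`.  The second trace is
`T(y_r b_3 y_s (b_4 b_l) y_m b_i')`, on `b_4` (M2): the weight becomes `f4(b_l b_4')`, the trace
`T(y_r b_3 y_s b_4 y_m b_i')`.
(3) M3 for `i` and `l`: weight `t(f1 b_1' f2(b_i' b_2') f3 b_3' f4(b_l' b_4'))`, traces
`T(x_r b_1 x_s b_2 x_m b_l) T(y_r b_3 y_s b_4 y_m b_i)`: this is the hexagon with `i1 = 1, i2 = 2,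
i3 = l, k1 = 3, k2 = 4, k3 = i`. -/
def ResStmt : Prop :=
  ∀ (R B A I J N : Type) [CommRing R] [Ring B] [Algebra R B] [Ring A] [Algebra R A]
    [Fintype I] [Fintype J] [Fintype N] (D : Net R B A I J N) (f1 f2 f3 f4 : B →ₗ[R] B),
    D.H4 D.x D.y D.x D.y f1 f2 f3 f4 = D.GB f1 f2 f3 f4 +
      D.G6 (fun a1 a2 a3 a4 a5 a6 => D.c.lam (f1 a1 * f2 (a2 * a3) * f3 a4 * f4 (a5 * a6)))

/-- GBZ: the `B`-part with a central element.

Proof.  Weight `t(z b1' b2' b3' b4')`.  On `b_3` (M2, `x = b_2'`): `∑ b_3 ⊗ (b_2' b_3') =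
∑ (b_3 b_2') ⊗ b_3'`.  Then `∑_4 t(z b1' b3' b4') b_4 = z b_1' b_3'` (M4).  So `GB` is the sum over
`r, k, 3` and `s, 1, 2` of `T((b_1 x_s b_2) b_k x_r) T(b_k' y_r b_3 (b_2' y_s b_1') z b_3')` (`z`
commutes with `b_1'`).  The sum over `s, 1, 2` is `q(b_k x_r) = b_k x_r` (CQ), the result is `E`. -/
def GbzStmt : Prop :=
  ∀ (R B A I J N : Type) [CommRing R] [Ring B] [Algebra R B] [Ring A] [Algebra R A]
    [Fintype I] [Fintype J] [Fintype N] (D : Net R B A I J N) (z : B), (∀ a, z * a = a * z) →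
    D.GB (Lz R z) (I1 R B) (I1 R B) (I1 R B) = D.E z

/-- CON: the connections.

Proof.  Linearity is clear.  Left linearity of `Ry`: on `l` (M2) `∑ (b_l b) ⊗ b_l' = ∑ b_l ⊗
(b b_l')`.  `Ry (a b)`: `T(b_i x_s b_l a b) = T(b b_i x_s b_l a)`, on `i` (M1 with
`F(p, q) = .. v(q)`): `∑ (b b_i) ⊗ v(b_i') = ∑ b_i ⊗ v(b_i' b)`, `v(b_i' b) = v(b_i') b + b_i' v(b)`;
the second term gives `q(a) v(b)` (CQ).  `Ry 1 = 0` by OR, `pr (Ry a) = 0` by `py`.  `Ly`: the same. -/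
def ConStmt : Prop :=
  ∀ (R B A I J N : Type) [CommRing R] [Ring B] [Algebra R B] [Ring A] [Algebra R A]
    [Fintype I] [Fintype J] [Fintype N] (D : Net R B A I J N) (v : B →ₗ[R] B) (De : B),
    D.Der v De →
    (∀ a a', D.Ry v (a + a') = D.Ry v a + D.Ry v a') ∧
    (∀ (r : R) a, D.Ry v (r • a) = r • D.Ry v a) ∧
    (∀ b a, D.Ry v (D.j b * a) = D.j b * D.Ry v a) ∧
    (∀ a b, D.Ry v (a * D.j b) = D.Ry v a * D.j b + (a - D.j (D.pr a)) * D.j (v b)) ∧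
    D.Ry v 1 = 0 ∧ (∀ a, D.pr (D.Ry v a) = 0) ∧
    (∀ a a', D.Ly v (a + a') = D.Ly v a + D.Ly v a') ∧
    (∀ (r : R) a, D.Ly v (r • a) = r • D.Ly v a) ∧
    (∀ a b, D.Ly v (a * D.j b) = D.Ly v a * D.j b) ∧
    (∀ b a, D.Ly v (D.j b * a) = D.j (v b) * (a - D.j (D.pr a)) + D.j b * D.Ly v a)

/-- the sum of GB1 -/
def Net.S1 {R B A I J N : Type} [CommRing R] [Ring B] [Algebra R B] [Ring A] [Algebra R A]
    [Fintype I] [Fintype J] [Fintype N] (D : Net R B A I J N) (v : B →ₗ[R] B) : R :=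
  ∑ r, ∑ i, ∑ k, D.T (D.u' k * D.y r * D.u i * D.u k * D.Ry v (D.x r) * D.u' i)

/-- GB1: the `B`-part with `v` in the first corner.

Proof.  As GBZ: on `b_3` (M2, `x = b_2'`), then `∑_4 t(v(b1') b3' b4') b_4 = v(b_1') b_3'`: the sum
over `r, k, 3` and `s, 1, 2` of `T((b_1 x_s b_2) b_k x_r) T(b_k' y_r b_3 (b_2' y_s v(b_1')) b_3')`; the
sum over `s, 1, 2` is `Ry (b_k x_r) = b_k Ry (x_r)` (definition of `Ry`; M2 as in CON). -/
def Gb1Stmt : Prop :=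
  ∀ (R B A I J N : Type) [CommRing R] [Ring B] [Algebra R B] [Ring A] [Algebra R A]
    [Fintype I] [Fintype J] [Fintype N] (D : Net R B A I J N) (v : B →ₗ[R] B),
    D.GB v (I1 R B) (I1 R B) (I1 R B) = D.S1 v

/-- GB3: the `B`-part, rotated by two.

Proof.  Rename `(i1,i2,i3,i4)` into `(i3,i4,i1,i2)` in the left side: weight
`t(b3' b4' v(b1') b2') = t(v(b1') b2' b3' b4')`, traces `T(x_r b_3 x_s b_4 b_k) T(b_k' y_r b_1 y_s
b_2) = T(b_k x_r b_3 x_s b_4) T(y_r b_1 y_s b_2 b_k')`, M3 for `k`. -/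
def Gb3Stmt : Prop :=
  ∀ (R B A I J N : Type) [CommRing R] [Ring B] [Algebra R B] [Ring A] [Algebra R A]
    [Fintype I] [Fintype J] [Fintype N] (D : Net R B A I J N) (v : B →ₗ[R] B),
    D.GB (I1 R B) (I1 R B) v (I1 R B) = D.op.GB v (I1 R B) (I1 R B) (I1 R B)

/-- ADJ: the adjoint of the right connection for which `x` is flat.

Proof.  `T(Rx(a) b) = ∑ T(b_i y_s b_l a) T(b_l' x_s v(b_i') b)`.  M5 on `i`:
`- ∑ T((v(b_i) + b_i De) y_s b_l a) T(b_l' x_s b_i' b) = - T(a Z)`, `Z = ∑ T(b_l' x_s b_i' b)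
(v(b_i) + De b_i) y_s b_l` (`De` central).  By M3 for `i` and `l` (and exchanging the names) the
first part of `Z` is `Ly b`, the second is `De q(b)` (CQ). -/
def AdjStmt : Prop :=
  ∀ (R B A I J N : Type) [CommRing R] [Ring B] [Algebra R B] [Ring A] [Algebra R A]
    [Fintype I] [Fintype J] [Fintype N] (D : Net R B A I J N) (v : B →ₗ[R] B) (De : B),
    D.Der v De → ∀ a b : A,
    D.T (D.op.Ry v a * b) = - D.T (a * (D.Ly v b + D.j De * (b - D.j (D.pr b))))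

/-- KAP: the tensor `κ = ∑_(i,k) b_i' b_k' ⊗ b_i b_k`.

Proof.  (1) M3 for `i` and `k`.  (2) first factor central, in the form `∑ b_i b_k ⊗ b_i' b_k'`:
`∑ x b_i b_k ⊗ b_i' b_k' = ∑ b_i b_k ⊗ b_i' x b_k'` (M1 on `i`) `= ∑ b_i b_k x ⊗ b_i' b_k'` (M2 on
`k`).  (3) second factor central: `∑ b_i b_k ⊗ b_i' b_k' x = ∑ b_i x b_k ⊗ b_i' b_k'` (M1 on `k`)
`= ∑ b_i b_k ⊗ x b_i' b_k'` (M2 on `i`).  (4) `z` central: `∑ z b_i b_k ⊗ b_i' b_k' =
∑ b_i b_k ⊗ b_i' z b_k'` (M1).  (5) Leibniz and M5 for `i` and for `k`.  Transfer between the two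
forms by (1). -/
def KapStmt : Prop :=
  ∀ (R B A I J N X : Type) [CommRing R] [Ring B] [Algebra R B] [Ring A] [Algebra R A]
    [Fintype I] [Fintype J] [Fintype N] [AddCommGroup X] [Module R X] (D : Net R B A I J N)
    (F : B → B → X), Bil R F →
    (∑ i, ∑ k, F (D.c.b' i * D.c.b' k) (D.c.b i * D.c.b k) =
      ∑ i, ∑ k, F (D.c.b i * D.c.b k) (D.c.b' i * D.c.b' k)) ∧
    (∀ x, ∑ i, ∑ k, F (x * (D.c.b' i * D.c.b' k)) (D.c.b i * D.c.b k) =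
      ∑ i, ∑ k, F (D.c.b' i * D.c.b' k * x) (D.c.b i * D.c.b k)) ∧
    (∀ x, ∑ i, ∑ k, F (D.c.b' i * D.c.b' k) (x * (D.c.b i * D.c.b k)) =
      ∑ i, ∑ k, F (D.c.b' i * D.c.b' k) (D.c.b i * D.c.b k * x)) ∧
    (∀ z, (∀ a, z * a = a * z) → ∑ i, ∑ k, F (z * (D.c.b' i * D.c.b' k)) (D.c.b i * D.c.b k) =
      ∑ i, ∑ k, F (D.c.b' i * D.c.b' k) (z * (D.c.b i * D.c.b k))) ∧
    (∀ (v : B →ₗ[R] B) (De : B), D.Der v De →
      ∑ i, ∑ k, F (v (D.c.b' i * D.c.b' k)) (D.c.b i * D.c.b k) +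
      ∑ i, ∑ k, F (D.c.b' i * D.c.b' k) (v (D.c.b i * D.c.b k)) =
        - ((2 : R) • ∑ i, ∑ k, F (De * (D.c.b' i * D.c.b' k)) (D.c.b i * D.c.b k)))

/-- the sum `∑ T(y_r v(κ1) x_r κ2)` -/
def Net.e1 {R B A I J N : Type} [CommRing R] [Ring B] [Algebra R B] [Ring A] [Algebra R A]
    [Fintype I] [Fintype J] [Fintype N] (D : Net R B A I J N) (v : B →ₗ[R] B) : R :=
  ∑ r, ∑ i, ∑ k, D.T (D.y r * D.j (v (D.c.b' i * D.c.b' k)) * D.x r * D.j (D.c.b i * D.c.b k))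

/-- S1A.

Proof.  Write `κ1 = b_i' b_k'`, `κ2 = b_i b_k` (sum over `i, k`).  `S1 D = ∑ T(y_r κ2 Ry(x_r) κ1)`,
`S1 D.op = ∑ T(x_r κ2 Rx(y_r) κ1) = ∑ T(Rx(y_r) κ1 x_r κ2)` (`Rx = D.op.Ry v`), by ADJ
`= - ∑ T(y_r Ly(κ1 x_r κ2)) - ∑ T(y_r De κ1 x_r κ2)` (`q(κ1 x_r κ2) = κ1 x_r κ2`), and (CON)
`Ly(κ1 x_r κ2) = v(κ1) x_r κ2 + κ1 Ly(x_r) κ2`.  So `S1 D.op = - e1 - S' - E De` with
`S' = ∑ T(y_r κ1 Ly(x_r) κ2)`; `∑ T(y_r De κ1 x_r κ2) = E De` by KAP (4), (1).  `S' = S1 D`: insert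
the definitions, `S' = ∑ T(b_i x_s b_l x_r) T(y_r κ1 v(b_l') y_s b_i' κ2)`; exchange the names
`r, s` and `i, l`: `∑ T(b_l x_r b_i x_s) T(y_s κ1 v(b_i') y_r b_l' κ2)
= ∑ T(b_i x_s b_l x_r) T(y_r b_l' κ2 y_s κ1 v(b_i'))`, and `b_l' κ2 = κ2 b_l'`, `κ1 v(b_i') = v(b_i') κ1`
(KAP (2), (3)) gives `∑ T(b_i x_s b_l x_r) T(y_r κ2 b_l' y_s v(b_i') κ1) = S1 D`. -/
def S1aStmt : Prop :=
  ∀ (R B A I J N : Type) [CommRing R] [Ring B] [Algebra R B] [Ring A] [Algebra R A]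
    [Fintype I] [Fintype J] [Fintype N] (D : Net R B A I J N) (v : B →ₗ[R] B) (De : B),
    D.Der v De → D.S1 v + D.op.S1 v = - (D.e1 v + D.E De)

/-- S1B.

Proof.  `E z = ∑ T(y_r κ2 x_r z κ1)`; `D.op.E z = ∑ T(x_r κ2 y_r z κ1) = ∑ T(y_r z κ1 x_r κ2)
= ∑ T(y_r κ1 x_r z κ2)` (KAP (4)) `= ∑ T(y_r κ2 x_r z κ1)` (KAP (1)).  `e1 D.op =
∑ T(x_r v(κ1) y_r κ2) = ∑ T(y_r κ2 x_r v(κ1)) = ∑ T(y_r κ1 x_r v(κ2))` (KAP (1)), so by KAP (5)
`e1 D + e1 D.op = - 2 ∑ T(y_r De κ1 x_r κ2) = - 2 E De`. -/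
def S1bStmt : Prop :=
  ∀ (R B A I J N : Type) [CommRing R] [Ring B] [Algebra R B] [Ring A] [Algebra R A]
    [Fintype I] [Fintype J] [Fintype N] (D : Net R B A I J N) (v : B →ₗ[R] B) (De : B),
    D.Der v De → D.e1 v + D.op.e1 v = - (2 * D.E De) ∧ D.op.E De = D.E De

/-- LNK: the 4-gon with `v` in the first corner, as a sum over one wall.

Proof.  `∑ t(v(b1') b2' b3' b4') T(X_r b_1 x_s b_2 X'_r b_3 y_s b_4)`.  On `b_3` (M2, `x = b_2'`):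
`∑ b_3 ⊗ (b_2' b_3') = ∑ (b_3 b_2') ⊗ b_3'`; `∑_4 t(v(b1') b3' b4') b_4 = v(b_1') b_3'` (M4):
`∑ T(X_r (b_1 x_s b_2) X'_r b_3 (b_2' y_s v(b_1')) b_3')`.  And `∑_p F(e_p, Ry(e_p')) =
∑ F(b_1 x_s b_2, b_2' y_s v(b_1'))` for bilinear `F`, because `∑_p T(b_1 x_s b_2 e_p') e_p =
b_1 x_s b_2`. -/
def LnkStmt : Prop :=
  ∀ (R B A I J N : Type) [CommRing R] [Ring B] [Algebra R B] [Ring A] [Algebra R A]
    [Fintype I] [Fintype J] [Fintype N] (D : Net R B A I J N) (v : B →ₗ[R] B) (X X' : N → A),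
    D.H4 X X' D.x D.y v (I1 R B) (I1 R B) (I1 R B) = D.N4 X X' (D.Ry v)

/-- GAU: independence of the family.

Proof.  `de` is a bimodule map with `de 1 = 0`, so `de b = 0` for `b ∈ B`.  By CP (and
`de(b_l y_s b_i') = b_l de(y_s) b_i'`) `∑_p F(e_p, de e_p') = ∑_(s,1,2) F(b_1 x_s b_2,
b_2' de(y_s) b_1')` (M3 for one index).  So `N4 X X' de = ∑ T(X_r b_1 x_s b_2 X'_r b_i b_2' de(y_s)
b_1' b_i')`.  Three moves: on `i` (M2, `x = b_2'`): slots `(b_i, b_1' b_2' b_i')`; on `2` (M2,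
`x = b_1'`): `(b_2, b_1' b_2')` becomes `(b_2 b_1', b_2')`; on `i` (M2, `x = b_2'`) back:
`T((b_i' X_r b_1) x_s b_2 (b_1' X'_r b_i) b_2' de(y_s))`.  For `(X, X') = (x, y)` and for
`(X, X') = (y, x)` the sum over `r, i, 1` is by CP (M3) the sum over `p` of
`T(q(e_p) x_s b_2 e_p' b_2' de(y_s))`: the same. -/
def GauStmt : Prop :=
  ∀ (R B A I J N : Type) [CommRing R] [Ring B] [Algebra R B] [Ring A] [Algebra R A]
    [Fintype I] [Fintype J] [Fintype N] (D : Net R B A I J N) (de : A →ₗ[R] A),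
    (∀ b a, de (D.j b * a) = D.j b * de a) → (∀ a b, de (a * D.j b) = de a * D.j b) →
    de 1 = 0 → D.N4 D.x D.y de = D.N4 D.y D.x de

/-- W13: the gauge identity.

Proof.  LNK for `D` and for `D.op` (`D.op.x = D.y`, `D.op.y = D.x`): the four sums are
`N4 x y Ry`, `N4 y x Rx`, `N4 x y Rx`, `N4 y x Ry` (`H4` and `N4` for `D.op` are those of `D`, `rfl`).
`de = Ry - Rx` is a linear bimodule map with `de 1 = 0` (CON for `D` and `D.op`), `N4` is additive in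
`de`, GAU. -/
def W13Stmt : Prop :=
  ∀ (R B A I J N : Type) [CommRing R] [Ring B] [Algebra R B] [Ring A] [Algebra R A]
    [Fintype I] [Fintype J] [Fintype N] (D : Net R B A I J N) (v : B →ₗ[R] B) (De : B),
    D.Der v De →
    D.H4 D.x D.y D.x D.y v (I1 R B) (I1 R B) (I1 R B) +
      D.H4 D.y D.x D.y D.x v (I1 R B) (I1 R B) (I1 R B) =
    D.H4 D.x D.y D.y D.x v (I1 R B) (I1 R B) (I1 R B) +
      D.H4 D.y D.x D.x D.y v (I1 R B) (I1 R B) (I1 R B)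

/-- NID: the network identity (theorem (II) without traces).

Proof.  `W1..W4` the four sums of SUM for `x y x y`, `GB1..GB4` the sums of SUM for `GB`, `p`, `m` the
hexagons with `v` in the first, second place; by RO6 the places 1, 3, 5 give `p`, the places 2, 4, 6
give `m`.  RES and Leibniz (`v(a2 a3) = v(a2) a3 + a2 v(a3)`): `W1 = GB1 + p`, `W2 = GB2 + m + p`,
`W3 = GB3 + m`, `W4 = GB4 + p + m`.  ROT: `W2 = H4 x y y x v 1 1 1`, `W3 = H4 y x y x v 1 1 1`,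
`W4 = H4 y x x y v 1 1 1`; W13: `W1 + W3 = W2 + W4`.  GB1, GB3: `GB1 + GB3 = S1 D + S1 D.op`, and
`2 (S1 D + S1 D.op) = 0` by S1A for `D` and `D.op` and S1B, so it is `0`.  SUM: `GB2 + GB4 = - E De`
(GBZ).  So `p + m = 2 (p + m) - E De`, `p + m = E De`; SUM: `3 (p + m) = - G6(De)`.  RES with
`f1 = De`: `H4(De) = E De + G6(De) = - 2 E De`. -/
def NidStmt : Prop :=
  ∀ (K B A I J N : Type) [Field K] [CharZero K] [Ring B] [Algebra K B] [Ring A] [Algebra K A]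
    [Fintype I] [Fintype J] [Fintype N] (D : Net K B A I J N) (v : B →ₗ[K] B) (De : B),
    D.Der v De → 2 * D.E De + D.H4 D.x D.y D.x D.y (Lz K De) (I1 K B) (I1 K B) (I1 K B) = 0

/-! ### traces -/

/-- TRF: the trace of an endomorphism by a Frobenius system.

Proof.  `h x = ∑ lam(b_i' x) h(b_i)` (h1), so `h` is the sum of the rank one maps
`(lam(b_i' ·)) ⊗ h(b_i)`, whose traces are `lam(b_i' h(b_i))`. -/
def TrfStmt : Prop :=
  ∀ (K A J : Type) [Field K] [Ring A] [Algebra K A] [Module.Finite K A] [Fintype J]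
    (d : FS K A J) (h : A →ₗ[K] A), LinearMap.trace K A h = ∑ p, d.lam (d.b' p * h (d.b p))

/-- the centraliser of `B` in the complement `P` -/
def Net.PB {R B A I J N : Type} [CommRing R] [Ring B] [Algebra R B] [Ring A] [Algebra R A]
    [Fintype I] [Fintype J] [Fintype N] (D : Net R B A I J N) : Submodule R A where
  carrier := {a | D.pr a = 0 ∧ ∀ b, D.j b * a = a * D.j b}
  zero_mem' := ⟨by simp, fun b => by simp⟩
  add_mem' := fun {a a'} h h' => ⟨by rw [map_add, h.1, h'.1, add_zero], fun b => by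
    rw [mul_add, add_mul, h.2, h'.2]⟩
  smul_mem' := fun r a h => ⟨by rw [map_smul, h.1, smul_zero], fun b => by
    rw [mul_smul_comm, smul_mul_assoc, h.2]⟩

/-- TPB: the trace on `P^B`.

Proof.  `β : PB → A`, `β p = ∑_(l,r) T(y_r p b_l) x_r b_l'`, `τ : A → A`, `τ a = ∑ b_i a b_i'`.  `τ a`
commutes with `B` (M1).  For `p ∈ PB`: `τ(β p) = ∑ T(y_r p b_l) b_i x_r b_l' b_i' = ∑ T(y_r p b_i'
b_l) b_i x_r b_l'` (M1 on `l`, `x = b_i'`) `= ∑ T(b_l y_r b_i' p) b_i x_r b_l' = q p = p` (`cx`).  So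
`h = g ∘ τ ∘ β` (`g ∘ τ : A → PB`, because `τ a` commutes with `B`), and `trace h = trace (β ∘ g ∘ τ)` on
`A` (`LinearMap.trace_comp_comm'`), by TRF `= ∑_p T(e_p' β(g(τ(e_p)))) = ∑ T(y_r g(τ(e_p)) b_l)
T(x_r b_l' e_p') = ∑ T(y_r g(τ(x_r b_l')) b_l)`. -/
def TpbStmt : Prop :=
  ∀ (K B A I J N : Type) [Field K] [Ring B] [Algebra K B] [Ring A] [Algebra K A]
    [Module.Finite K A] [Fintype I] [Fintype J] [Fintype N] (D : Net K B A I J N)
    (g : A →ₗ[K] A) (h : D.PB →ₗ[K] D.PB),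
    (∀ a, (∀ b, D.j b * a = a * D.j b) → g a ∈ D.PB) → (∀ p : D.PB, (h p : A) = g p) →
    LinearMap.trace K D.PB h =
      ∑ r, ∑ i, ∑ l, D.T (g (D.u i * D.x r * D.u' l * D.u' i) * D.u l * D.y r)

/-- TZB: a trace on the centre of `B`.

Proof.  `h` is the composition of the inclusion `Z(B) → B`, of `ps : B → B` and of
`b ↦ z ∑ b_i b b_i'`, which maps `B` to `Z(B)` (M1).  So `trace h` is the trace of
`b ↦ z ∑ b_i ps(b) b_i'` on `B` (`LinearMap.trace_comp_comm'`), TRF. -/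
def TzbStmt : Prop :=
  ∀ (K B A I J N : Type) [Field K] [Ring B] [Algebra K B] [Module.Finite K B] [Ring A]
    [Algebra K A] [Fintype I] [Fintype J] [Fintype N] (D : Net K B A I J N)
    (z : B) (ps : B →ₗ[K] B) (h : Subalgebra.center K B →ₗ[K] Subalgebra.center K B),
    (∀ a, z * a = a * z) →
    (∀ w : Subalgebra.center K B, (h w : B) = z * ∑ i, D.c.b i * ps w * D.c.b' i) →
    LinearMap.trace K (Subalgebra.center K B) h =
      ∑ l, ∑ i, D.c.lam (D.c.b' l * (z * (D.c.b i * ps (D.c.b l) * D.c.b' i)))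

/-- DPP: the sum which the trace formula gives is the 4-gon.

Proof.  The left side is `∑ T(x_s b_i x_r (b_l' b_i') y_s (b_k' b_l) y_r (z b_k))`.  On `l` (M1,
`x = b_i'`, after M3): `(b_l' b_i', b_l)` becomes `(b_l', b_i' b_l)`: the third slot is `b_k' b_i' b_l`.
On `k`: `(b_k' (b_i' b_l), b_k)` becomes `(b_k', b_i' b_l b_k)`.  Result:
`T(x_s b_i x_r b_l' y_s b_k' y_r z b_i' b_l b_k)`.  With M3 for `l` and `k` and M4
(`∑_4 t(z b1' b2' b3' b4') b_4 = z b_1' b_2' b_3'`) it is the 4-gon (`1 = i`, `2 = l`, `3 = k`, the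
names `r, s` exchanged). -/
def DppStmt : Prop :=
  ∀ (R B A I J N : Type) [CommRing R] [Ring B] [Algebra R B] [Ring A] [Algebra R A]
    [Fintype I] [Fintype J] [Fintype N] (D : Net R B A I J N) (z : B), (∀ a, z * a = a * z) →
    ∑ s, ∑ k, ∑ r, ∑ i, ∑ l, D.T (D.j z * (D.u k * D.x s * (D.u i * D.x r * D.u' l * D.u' i) *
      D.y s * D.u' k) * D.u l * D.y r) =
    D.H4 D.x D.y D.x D.y (Lz R z) (I1 R B) (I1 R B) (I1 R B)

/-- the relative trace of the family `x, y` -/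
def Net.rx {R B A I J N : Type} [CommRing R] [Ring B] [Algebra R B] [Ring A] [Algebra R A]
    [Fintype I] [Fintype J] [Fintype N] (D : Net R B A I J N) (a : A) : A :=
  a + ∑ r, ∑ i, D.u i * D.x r * a * (D.y r * D.u' i)

/-- RTX: the relative Frobenius system of the family.

Proof.  System: `none ↦ (1, 1)`, `(r, i) ↦ (b_i x_r, y_r b_i')`.  (e1): `j(pr(c)) = ∑_l T(c b_l) b_l'`
(from `ort`, `pr_r`, M4), so the sum is `j(pr a) + ∑ b_i x_r T(y_r b_i' a b_l) b_l' = j(pr a) + q a`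
(`cx`).  (e2): `j(pr a) + ∑ j(pr(a b_i x_r)) y_r b_i'`, `j(pr(a b_i x_r)) = ∑_l T(b_l' a b_i x_r) b_l`:
`∑ T(a b_i x_r b_l') b_l y_r b_i' = q a` (CQ). -/
def RtxStmt : Prop :=
  ∀ (R B A I J N : Type) [CommRing R] [Ring B] [Algebra R B] [Ring A] [Algebra R A]
    [Fintype I] [Fintype J] [Fintype N] (D : Net R B A I J N),
    ∃ s : RF R B A (Option (N × I)) D.j D.pr, ∀ a, s.rt a = D.rx a

/-- RTU: the relative trace is intrinsic.

Proof.  Let `a` commute with `B`.  Independence: `∑ x_k a y_k = ∑_(k,l) x~_l j(pr(y~_l x_k)) a y_k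
= ∑ x~_l a j(pr(y~_l x_k)) y_k = ∑_l x~_l a y~_l` (e1 for `s~`, `a` commutes, e2 for `s`).  Central: for
`c ∈ A`, `c x_k = ∑_l x_l j(pr(y_l c x_k))`, so `c rt(a) = ∑ x_l a j(pr(y_l c x_k)) y_k = ∑ x_l a y_l c`
(e2).  The last claim is clear (`w` central). -/
def RtuStmt : Prop :=
  ∀ (R B A N N' : Type) [CommRing R] [Ring B] [Algebra R B] [Ring A] [Algebra R A]
    [Fintype N] [Fintype N'] (j : B →ₐ[R] A) (pr : A →ₗ[R] B) (s : RF R B A N j pr)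
    (s' : RF R B A N' j pr) (a : A), (∀ b, j b * a = a * j b) →
    s.rt a = s'.rt a ∧ (∀ c, c * s.rt a = s.rt a * c) ∧
    ∀ w : A, (∀ c, w * c = c * w) → s.rt (w * a) = w * s.rt a

/-- TRC: the trace of the multiplication with the relative trace of `z`.

Proof.  `C = {a : b a = a b for all b ∈ B}` (a submodule), `z ∈ Z(B)`, `rx : C → Z(A)` (RTX, RTU),
`rx(z) w = rx(z w)` for `w ∈ Z(A)`.  So `f` is the composition of `Z(A) → C, w ↦ z w` and of `rx`;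
`trace f = trace (H : C → C, H c = z rx(c))` (`LinearMap.trace_comp_comm'`).  `C = j Z(B) + PB`:
`i1 = j : Z(B) → C`, `p1 = pr : C → Z(B)`, `i2 : PB → C`, `p2 = q : C → PB`, `i1 p1 + i2 p2 = 1`, so
`trace H = trace (p1 H i1) + trace (p2 H i2)`.
(1) `p1 H i1 (w) = pr(z rx(w)) = z w + z ∑_i b_i ps(w) b_i'`, `ps(b) = ∑_r pr(x_r b y_r)`: by TZB the
trace is `trace g + ∑_(l,i,r) T(b_l' z b_i x_r b_l y_r b_i')` (`t(pr a) = T(a)`); by KAP (with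
`κ1 = b_i' b_l'` ...) the sum is `E z`: it is `∑ T(x_r b_l y_r (b_i' b_l' b_i) z)`, on `i` (M3, M1
`x = b_l`; it is `∑_l b_l ⊗ τ(b_l')`, `τ(b) = ∑ b_i' b b_i`) equal to `κ2 ⊗ κ1` in the slots.
(2) `p2 H i2 (p) = q(z rx(p)) = z p + q(z ∑ b_k x_s p y_s b_k')`; TPB with
`g a = z q(a) + q(z ∑ b_k x_s a y_s b_k')`; `T(q(c) b_l y_r) = T(c b_l y_r)` (OR): the first term gives
`∑ T(z b_i x_r b_l' b_i' b_l y_r) = E z` (KAP), the second the 4-gon (DPP). -/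
def TrcStmt : Prop :=
  ∀ (K B A I J N : Type) [Field K] [Ring B] [Algebra K B] [Module.Finite K B] [Ring A]
    [Algebra K A] [Module.Finite K A] [Fintype I] [Fintype J] [Fintype N] (D : Net K B A I J N)
    (z : B) (f : Subalgebra.center K A →ₗ[K] Subalgebra.center K A)
    (g : Subalgebra.center K B →ₗ[K] Subalgebra.center K B), (∀ a, z * a = a * z) →
    (∀ w, (f w : A) = D.rx (D.j z) * w) → (∀ w, (g w : B) = z * w) →
    LinearMap.trace K _ f = LinearMap.trace K _ g + 2 * D.E z +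
      D.H4 D.x D.y D.x D.y (Lz K z) (I1 K B) (I1 K B) (I1 K B)

/-- NTX: the network data of a Higman operator.

Proof.  `q a = a - j (pr a)` is a bimodule map, `q q = q`, `T(q(a) a') = T(a q(a'))`.  With `al = sp.a`,
`N = J`: `x_p = q(al(q(e_p)))`, `y_p = q(e_p')`.  (`cx`): put `c_il = b_i' a b_l`; the sum over `p` of
`T(q(e_p') c_il) q(al(q(e_p)))` is `q(al(q(c_il)))` (M4), and `∑ b_i q(al(q(c_il))) b_l' =
q(∑ b_i al(b_i' q(a) b_l) b_l') = q(q(q a)) = q a`.  (`cy`): let `al* f = ∑_p T(al(e_p) f) e_p'`, the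
adjoint, `T(al(e) f) = T(e al*(f))`; the sum over `p` of `T(q(al(q(e_p))) c_il) q(e_p')` is
`q(al*(q(c_il)))`, and `Z = ∑ b_i al*(b_i' e b_l) b_l'` satisfies `T(Z f) = ∑ T(b_i' e b_l al(b_l' f
b_i)) = T(e ∑ b_l al(b_l' f b_i) b_i') = T(e q(f)) = T(q(e) f)` for all `f`, so `Z = q(e)`. -/
def NtxStmt : Prop :=
  ∀ (R B A I J : Type) [CommRing R] [Ring B] [Algebra R B] [Ring A] [Algebra R A]
    [Fintype I] [Fintype J] (c : FS R B I) (d : FS R A J) (sp : Split c A),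
    (∀ x y, c.lam (x * y) = c.lam (y * x)) → (∀ x y, d.lam (x * y) = d.lam (y * x)) →
    (∀ x, d.lam x = c.lam (sp.pr x)) →
    ∃ D : Net R B A I J J, D.c = c ∧ D.d = d ∧ D.j = sp.j ∧ D.pr = sp.pr

/-- FOT: the first order theorem.

Proof.  NTX, RTX and RTU (the given system and the system of the family have the same relative trace
on elements commuting with `B`), TRC with `z = De`, NID. -/
def FotStmt : Prop :=
  ∀ (K B A I J N : Type) [Field K] [CharZero K] [Ring B] [Algebra K B] [Module.Finite K B]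
    [Ring A] [Algebra K A] [Module.Finite K A] [Fintype I] [Fintype J] [Fintype N]
    (c : FS K B I) (d : FS K A J) (sp : Split c A) (s : RF K B A N sp.j sp.pr),
    (∀ x y, c.lam (x * y) = c.lam (y * x)) → (∀ x y, d.lam (x * y) = d.lam (y * x)) →
    (∀ x, d.lam x = c.lam (sp.pr x)) →
    ∀ (v : B →ₗ[K] B) (De : B), (∀ a b, v (a * b) = v a * b + a * v b) →
    (∀ a, De * a = a * De) → (∀ a, c.lam (v a) = - c.lam (a * De)) →
    (∀ a, a * s.rt (sp.j De) = s.rt (sp.j De) * a) ∧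
    ∀ (f : Subalgebra.center K A →ₗ[K] Subalgebra.center K A)
      (g : Subalgebra.center K B →ₗ[K] Subalgebra.center K B),
      (∀ w, (f w : A) = s.rt (sp.j De) * w) → (∀ w, (g w : B) = De * w) →
      LinearMap.trace K _ f = LinearMap.trace K _ g

end Pool.Agent.PFD
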