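import Pool.Agent.PFD.DefsD2b

/-!
Squad PFD, part D2b, block 1 (helper36): the bimodule `X = Γ ⊗_(R W) (R Ω ⊗ Γ)` is liftable.
Complete proofs in the docstrings.  `c_i = cf i`, `c_i' = cf' i`, `b_(i,w) = c_i om w`,
`b'_(i,w) = om w⁻¹ c_i'` (dual families for the symmetric form `lam`).
-/

open scoped BigOperators

noncomputable section

namespace Pool.Agent.PFD.D2b

open MulOpposite
open Pool.Agent.PFC.B1 (BiM FS)
open Pool.Agent.PFD.D2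

/-- FPF: frames give the lifting of fixed vectors.

Proof.  Let `n` be fixed modulo `p` by `S`.  Put `d t = c t n`.  For `s` in `S`
`d (s • t) = c (s • t) n`, `c (s • t) (ρ s n) = c t n = d t` and `n - ρ s n` is in `p N`, so
`d (s • t) - d t` is in `p R`.  Choose a representative `r t` of the `S`-orbit of `t`
(`Quotient.out` of the orbit relation of `S`) and put `d' t = d (r t)`: `d'` is constant on the
`S`-orbits and `d' t - d t` in `p R`.  `m = ∑ d' t • b t`: for `s` in `S`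
`ρ s m = ∑ d' t • b (s • t) = m` (reindex), and `m - n = ∑ (d' t - d t) • b t` is in `p N`. -/
def FpfStmt : Prop :=
  ∀ (R G N T : Type) [CommRing R] [Group G] [AddCommGroup N] [Module R N] [Fintype T]
    [MulAction G T] (ρ : G →* (N →ₗ[R] N)) (b : T → N) (c : T → (N →ₗ[R] R)) (p : R),
    FrR ρ b c → FPl p ρ

/-- EQF: maps which are equivariant modulo `p` lift to equivariant maps.

Proof.  Choose representatives `ω₀` of the `G`-orbits on `Ω`.  `m ω₀` is fixed modulo `p` by the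
stabiliser of `ω₀` (put `g` in the stabiliser in the hypothesis), so there is `n₀` fixed by the
stabiliser, congruent to `m ω₀`.  For `ω = g • ω₀` put `m' ω = ρ g n₀` (independent of `g`).
`m' ω - m ω = ρ g (n₀ - m ω₀) + (ρ g (m ω₀) - m (g • ω₀))` is in `p N`. -/
def EqfStmt : Prop :=
  ∀ (R G N Ω : Type) [CommRing R] [Group G] [AddCommGroup N] [Module R N] [MulAction G Ω]
    (ρ : G →* (N →ₗ[R] N)) (p : R), FPl p ρ →
    ∀ m : Ω → N, (∀ g ω, ∃ x, m (g • ω) - ρ g (m ω) = p • x) →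
      ∃ m' : Ω → N, (∀ g ω, m' (g • ω) = ρ g (m' ω)) ∧ ∀ ω, ∃ x, m' ω - m ω = p • x

/-- INX: the formula of `IsX` defines a bimodule.

Proof.  `lm γ` is linear in `f` and in `γ`.  `lm 1 = 1`: `lam (om w⁻¹ c_j' c_i)` is
`lam (om w⁻¹ c_j' (c_i om 1))`, so `1` for `i = j`, `w = 1` and `0` otherwise (`d1`, `d0`).
`lm (γ δ) = lm γ lm δ`: `(lm γ (lm δ f)) (j, ω)` is the sum over `i, w, k, u` of
`lam (om w⁻¹ c_j' γ c_i) lam (om u⁻¹ c_i' δ c_k) • om (w u) f (k, (w u)⁻¹ • ω)`; with `v = w u` the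
coefficient of `om v f (k, v⁻¹ • ω)` is
`∑_(i,w) lam (om w⁻¹ c_j' γ c_i) lam (om v⁻¹ om w c_i' δ c_k)`, and by `sym`
`lam (om w⁻¹ c_j' γ c_i) = lam (c_j' γ (c_i om w⁻¹))`; `h2` for `x = c_j' γ` (index `w⁻¹` instead of
`w`) gives `∑ lam (c_j' γ (c_i om w⁻¹)) • (om w c_i') = c_j' γ`, so the coefficient is
`lam (om v⁻¹ c_j' γ δ c_k)`.  Scalars: `lm (algebraMap r) = r` from linearity and `lm 1 = 1`.
`rm` and `comm` are clear. -/
def InxStmt : Prop :=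
  ∀ (R Γ W I Ω : Type) [CommRing R] [Ring Γ] [Algebra R Γ] [CommGroup W] [Fintype W]
    [Fintype I] [Fintype Ω] [MulAction W Ω] (D : WFS R Γ W I),
    ∃ BX : BiM R Γ (I × Ω → Γ), IsX D Ω BX

/-- ING: the generators `ε ω = 1 ⊗ ω ⊗ 1`.

Proof.  `ε ω (i, ω') = ∑_(w : w • ω = ω') lam (om w⁻¹ c_i') • om w`.  With `s_(i,ω)` = the function
which is `1` at `(i, ω)` and `0` elsewhere: `lm (c_i) (ε ω) = s_(i,ω)`, because the value of the
left side at `(j, ω')` is `∑_(k,w) ∑_(u : w u ω = ω') lam (om w⁻¹ c_j' c_i c_k)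
lam (om u⁻¹ c_k') • om (w u)`, and for fixed `v = w u`:
`∑_(k,w) lam (om w⁻¹ c_j' c_i c_k) lam (om v⁻¹ om w c_k') = lam (om v⁻¹ c_j' c_i)`
(as in INX, `h2` for `x = c_j' c_i`), so the value is
`∑_(v : v ω = ω') lam (om v⁻¹ c_j' c_i) • om v`, by `d1`, `d0` (`v = 1`, `i = j`) the value of
`s_(i,ω)`.  So `f = ∑ s_(i,ω) f (i,ω) = ∑ c_i ε ω f (i, ω)`.  Equivariance: the value of
`om u (ε ω) om u⁻¹` at `(j, ω')` is `∑_(v : v ω = ω') lam (om v⁻¹ c_j' om u) • om v om u⁻¹` (same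
computation with `om u` instead of `c_i`), by `sym` and `v = t u`:
`∑_(t : t u ω = ω') lam (om t⁻¹ c_j') • om t`. -/
def IngStmt : Prop :=
  ∀ (R Γ W I Ω : Type) [CommRing R] [Ring Γ] [Algebra R Γ] [CommGroup W] [Fintype W]
    [Fintype I] [Fintype Ω] [MulAction W Ω] (D : WFS R Γ W I)
    (BX : BiM R Γ (I × Ω → Γ)), IsX D Ω BX →
    ∃ ε : Ω → (I × Ω → Γ), EqM D.om BX ε ∧
      (∀ (f : I × Ω → Γ), ∑ i, ∑ ω, BX.lm (D.cf i) (BX.rm (op (f (i, ω))) (ε ω)) = f) ∧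
      ∀ (ω : Ω) (x : I × Ω) [DecidableEq Ω], ε ω x =
        ∑ w : W, if w • ω = x.2 then D.lam (D.om w⁻¹ * D.cf' x.1) • D.om w else 0

/-- INM: the bimodule homomorphism given by an equivariant map, and its value at `ε ω`.

Proof.  `g f = ∑ c_i m ω f(i, ω)`.  Left linear:
`g (γ f) = ∑_(j,ω') c_j m ω' (γ f) (j, ω') = ∑_(j,ω',i,w) lam (om w⁻¹ c_j' γ c_i) •
c_j m(ω') om w f (i, w⁻¹ ω')`, with `ω' = w ω`, `m (w ω) om w = om w m ω`:
`∑_(i,ω) (∑_(j,w) lam (om w⁻¹ c_j' (γ c_i)) • c_j om w) m ω f (i, ω) = ∑ γ c_i m ω f (i, ω)` by `h1`.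
`g (ε ω) = ∑_(i,w) lam (om w⁻¹ c_i') • c_i m (w ω) om w = (∑ lam (om w⁻¹ c_i' 1) • c_i om w) m ω = m ω`
by `h1`. -/
def InmStmt : Prop :=
  ∀ (R Γ W I Ω N : Type) [CommRing R] [Ring Γ] [Algebra R Γ] [CommGroup W] [Fintype W]
    [Fintype I] [Fintype Ω] [MulAction W Ω] (D : WFS R Γ W I)
    (BX : BiM R Γ (I × Ω → Γ)) (_ : IsX D Ω BX) [AddCommGroup N] [Module R N]
    (BN : BiM R Γ N) (m : Ω → N), EqM D.om BN m →
    ∃ g : (I × Ω → Γ) →ₗ[R] N, BHom BX BN g ∧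
      (∀ f, g f = ∑ i, ∑ ω, BN.lm (D.cf i) (BN.rm (op (f (i, ω))) (m ω))) ∧
      ∀ (ω : Ω) (e : I × Ω → Γ) [DecidableEq Ω], (∀ x : I × Ω, e x =
        ∑ w : W, if w • ω = x.2 then D.lam (D.om w⁻¹ * D.cf' x.1) • D.om w else 0) → g e = m ω

/-- INB: the balanced bilinear map given by an equivariant family `μ ω ω' : Γ → N`.

Proof.  `β f f' = ∑_(i,ω,i',ω') c_i μ ω ω' (f (i,ω) c_(i')) f' (i',ω')`.
Left linear: as in INM with `μ (w ω) ω' (om w γ) = om w μ ω ω' γ`.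
Balanced: `β f (γ f') = ∑_(i,ω) ∑_(j,ω'') ∑_(i',w) lam (om w⁻¹ c_j' γ c_(i')) •
c_i μ ω ω'' (f (i,ω) c_j) om w f' (i', w⁻¹ ω'')`; with `ω'' = w ω'` and
`μ ω (w ω') (x) om w = μ ω ω' (x om w)`:
`∑ c_i μ ω ω' (f (i,ω) ∑_(j,w) lam (om w⁻¹ c_j' (γ c_(i'))) • c_j om w) f' (i',ω')
= ∑ c_i μ ω ω' (f (i,ω) γ c_(i')) f' (i',ω') = β (f γ) f'` by `h1`.  Right linear: clear. -/
def InbStmt : Prop :=
  ∀ (R Γ W I Ω N : Type) [CommRing R] [Ring Γ] [Algebra R Γ] [CommGroup W] [Fintype W]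
    [Fintype I] [Fintype Ω] [MulAction W Ω] (D : WFS R Γ W I)
    (BX : BiM R Γ (I × Ω → Γ)) (_ : IsX D Ω BX) [AddCommGroup N] [Module R N]
    (BN : BiM R Γ N) (μ : Ω → Ω → (Γ →ₗ[R] N)),
    (∀ u v ω ω' γ, μ (u • ω) (v • ω') (D.om u * γ * D.om v⁻¹) =
      wrp D.om BN (u, v) (μ ω ω' γ)) →
    ∃ β : (I × Ω → Γ) →ₗ[R] (I × Ω → Γ) →ₗ[R] N, Bal2 BX BN β ∧
      ∀ f f', β f f' = ∑ i, ∑ ω, ∑ i', ∑ ω', BN.lm (D.cf i)
        (BN.rm (op (f' (i', ω'))) (μ ω ω' (f (i, ω) * D.cf i')))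

/-- FPG: the frame of `Γ` for `W × W`.

Proof.  `(u, v) (i, w) = (i, ph i u * w * v⁻¹)`; `om u (c_i om w) om v⁻¹ = c_i om (ph i u w v⁻¹)` by
`nrm`.  `c (i, w) x = lam (om w⁻¹ c_i' x)`.  Equivariance of `c`: it is enough to check it on the
spanning family `b_(j,t)` (`h1`): both sides are the Kronecker symbol (`d1`, `d0`; the action is by
bijections).  -/
def FpgStmt : Prop :=
  ∀ (R Γ W I : Type) [CommRing R] [Ring Γ] [Algebra R Γ] [CommGroup W] [Fintype W]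
    [Fintype I] (D : WFS R Γ W I),
    ∃ (_ : MulAction (W × W) (I × W)) (c : I × W → (Γ →ₗ[R] R)),
      (∀ (u v : W) (i : I) (w : W), ((u, v) : W × W) • ((i, w) : I × W) =
        (i, D.ph i u * w * v⁻¹)) ∧
      (∀ t x, c t x = D.lam (D.om t.2⁻¹ * D.cf' t.1 * x)) ∧
      FrR (wrp D.om (regB R Γ)) (fun t : I × W => D.cf t.1 * D.om t.2) c

/-- FPX: the bimodule `X` has a permutation frame for `W × W`, so fixed vectors lift.

Proof.  `(om u f om v⁻¹) (j, ω) = ∑_(i,w) lam (om w⁻¹ c_j' om u c_i) • om w f (i, w⁻¹ ω) om v⁻¹`, and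
`om u c_i = c_i om (ph i u)`, so by `d1`, `d0` only `i = j`, `w = ph j u` remains: the value is
`om (ph j u) f (j, (ph j u)⁻¹ ω) om v⁻¹`.  Frame: `T = I × Ω × (I × W)`,
`b (j, ω, (i, w))` = the function with the value `c_i om w` at `(j, ω)` and `0` elsewhere, functional
`f ↦ lam (om w⁻¹ c_i' f (j, ω))`, action
`(u, v) (j, ω, (i, w)) = (j, ph j u • ω, (i, ph i (ph j u) * w * v⁻¹))` (an action since `ph j` is a
homomorphism and `W` is abelian).  Use FPG for the values and FPF. -/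
def FpxStmt : Prop :=
  ∀ (R Γ W I Ω : Type) [CommRing R] [Ring Γ] [Algebra R Γ] [CommGroup W] [Fintype W]
    [Fintype I] [Fintype Ω] [MulAction W Ω] (D : WFS R Γ W I)
    (BX : BiM R Γ (I × Ω → Γ)), IsX D Ω BX → ∀ p : R,
    FPl p (wrp D.om BX) ∧ FPl p (wrp D.om (regB R Γ))

/-- LFA: bimodule homomorphisms `X → N` modulo `p` lift, if the fixed vectors of `N` lift.

Proof.  `g` a homomorphism modulo `p`.  `m ω = g (ε ω)` is equivariant modulo `p` for the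
conjugation action `ρ w = wrp om BN (w, w)` of `W` (`EqM` of `ε`, ING).  `FPl p ρ` follows from
`FPl p (wrp ..)` for the subgroups `{(s, s)}`.  EQF: `m'` equivariant, `m' = m` modulo `p`.
INM gives `g'`, and by ING `g f = g (∑ c_i ε ω f (i,ω))` is congruent to
`∑ c_i (g (ε ω)) f (i,ω)`, hence to `g' f`. -/
def LfaStmt : Prop :=
  ∀ (R Γ W I Ω N : Type) [CommRing R] [Ring Γ] [Algebra R Γ] [CommGroup W] [Fintype W]
    [Fintype I] [Fintype Ω] [MulAction W Ω] (D : WFS R Γ W I)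
    (BX : BiM R Γ (I × Ω → Γ)) (_ : IsX D Ω BX) [AddCommGroup N] [Module R N]
    (BN : BiM R Γ N) (p : R), FPl p (wrp D.om BN) → Lif1 p BX BN

/-- LFB: balanced maps `X × X → N` modulo `p` lift, if the fixed vectors of `N` lift.

Proof.  `W × W` acts on `Ω × Ω × (I × W)` by `(u, v) (ω, ω', t) = (u ω, v ω', (u, v) t)` (the action
of FPG on `I × W`).  `m (ω, ω', t) = β (ε ω b_t) (ε ω')` is equivariant modulo `p` for `wrp om BN`:
`om u (ε ω b_t) = ε (u ω) om u b_t`, `(ε (u ω) x) (ε (v ω')) om v = (ε (u ω) x) (om v (ε ω'))` is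
congruent to `(ε (u ω) x om v) (ε ω')`, with `x = om u b_t om v⁻¹ = b_((u,v) t)`.
EQF: `m'`.  Put `μ ω ω' γ = ∑_t lam (b'_t γ) • m' (ω, ω', t)`; it satisfies the hypothesis of INB
(FPG: equivariance of the coordinates).  INB gives `β'`; `β f f'` is congruent to
`∑ c_i β (ε ω f (i,ω) c_(i')) (ε ω') f' (i',ω')` (ING, and balancedness to move `c_(i')` to the
left), and `x = ∑ lam (b'_t x) b_t` for `x = f (i,ω) c_(i')`, so it is congruent to `β' f f'`. -/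
def LfbStmt : Prop :=
  ∀ (R Γ W I Ω N : Type) [CommRing R] [Ring Γ] [Algebra R Γ] [CommGroup W] [Fintype W]
    [Fintype I] [Fintype Ω] [MulAction W Ω] (D : WFS R Γ W I)
    (BX : BiM R Γ (I × Ω → Γ)) (_ : IsX D Ω BX) [AddCommGroup N] [Module R N]
    (BN : BiM R Γ N) (p : R), FPl p (wrp D.om BN) → Lif2 p BX BN

/-- LFX: `X` is liftable.  From FPX, LFA (`N = X`), LFB (`N = X`, `N = Γ`). -/
def LfxStmt : Prop :=
  ∀ (R Γ W I Ω : Type) [CommRing R] [Ring Γ] [Algebra R Γ] [CommGroup W] [Fintype W]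
    [Fintype I] [Fintype Ω] [MulAction W Ω] (D : WFS R Γ W I)
    (BX : BiM R Γ (I × Ω → Γ)) (p : R), IsX D Ω BX → Lft p BX

/-- HGR: `X` is Higman projective up to the factor `|W|`.

Proof.  `s_ω f = ∑_(j,w) lam (c_j om w⁻¹) * lam (om w f (j, w⁻¹ ω))`, `a f = ∑_ω s_ω f • ε ω`.  For
`f = γ1 (ε ω') γ2` one has `s_ω f = ∑_(u : u ω' = ω) lam (γ1 om u⁻¹) lam (om u γ2)`: by
INM-type computation `f (j, ω'') = ∑_(v : v ω' = ω'') lam (om v⁻¹ c_j' γ1) • om v γ2`, so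
`s_ω f = ∑_(j,w,v : w v ω' = ω) lam (c_j om w⁻¹) lam (om v⁻¹ c_j' γ1) lam (om (w v) γ2)`, and with
`u = w v` fixed `∑_(j,v) lam (om v⁻¹ c_j' γ1) • c_j om v = γ1` gives `lam (γ1 om u⁻¹)`
(`c_j om w⁻¹ = c_j om v om u⁻¹`).
(1) `a (om w x om w⁻¹) = om w (a x) om w⁻¹` (from the formula, `sym`).
(2) `∑_(i) ∑_t c_i (a (c_i' x b_t)) b'_t = x`: for `x = γ1 (ε ω') γ2` the left side is
`∑_(i,u,t) lam (c_i' γ1 om u⁻¹) lam (om u γ2 b_t) • c_i (ε (u ω')) b'_t`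
`= ∑_(i,u) lam (om u⁻¹ c_i' γ1) • c_i (ε (u ω')) om u γ2` (`h2`)
`= ∑_(i,u) lam (om u⁻¹ c_i' γ1) • c_i om u (ε ω') γ2 = x` (`h1`).
(3) `∑_(i,w) ∑_t c_i om w (a (om w⁻¹ c_i' x b_t)) b'_t`: by (1) with `y = c_i' x b_t`
`om w (a (om w⁻¹ y)) = a (y om w⁻¹) om w`, and `∑_t b_t om w⁻¹ ⊗ om w b'_t = ∑_t b_t ⊗ b'_t`
(Casimir, `B1.CasStmt` for `D.fs`), so each `w` gives (2). -/
def HgrStmt : Prop :=
  ∀ (R Γ W I Ω : Type) [CommRing R] [Ring Γ] [Algebra R Γ] [CommGroup W] [Fintype W]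
    [Fintype I] [Fintype Ω] [MulAction W Ω] (D : WFS R Γ W I)
    (BX : BiM R Γ (I × Ω → Γ)), IsX D Ω BX →
    ∃ a : (I × Ω → Γ) →ₗ[R] (I × Ω → Γ), ∀ x, ∑ s, ∑ t,
      BX.lm (D.fs.b s) (BX.rm (op (D.fs.b' t)) (a (BX.lm (D.fs.b' s)
        (BX.rm (op (D.fs.b t)) x)))) = (Fintype.card W : R) • x

end Pool.Agent.PFD.D2b
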