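import Pool.Agent.PFD.DefsD4
import Pool.Agent.PFD.DefsD6
import Pool.Agent.PFD.StmtsD2b

/-!
Squad PFD, part D2b, block 2 (helper36): from helper79's `TX` and helper18's `BO` to the lift `A1`.
Complete proofs in the docstrings.  Notation as in StmtsD2b: `c_i = cf i`, `c_i' = cf' i`,
`b_(i,w) = c_i om w`, `b'_(i,w) = om w⁻¹ c_i'`.
-/

open scoped BigOperators

noncomputable section

namespace Pool.Agent.PFD.D2b

open MulOpposite
open Pool.Agent.PFC.B1 (BiM FS Sep)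
open Pool.Agent.PFD.D2

/-- LCU: a symmetric form is `t x = lam (z x)` with `z` central; if it comes from another `WFS`
then `z` is a unit.

Proof.  `z = ∑ t (b_s) b'_s`: `lam (z x) = t (∑ lam (b'_s x) b_s) = t x` (`D.fs.h1`).
`lam ((z γ - γ z) x) = t (γ x) - t (x γ) = 0` for all `x`, and `y = ∑ lam (y b_s) b'_s` (`h2`), so `z` is
central.  If `lam x = t (z' x)` in the same way then `lam x = lam (z z' x)` for all `x`, so
`z z' = 1`. -/
def LcuStmt : Prop :=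
  ∀ (R Γ W I : Type) [CommRing R] [Ring Γ] [Algebra R Γ] [CommGroup W] [Fintype W]
    [Fintype I] (D : WFS R Γ W I),
    (∀ t : Γ →ₗ[R] R, (∀ x y, t (x * y) = t (y * x)) →
      ∃ z : Γ, (∀ γ, z * γ = γ * z) ∧ ∀ x, t x = D.lam (z * x)) ∧
    ∀ (I' : Type) [Fintype I'] (D' : WFS R Γ W I'),
      ∃ z z' : Γ, (∀ γ, z * γ = γ * z) ∧ z * z' = 1 ∧ z' * z = 1 ∧ (∀ γ, z' * γ = γ * z') ∧
        ∀ x, D.lam x = D'.lam (z * x)

/-- CZW: the relative Casimir elements of two `WFS` with the same `om`.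

Proof.  `c_i = ∑_(k,w) D'.lam (om w⁻¹ e_k' c_i) • e_k om w` (`D'.h1`, `e = D'.cf`).  So the left side is
`∑_(i,k,w) D'.lam (om w⁻¹ e_k' c_i) β (e_k om w) c_i' = ∑_k β e_k (∑_(i,w) D'.lam (om w⁻¹ e_k' c_i) •
om w c_i')`, and `D'.lam y = D.lam (z' y)`, `D.lam (z' om w⁻¹ e_k' c_i) = D.lam (z' e_k' (c_i om w⁻¹))`
(`sym`, `z'` central); by `D.h2` (index `w⁻¹`) the inner sum is `z' e_k'`. -/
def CzwStmt : Prop :=
  ∀ (R Γ W I I' X : Type) [CommRing R] [Ring Γ] [Algebra R Γ] [CommGroup W] [Fintype W]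
    [Fintype I] [Fintype I'] [AddCommGroup X] [Module R X] (D : WFS R Γ W I) (D' : WFS R Γ W I')
    (z z' : Γ), (∀ w, D.om w = D'.om w) → (∀ γ, z * γ = γ * z) → (∀ γ, z' * γ = γ * z') →
    z * z' = 1 → (∀ x, D.lam x = D'.lam (z * x)) →
    ∀ β : Γ →ₗ[R] Γ →ₗ[R] X, (∀ x y w, β (x * D.om w) y = β x (D.om w * y)) →
      ∑ i, β (D.cf i) (D.cf' i) = ∑ k, β (D'.cf k) (z' * D'.cf' k)

/-- CHF: change of the relative Frobenius family in a `WFr`.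

Proof.  `m` the same, `τ ω a = τ' ω (j z * a * j z)` (`z` commutes with `om w`, so `t1` holds).
`id`: (1) for fixed `k, w` the map
`β1 x y = ∑_w ∑_k ∑_ω τ ω (j y * a * j (c_k om w)) • (j x * m ω * j (om w⁻¹ c_k'))` is balanced over
`om W`: replace `ω` by `u • ω` (`m1`, `t1`) and `w` by `w u`.  CZW replaces `c_i, c_i'` by
`e_i, z' e_i'`.  (2) for the full sum `∑_(k,w) β2 (c_k om w) (om w⁻¹ c_k')` use CZW with
`β x y = ∑_w β2 (x om w) (om w⁻¹ y)` (balanced: replace `w` by `u⁻¹ w`); it becomes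
`∑_(k,w) β2 (e_k om w) (om w⁻¹ z' e_k')`.  (3) The result is
`∑ τ' ω (j z j z' j e_i' a j (e_k om w) j z) • (j e_i m ω j (om w⁻¹ z' e_k'))`; `z z' = 1`, and
`∑_(k,w) β2 (e_k om w z) (z' om w⁻¹ e_k') = ∑_(k,w) β2 (e_k om w) (z z' om w⁻¹ e_k')` is the Casimir
identity (`B1.CasStmt` for `D'.fs`, `z` central; use it for the bilinear map `(x, y) ↦ β2 x (z' y)`).
So the sum is the one of `D'`. -/
def ChfStmt : Prop :=
  ∀ (R Γ W I I' A Ω : Type) [CommRing R] [Ring Γ] [Algebra R Γ] [CommGroup W] [Fintype W]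
    [Fintype I] [Fintype I'] [Ring A] [Algebra R A] [Fintype Ω] [MulAction W Ω]
    (D : WFS R Γ W I) (D' : WFS R Γ W I')
    (z z' : Γ), (∀ w, D.om w = D'.om w) → (∀ γ, z * γ = γ * z) → (∀ γ, z' * γ = γ * z') →
    z * z' = 1 → (∀ x, D.lam x = D'.lam (z * x)) →
    ∀ (j : Γ →ₐ[R] A) (pr : A →ₗ[R] Γ), Nonempty (WFr D' j pr Ω) → Nonempty (WFr D j pr Ω)

/-- SPX: a `WFr` makes the complement of `Γ` in `A` a retract of `X`.

Proof.  `BN`: `A` as a bimodule, `lm γ a = j γ * a`, `rm (op γ) a = a * j γ`; `m` is `EqM` by `m1`.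
`p` is the homomorphism of INM.  `(i a) (j', ω) = ∑_(k,w) τ ω (j (c_(j')') * a * j (c_k om w)) •
(om w⁻¹ c_k')`.  Right linear: Casimir identity for `D.fs`.  Left linear: `(γ (i a)) (j', ω) =
∑_(l,u) lam (om u⁻¹ c_(j')' γ c_l) • om u (i a) (l, u⁻¹ ω)`, and by `t1`
`τ (u⁻¹ ω) (c_l' a b_t) = τ ω (om u c_l' a b_t om u⁻¹)`, `∑_t b_t om u⁻¹ ⊗ om u b'_t = ∑_t b_t ⊗ b'_t`,
and `∑_(l,u) lam (om u⁻¹ c_(j')' γ c_l) • om u c_l' = c_(j')' γ` (`sym`, `h2` with `u⁻¹`), so it is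
`∑_t τ ω (c_(j')' γ a b_t) • b'_t = (i (j γ a)) (j', ω)`.
`p (i a) = ∑_(i,ω) c_i m ω (i a) (i, ω)` is the left side of `WFr.id`. -/
def SpxStmt : Prop :=
  ∀ (R Γ W I A Ω : Type) [CommRing R] [Ring Γ] [Algebra R Γ] [CommGroup W] [Fintype W]
    [Fintype I] [Ring A] [Algebra R A] [Fintype Ω] [MulAction W Ω] (D : WFS R Γ W I)
    (BX : BiM R Γ (I × Ω → Γ)), IsX D Ω BX →
    ∀ (j : Γ →ₐ[R] A) (pr : A →ₗ[R] Γ), (∀ γ, pr (j γ) = γ) → (∀ γ x, pr (j γ * x) = γ * pr x) →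
      (∀ x γ, pr (x * j γ) = pr x * γ) → WFr D j pr Ω →
      ∃ sp : SplitX A BX, sp.j = j ∧ sp.pr = pr

/-- RWF: the reduction of a `WFS` and of the bimodule `X`.

Proof.  `lam0 (f.q x) = κ (lam x)` is well defined: `f.q x = 0` gives `x = π y`,
`κ (lam x) = κ π κ (lam y) = 0` (`κ π = 0` by `c.ker`); additive, and `F`-linear since `κ` is onto.
`om0 = f.q ∘ om`, `cf0 = f.q ∘ cf`, `cf0' = f.q ∘ cf'`, the same `ph`.  All identities are the images under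
`f.q` and `κ` of the identities over `R` (for `h1`, `h2`: `f.q` is onto,
`f.q (r • x) = κ r • f.q x` by `sc`).  The map of bimodules is `x ↦ f.q ∘ x`; `ker`: choose `y` at every
point. -/
def RwfStmt : Prop :=
  ∀ (R F Γ Γ0 W I : Type) [CommRing R] [Field F] (c : Cdv R F) [Ring Γ] [Algebra R Γ] [Ring Γ0]
    [Algebra F Γ0] (f : FibG Γ Γ0 c) [CommGroup W] [Fintype W] [Fintype I] (D : WFS R Γ W I),
    ∃ D0 : WFS F Γ0 W I, (∀ x, D0.lam (f.q x) = c.κ (D.lam x)) ∧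
      (∀ w, D0.om w = f.q (D.om w)) ∧ (∀ i, D0.cf i = f.q (D.cf i)) ∧
      (∀ i, D0.cf' i = f.q (D.cf' i)) ∧
      ∀ (Ω : Type) [Fintype Ω] [MulAction W Ω] (BX : BiM R Γ (I × Ω → Γ))
        (B0 : BiM F Γ0 (I × Ω → Γ0)), IsX D Ω BX → IsX D0 Ω B0 →
        Nonempty (FibM (I × Ω → Γ) (I × Ω → Γ0) f BX B0)

/-- XCL: central elements of `X` lift.

Proof.  Put `E γ x ω = ∑_(i,t) lam (γ c_i om t⁻¹) • om t x (i, t⁻¹ ω)`.
(1) `E 1 (γ x) = E γ x`: the coefficient of `om t x (i, t⁻¹ ω)` in `E 1 (lm γ x) ω` is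
`∑_(j,w) lam (c_j om w⁻¹) lam (om (w t⁻¹) c_j' γ c_i)`, `lam (om (w t⁻¹) c_j' γ c_i) =
lam (om w c_j' (γ c_i om t⁻¹))` (`sym`), and `∑_(j,w) lam (om w c_j' y) • c_j om w⁻¹ = y` (`h1`).
(2) `E c_k' x ω = x (k, ω)`: `lam (c_k' c_i om t⁻¹) = lam (om t⁻¹ c_k' (c_i om 1))` is `1` for `i = k`,
`t = 1`, else `0`.  (3) `E (om w) x ω = om w (E 1 x (w⁻¹ ω))`.  (4) `E 1 (x γ) = (E 1 x) γ`.
Let `x` be central modulo `p`, `e = E 1 x`.  By (3), (1), (4) `om w e(w⁻¹ ω)` is congruent to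
`e(ω) om w`, i.e. `e (w • ω) - om w e(ω) om w⁻¹` is in `p Γ`.  EQF (with FPX, second part, restricted to
the diagonal: `w ↦ wrp om regB (w, w)`) gives `y` equivariant, `y - e` in `p`.
`x' (i, ω) = y ω c_i'`.  Central: `(γ x') (j, ω) = ∑_(i,w) lam (om w⁻¹ c_j' γ c_i) • om w y(w⁻¹ ω) c_i' =
y ω ∑ lam (c_j' γ c_i om w⁻¹) • om w c_i' = y ω c_j' γ` (`h2`).  Congruent:
`x (i, ω) = E c_i' x ω = E 1 (c_i' x) ω`, congruent to `E 1 (x c_i') ω = e ω c_i'`. -/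
def XclStmt : Prop :=
  ∀ (R Γ W I Ω : Type) [CommRing R] [Ring Γ] [Algebra R Γ] [CommGroup W] [Fintype W]
    [Fintype I] [Fintype Ω] [MulAction W Ω] (D : WFS R Γ W I)
    (BX : BiM R Γ (I × Ω → Γ)) (p : R), IsX D Ω BX →
    ∀ x, (∀ γ, ∃ y, BX.lm γ x - BX.rm (op γ) x = p • y) →
      ∃ x', (∀ γ, BX.lm γ x' = BX.rm (op γ) x') ∧ ∃ y, x' - x = p • y

/-- LAX: the lift `A1`.

Proof.  `sp = df.sp`: `fb = df.fb`, `j = sp.j`, `pr = sp.pr`, `cj`, `cp` from `df`.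
`a = sp.p ∘ aX ∘ sp.i` with `aX` from HGR:
`∑ j(b_s) p (aX (i (j(b'_s) x j(b_t)))) j(b'_t) = p (∑ b_s aX (b'_s (i x) b_t) b'_t) = p (|W| i x)
= |W| (x - j (pr x))`.
`cl`: let `x0` commute with `j0 Γ0`.  `pr0 x0` is central in `Γ0` (`pr_l`, `pr_r` of `sp0`), so
`pr0 x0 = f.q ζ` with `ζ` central (hypothesis `ctr`).  Choose `a1` with `fb.q a1 = x0`; for `γ`
`fb.q (j γ a1 - a1 j γ) = 0` (`cj`), so `j γ a1 - a1 j γ = π a2`, and `sp.i a1` is central modulo `π`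
in `X`.  XCL: `x'` central in `X`, `x' = sp.i a1 + π y`.  `x = j ζ + sp.p x'` commutes with `j Γ`, and
`fb.q x = j0 (pr0 x0) + fb.q (p (i a1)) = j0 (pr0 x0) + fb.q (a1 - j (pr a1)) = x0`. -/
def LaxStmt : Prop :=
  ∀ (R F Γ Γ0 A X0 W I Ω A1 : Type) [CommRing R] [Field F] (c : Cdv R F) [Ring Γ] [Algebra R Γ]
    [Ring Γ0] [Algebra F Γ0] [Ring A] [Algebra F A] [AddCommGroup X0] [Module F X0]
    [CommGroup W] [Fintype W] [Fintype I] [Fintype Ω] [MulAction W Ω] [Ring A1] [Algebra R A1]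
    (D : WFS R Γ W I) (f : FibG Γ Γ0 c) (BX : BiM R Γ (I × Ω → Γ)) (_ : IsX D Ω BX)
    (B0 : BiM F Γ0 X0) (sp0 : SplitX A B0) (_ : DfmX A A1 c f BX B0 sp0),
    (∀ a : Γ0, (∀ γ, a * γ = γ * a) → ∃ b : Γ, (∀ γ, b * γ = γ * b) ∧ f.q b = a) →
    Nonempty (LA A1 D f sp0.j sp0.pr)

/-- WGD: the twisted group algebra as a `WFS`; `T` is a transversal of `W` in `V`.

Proof.  `lam a = (a.f 1) 1` (the coefficient of `1` in the component of `1`).  `sn_mul_sn`,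
`c e e⁻¹ = c e⁻¹ e` (`CP.c_inv_symm`) give `sym`.  `cf (h, t) om w = n h vv (t w)` runs over a basis
`n h vv v` of `CP` (every `v` is `t w` with a unique `t ∈ T`, `w ∈ W`), `om w⁻¹ cf' (h, t) =
vv (t w)⁻¹ ni h` is its inverse, and `lam (vv v⁻¹ ni h n g vv u)` is `1` if `h = g`, `v = u`, else `0`.
`ph (h, t) w = (φ h)⁻¹ w`: `vv w n h vv t = n h vv (φ h⁻¹ w) vv t`. -/
def WgdStmt : Prop :=
  ∀ (F V E : Type) [Field F] [CommGroup V] [Fintype V] [Group E] [Fintype E]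
    (φ : E →* MulAut V) (W : Subgroup V) [Fintype W] (z : Coc F E),
    (∀ e, ∀ w ∈ W, φ e w ∈ W) → ∀ T : Finset V, Pool.Agent.PFC.IsTv W ⊤ T →
    ∃ D : WFS F (CP (D0 φ z)) W (E × T), (∀ w : W, D.om w = vv φ z (w : V)) ∧
      (∀ i, D.cf i = CP.n (D0 φ z) i.1 * vv φ z (i.2 : V)) ∧
      ∀ i, D.cf' i = vv φ z (i.2 : V)⁻¹ * D6.ni (D0 φ z) i.1

/-- WGF: the frame of `TX` is a `WFr` for the group `WFS`.

Proof.  `hw` for `T`; in the sum over `v : V` put `v = t w` (`t ∈ T`, `w ∈ W` unique; sums over the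
subtype `T` and over `T`). -/
def WgfStmt : Prop :=
  ∀ (F V E A : Type) [Field F] [CommGroup V] [Fintype V] [Group E] [Fintype E] [Ring A]
    [Algebra F A] (φ : E →* MulAut V) (W : Subgroup V) [Fintype W] (z : Coc F E)
    (tx : D6.TX A φ W z) (T : Finset V), Pool.Agent.PFC.IsTv W ⊤ T →
    ∀ D : WFS F (CP (D0 φ z)) W (E × T), (∀ w : W, D.om w = vv φ z (w : V)) →
      (∀ i, D.cf i = CP.n (D0 φ z) i.1 * vv φ z (i.2 : V)) →
      (∀ i, D.cf' i = vv φ z (i.2 : V)⁻¹ * D6.ni (D0 φ z) i.1) →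
      ∃ (Ω : Type) (_ : Fintype Ω) (_ : MulAction W Ω), Nonempty (WFr D tx.j tx.pr Ω)

/-- BWF: helper18's `BO` gives a `WFS`.

Proof.  `lam = t`, `cf = x`, `cf' = x'`; `h1`, `h2` are `t1`, `t2` (any two `Fintype W` are equal);
`d1`, `d0`: `t1` for `a = bs (j, w)` and the uniqueness of coordinates in the basis `bs`. -/
def BwfStmt : Prop :=
  ∀ (R F V E Γ : Type) [CommRing R] [Field F] [CommGroup V] [Group E] [Fintype E] (ℓ : ℕ)
    (c : Cdv R F) (o : Og ℓ c) (φ : E →* MulAut V) (W : Subgroup V) [Fintype W] (z : Coc F E)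
    [Ring Γ] [Algebra R Γ] (bo : BO Γ o φ W z),
    ∃ (I : Type) (_ : Fintype I) (D : WFS R Γ W I), D.lam = bo.t ∧ D.om = bo.om

/-- LAT: the lift `A1` exists (assembly).

Proof.  `D` from BWF, `D0` its reduction (RWF), `Ω` from WGF, `B0`, `BX` from INX; `T` a transversal
of `W` in `V` (representatives of the cosets), `DG` from WGD, its frame from WGF; `z, z'` from LCU for
`D0`, `DG` (`D0.om w = f.q (om w) = vv w = DG.om w` by `om_q`), frame of `D0` from CHF; SPX gives `sp0`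
with `sp0.j = tx.j`, `sp0.pr = tx.pr`; `FibM` from RWF; LFX; `D2.ExxStmt` with `tx.sep`; LAX with
`bo.ctr` (`Subalgebra.mem_center_iff`). -/
def LatStmt : Prop :=
  ∀ (R F V E A Γ : Type) [CommRing R] [Field F] [CommGroup V] [Fintype V] [Group E] [Fintype E]
    [Ring A] [Algebra F A] (ℓ : ℕ) (c : Cdv R F) (o : Og ℓ c) (φ : E →* MulAut V)
    (W : Subgroup V) [Fintype W] (z : Coc F E) [Ring Γ] [Algebra R Γ] [Module.Finite R Γ]
    [Module.Free R Γ] (bo : BO Γ o φ W z) (tx : D6.TX A φ W z), (∀ e, ∀ w ∈ W, φ e w ∈ W) →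
    ∃ (I : Type) (_ : Fintype I) (D : WFS R Γ W I) (A1 : Type) (_ : Ring A1)
      (_ : Algebra R A1) (_ : Module.Finite R A1) (_ : Module.Free R A1), D.lam = bo.t ∧
      D.om = bo.om ∧ Nonempty (LA A1 D bo.fb tx.j tx.pr)

end Pool.Agent.PFD.D2b
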