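import Pool.Agent.PFD.DefsD4
import Pool.Agent.PFD.DefsD6
import Pool.Agent.PFD.StmtsD1
import Pool.Agent.PFD.StmtsD2
import Pool.Agent.PFD.StmtsD2c

/-!
Squad PFD, part D4 (helper36): from the lift `A1` to `dim Z(A) = dim Z(F_c[V : E])`.
Complete proofs in the docstrings.
-/

open scoped BigOperators TensorProduct

noncomputable section

namespace Pool.Agent.PFD.D4

open Pool.Agent.PFC.B1 (BiM FS Sep Split)
open Pool.Agent.PFD.D2
open Pool.Agent.PFD.D2b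

/-! ### the level of `R` -/

section R

/-- RFL: a relative Frobenius system lifts.

Proof.  Choose `X k`, `y' k` with `fb.q (X k) = x k`, `fb.q (y' k) = y k`.
`Φ a = ∑ X k * j (pr (y' k * a))` is `R`-linear, `Φ (a * j γ) = Φ a * j γ`, and `fb.q (Φ a) = fb.q a`
(`e1`, `cj`, `cp`), so `Φ a - a` is in `π A1` and `Φ` is bijective (`UngStmt`).  Its inverse is right
`Γ`-linear; `s.x k = Φ⁻¹ (X k)`, `s.y k = y' k` satisfy `e1`, and `Φ⁻¹ (X k) - X k` is in `π A1`.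
`e2`: for `d = ∑ j (pr (a * s.x k)) * s.y k - a` one has `pr (d * b) = 0` for all `b` (`pr_l`, `pr_r`, `e1`).
Claim: `pr (d * b) = 0` for all `b` implies `d = 0`: `fb.q d = ∑ j0 (pr0 (fb.q d * x k)) * y k = 0`
(`cp`), `d = π d'`, `π pr (d' b) = 0`, and `Γ` is free, so `pr (d' b) = 0`; repeat: `d` is in all
`π^n A1`, and `A1` is free and finite (`c.sep`). -/
def RflStmt : Prop :=
  ∀ (R F Γ Γ0 A A1 N : Type) [CommRing R] [Field F] (c : Cdv R F) [Ring Γ]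
    [Algebra R Γ] [Module.Finite R Γ] [Module.Free R Γ] [Ring Γ0] [Algebra F Γ0] [Ring A]
    [Algebra F A] [Ring A1] [Algebra R A1] [Module.Finite R A1] [Module.Free R A1]
    (f : FibG Γ Γ0 c) (fb : FibG A1 A c) (j0 : Γ0 →ₐ[F] A) (pr0 : A →ₗ[F] Γ0) (j : Γ →ₐ[R] A1)
    (pr : A1 →ₗ[R] Γ) [Fintype N] (x y : N → A),
    (∀ γ, pr (j γ) = γ) → (∀ γ a, pr (j γ * a) = γ * pr a) → (∀ a γ, pr (a * j γ) = pr a * γ) →
    (∀ γ, fb.q (j γ) = j0 (f.q γ)) → (∀ a, pr0 (fb.q a) = f.q (pr a)) →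
    (∀ a, ∑ k, x k * j0 (pr0 (y k * a)) = a) → (∀ a, ∑ k, j0 (pr0 (a * x k)) * y k = a) →
    ∃ s : RF R Γ A1 N j pr, (∀ k, fb.q (s.x k) = x k) ∧ ∀ k, fb.q (s.y k) = y k

/-- UNM: an element of `A1` is a unit if its image in `A` is a unit.

Proof.  Let `fb.q b` be the inverse of `fb.q a`.  `a b - 1`, `b a - 1` are in `π A1`; left multiplication
by `a b` is bijective (`UngStmt`), so `a` has a right inverse; in the same way for `b a`: left
inverse. -/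
def UnmStmt : Prop :=
  ∀ (R F A A1 : Type) [CommRing R] [Field F] (c : Cdv R F) [Ring A] [Algebra F A] [Ring A1]
    [Algebra R A1] [Module.Finite R A1] [Module.Free R A1] (fb : FibG A1 A c) (a : A1),
    IsUnit (fb.q a) → IsUnit a

/-- RTC: rules for the relative trace of a relative Frobenius system over any commutative ring.

Proof.  `a x_k = ∑_l x_l j (pr (y_l a x_k))` (`e1`), so
`a (∑_k x_k s y_k) = ∑_(k,l) x_l j (pr (y_l a x_k)) s y_k = ∑_l x_l s ∑_k j (pr (y_l a x_k)) y_k =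
∑_l x_l s y_l a` (`e2`), if `s` commutes with `j Γ`.  The others are clear. -/
def RtcStmt : Prop :=
  ∀ (R B A N : Type) [CommRing R] [Ring B] [Algebra R B] [Ring A] [Algebra R A] [Fintype N]
    (j : B →ₐ[R] A) (pr : A →ₗ[R] B) (s : RF R B A N j pr),
    (∀ b : A, (∀ γ, j γ * b = b * j γ) → ∀ a, a * s.rt b = s.rt b * a) ∧
    (∀ z b : A, (∀ a, z * a = a * z) → s.rt (z * b) = z * s.rt b) ∧
    (∀ (X : Type) [AddCommGroup X] [Module R X] (β : A →ₗ[R] A →ₗ[R] X),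
      (∀ a b γ, β (a * j γ) b = β a (j γ * b)) →
      ∀ a, ∑ k, β (a * s.x k) (s.y k) = ∑ k, β (s.x k) (s.y k * a))

/-- FRM: the symmetric form lifts.

Proof.  `z1 = s.rt 1` is central (RTC), so is its inverse `z2`.  `la a = D.lam (u * pr a)` has
`la (j γ * a) = la (a * j γ)` (`D.sym`, `u` central).  `tA a = ∑_k la (y_k z2 a x_k)`.
`tA (a b) = ∑ la (y_k z2 a (b x_k)) = ∑ la (y_k b z2 a x_k)` (RTC, third part, for the balanced map
`β x y = la (y * (z2 * a * x))`, `β (x j γ) y = β x (j γ y)` by the rule for `la`) `= tA (b a)`.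
`κ (la a) = κ (D.lam (u * pr a)) = mu (j0 (f.q (pr a))) = mu (j0 (pr0 (fb.q a))) = mu (fb.q a)`, so
`κ (tA a) = mu (∑ y_k z2 a x_k) = mu (z2 a ∑ x_k y_k)... = mu (fb.q a)` (`mu` symmetric). -/
def FrmStmt : Prop :=
  ∀ (R F Γ Γ0 A A1 W I N : Type) [CommRing R] [Field F] (c : Cdv R F) [Ring Γ]
    [Algebra R Γ] [Ring Γ0] [Algebra F Γ0] [Ring A] [Algebra F A] [Ring A1] [Algebra R A1]
    [CommGroup W] [Fintype W] [Fintype I] [Fintype N] (D : WFS R Γ W I)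
    (f : FibG Γ Γ0 c) (fb : FibG A1 A c) (j0 : Γ0 →ₐ[F] A) (pr0 : A →ₗ[F] Γ0) (j : Γ →ₐ[R] A1)
    (pr : A1 →ₗ[R] Γ) (s : RF R Γ A1 N j pr) (u : Γ) (mu : A →ₗ[F] F),
    (∀ γ a, pr (j γ * a) = γ * pr a) → (∀ a γ, pr (a * j γ) = pr a * γ) →
    (∀ a, pr0 (fb.q a) = f.q (pr a)) → IsUnit (s.rt 1) → (∀ γ, u * γ = γ * u) →
    (∀ a b, mu (a * b) = mu (b * a)) → (∀ a, mu (j0 (pr0 a)) = mu a) →
    (∀ γ, c.κ (D.lam (u * γ)) = mu (j0 (f.q γ))) →
    ∃ tA : A1 →ₗ[R] R, (∀ a b, tA (a * b) = tA (b * a)) ∧ ∀ a, c.κ (tA a) = mu (fb.q a)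

/-- ULF: the form of `Γ0` lifts.

Proof.  `D0` = the reduction of `D` (`RwfStmt`).  `t0 γ = mu (j0 γ)` is symmetric, so
`t0 γ = D0.lam (u0 γ)` with `u0` central (`LcuStmt`).  If `u0 γ = 0` then `mu (j0 γ * j0 δ) = 0` for all
`δ`, so `mu (j0 γ * a) = mu (j0 (pr0 (j0 γ * a))) = mu (j0 (γ * pr0 a)) = 0` for all `a`, and `γ = 0`
(`mun`, `pr0_j`).  `Γ0` is finite-dimensional, so `u0` is a unit.  Lift `u0` to a central `u`
(hypothesis `ctr`); `κ (D.lam (u γ)) = D0.lam (f.q (u γ)) = t0 (f.q γ)`. -/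
def UlfStmt : Prop :=
  ∀ (R F Γ Γ0 A W I : Type) [CommRing R] [Field F] (c : Cdv R F) [Ring Γ]
    [Algebra R Γ] [Ring Γ0] [Algebra F Γ0] [FiniteDimensional F Γ0] [Ring A] [Algebra F A]
    [CommGroup W] [Fintype W] [Fintype I] (D : WFS R Γ W I)
    (f : FibG Γ Γ0 c) (j0 : Γ0 →ₐ[F] A) (pr0 : A →ₗ[F] Γ0) (mu : A →ₗ[F] F),
    (∀ γ, pr0 (j0 γ) = γ) → (∀ γ a, pr0 (j0 γ * a) = γ * pr0 a) →
    (∀ a b, mu (a * b) = mu (b * a)) → (∀ a, mu (j0 (pr0 a)) = mu a) →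
    (∀ a, (∀ b, mu (a * b) = 0) → a = 0) →
    (∀ a : Γ0, (∀ γ, a * γ = γ * a) → ∃ b : Γ, (∀ γ, b * γ = γ * b) ∧ f.q b = a) →
    ∃ u : Γ, (∀ γ, u * γ = γ * u) ∧ IsUnit (f.q u) ∧
      ∀ γ, c.κ (D.lam (u * γ)) = mu (j0 (f.q γ))

/-- ORT: the orthogonal projection.

Proof.  `t' γ = tA (j γ)` is symmetric, `t' γ = D.lam (u γ)` with `u` central (`LcuStmt`).
`D0` = reduction of `D` (`RwfStmt`): `D0.lam (f.q u * f.q γ) = κ (tA (j γ)) = mu (j0 (f.q γ))`, and `f.q u`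
is a unit as in ULF, so `u` is a unit (`UnmStmt` for `f`), `u u' = 1`.
`e a = ∑_s tA (a * j (b_s)) • b'_s` (`b = D.fs.b`) has `D.lam (e a * γ) = tA (a * j γ)`; elements of `Γ`
are determined by the values `D.lam (· * γ)`; `pr' a = u' * e a` is a bimodule map with
`pr' (j γ) = γ` (`tA` symmetric, `u` central), `D.lam (u * pr' a) = tA a`.
`f.q (pr' a) = pr0 (fb.q a)`: both `y` satisfy
`D0.lam (f.q u * y * f.q γ) = mu (fb.q a * j0 (f.q γ))`.
New `LA`: `fb`, `j`, `cl` the same, `pr'`, operator `a' x = a x - j (pr' (a x))`: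
with `q' x = x - j (pr' x)`, a bimodule map, the sum for `a'` is `q' (|W| (x - j (pr x))) =
|W| (x - j (pr' x))`. -/
def OrtStmt : Prop :=
  ∀ (R F Γ Γ0 A A1 W I : Type) [CommRing R] [Field F] (c : Cdv R F) [Ring Γ]
    [Algebra R Γ] [Module.Finite R Γ] [Module.Free R Γ] [Ring Γ0] [Algebra F Γ0]
    [FiniteDimensional F Γ0] [Ring A] [Algebra F A] [Ring A1] [Algebra R A1]
    [CommGroup W] [Fintype W] [Fintype I] (D : WFS R Γ W I) (f : FibG Γ Γ0 c)
    (j0 : Γ0 →ₐ[F] A) (pr0 : A →ₗ[F] Γ0) (mu : A →ₗ[F] F) (la : LA A1 D f j0 pr0)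
    (tA : A1 →ₗ[R] R),
    (∀ γ, pr0 (j0 γ) = γ) → (∀ γ a, pr0 (j0 γ * a) = γ * pr0 a) →
    (∀ a γ, pr0 (a * j0 γ) = pr0 a * γ) →
    (∀ a b, mu (a * b) = mu (b * a)) → (∀ a, mu (j0 (pr0 a)) = mu a) →
    (∀ a, (∀ b, mu (a * b) = 0) → a = 0) →
    (∀ a b, tA (a * b) = tA (b * a)) → (∀ a, c.κ (tA a) = mu (la.fb.q a)) →
    ∃ (la' : LA A1 D f j0 pr0) (u u' : Γ), la'.fb = la.fb ∧ la'.j = la.j ∧
      (∀ γ, u * γ = γ * u) ∧ u * u' = 1 ∧ ∀ a, tA a = D.lam (u * la'.pr a)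

/-- LRX: the final lift (assembly).

Proof.  RFL for `la`: `s`, `s.rt 1` reduces to `∑ x_k * j0 1 * y_k`, a unit by `unt` for `w = 1`; UNM.
ULF: `u`.  FRM: `tA`.  ORT: `la'`, `u1`, `u1'`.  RFL for `la'` (with `la'.fb`, `la'.j`, `la'.pr`): `s'`.
`s'.rt 1`, `s'.rt (j u1')` reduce to `∑ x_k j0 1 y_k`, `∑ x_k j0 (f.q u1') y_k`, units by `unt`
(`f.q u1'` is central and a unit); UNM. -/
def LrxStmt : Prop :=
  ∀ (R F Γ Γ0 A A1 W I N : Type) [CommRing R] [Field F] (c : Cdv R F) [Ring Γ]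
    [Algebra R Γ] [Module.Finite R Γ] [Module.Free R Γ] [Ring Γ0] [Algebra F Γ0]
    [FiniteDimensional F Γ0] [Ring A] [Algebra F A] [Ring A1] [Algebra R A1]
    [Module.Finite R A1] [Module.Free R A1]
    [CommGroup W] [Fintype W] [Fintype I] [Fintype N] (D : WFS R Γ W I) (f : FibG Γ Γ0 c)
    (j0 : Γ0 →ₐ[F] A) (pr0 : A →ₗ[F] Γ0) (mu : A →ₗ[F] F) (_ : LA A1 D f j0 pr0)
    (x y : N → A),
    (∀ γ, pr0 (j0 γ) = γ) → (∀ γ a, pr0 (j0 γ * a) = γ * pr0 a) →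
    (∀ a γ, pr0 (a * j0 γ) = pr0 a * γ) →
    (∀ a b, mu (a * b) = mu (b * a)) → (∀ a, mu (j0 (pr0 a)) = mu a) →
    (∀ a, (∀ b, mu (a * b) = 0) → a = 0) →
    (∀ a : Γ0, (∀ γ, a * γ = γ * a) → ∃ b : Γ, (∀ γ, b * γ = γ * b) ∧ f.q b = a) →
    (∀ a, ∑ k, x k * j0 (pr0 (y k * a)) = a) → (∀ a, ∑ k, j0 (pr0 (a * x k)) * y k = a) →
    (∀ w : Γ0, (∀ γ, w * γ = γ * w) → IsUnit w → IsUnit (∑ k, x k * j0 w * y k)) →
    Nonempty (LR A1 D f j0 pr0)

/-- ZON: the centre of `A1` maps onto the centre of `A`.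

Proof.  `z` in the centre; by `cl` there is `b` commuting with `j Γ`, `fb.q b = z`.  `rf.rt b` is
central (RTC), `rf.rt 1` is a central unit with inverse `i`; the element `rf.rt b * i` is central, and
`fb.q (rf.rt b) = z * fb.q (rf.rt 1)` since `z` is central. -/
def ZonStmt : Prop :=
  ∀ (R F Γ Γ0 A A1 W I : Type) [CommRing R] [Field F] (c : Cdv R F) [Ring Γ]
    [Algebra R Γ] [Ring Γ0] [Algebra F Γ0] [Ring A] [Algebra F A] [Ring A1] [Algebra R A1]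
    [CommGroup W] [Fintype W] [Fintype I] (D : WFS R Γ W I) (f : FibG Γ Γ0 c)
    (j0 : Γ0 →ₐ[F] A) (pr0 : A →ₗ[F] Γ0) (lr : LR A1 D f j0 pr0),
    ∀ z : A, (∀ a, z * a = a * z) → ∃ b : A1, (∀ a, b * a = a * b) ∧ lr.fb.q b = z

/-- CNR: ranks of centres, special fibre.

Proof.  The centre of `A1` is a submodule of the finite free module `A1` over the principal ideal
domain `R`, so it has a finite basis `z_i`.  The images `fb.q z_i` are a basis of the centre of `A`: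
they span it (every central element lifts to a central element; `fb.q (r • x) = κ r • fb.q x`);
independent: `∑ κ (r_i) fb.q z_i = 0` gives `∑ r_i z_i = π a`, `π (a b - b a) = 0`, so `a` is central
(`A1` is free, `c.reg`), `a = ∑ s_i z_i`, `r_i = π s_i`, `κ r_i = 0`. -/
def CnrStmt : Prop :=
  ∀ (R F A A1 : Type) [CommRing R] [IsDomain R] [IsPrincipalIdealRing R] [Field F]
    (c : Cdv R F) [Ring A] [Algebra F A] [Ring A1] [Algebra R A1] [Module.Finite R A1]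
    [Module.Free R A1] (fb : FibG A1 A c),
    (∀ z : A, (∀ a, z * a = a * z) → ∃ b : A1, (∀ a, b * a = a * b) ∧ fb.q b = z) →
    Module.finrank F (Subalgebra.center F A) = Module.finrank R (Subalgebra.center R A1)

/-- CNK: ranks of centres, generic fibre.

Proof.  The centre is the kernel of the linear map `g : A1 → (ι → A1)`, `a ↦ (a e_i - e_i a)_i` for a
basis `e` of `A1`; the kernel of the base change of `g` is the base change of the kernel, since `K`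
is flat (torsion free over a principal ideal domain); `Module.finrank_baseChange`. -/
def CnkStmt : Prop :=
  ∀ (R K A1 : Type) [CommRing R] [IsDomain R] [IsPrincipalIdealRing R] [Field K] [Algebra R K]
    [FaithfulSMul R K] [Ring A1] [Algebra R A1] [Module.Finite R A1] [Module.Free R A1],
    Module.finrank K (Subalgebra.center K (K ⊗[R] A1)) =
      Module.finrank R (Subalgebra.center R A1)

end R

/-! ### base change to `K` -/

section base

/-- BFS: base change of a Frobenius system with a given form. -/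
def BfsStmt : Prop :=
  ∀ (R K A I : Type) [CommRing R] [Field K] [Algebra R K] [Ring A] [Algebra R A] [Fintype I]
    (c : FS R A I), ∃ c' : FS K (K ⊗[R] A) I, (∀ i, c'.b i = 1 ⊗ₜ c.b i) ∧
      (∀ i, c'.b' i = 1 ⊗ₜ c.b' i) ∧ (∀ k a, c'.lam (k ⊗ₜ a) = algebraMap R K (c.lam a) * k) ∧
      ((∀ x y, c.lam (x * y) = c.lam (y * x)) → ∀ x y, c'.lam (x * y) = c'.lam (y * x))

/-- BSP: base change of `Γ → A1` with a Higman operator up to the invertible scalar `m`: the form of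
`Γ` is `c.lam`, divide the operator by `m`. -/
def BspStmt : Prop :=
  ∀ (R K Γ A I : Type) [CommRing R] [Field K] [Algebra R K] [Ring Γ] [Algebra R Γ] [Ring A]
    [Algebra R A] [Fintype I] (c : FS R Γ I) (c' : FS K (K ⊗[R] Γ) I) (j : Γ →ₐ[R] A)
    (pr : A →ₗ[R] Γ) (a : A →ₗ[R] A) (m : R),
    (∀ i, c'.b i = 1 ⊗ₜ c.b i) → (∀ i, c'.b' i = 1 ⊗ₜ c.b' i) →
    (∀ γ, pr (j γ) = γ) → (∀ γ x, pr (j γ * x) = γ * pr x) → (∀ x γ, pr (x * j γ) = pr x * γ) →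
    (∀ x, ∑ s, ∑ t, j (c.b s) * a (j (c.b' s) * x * j (c.b t)) * j (c.b' t) =
      m • (x - j (pr x))) → algebraMap R K m ≠ 0 →
    ∃ sp : Split c' (K ⊗[R] A), (∀ k γ, sp.j (k ⊗ₜ γ) = k ⊗ₜ j γ) ∧
      ∀ k x, sp.pr (k ⊗ₜ x) = k ⊗ₜ pr x

/-- BRF: base change of a relative Frobenius system. -/
def BrfStmt : Prop :=
  ∀ (R K Γ A N : Type) [CommRing R] [Field K] [Algebra R K] [Ring Γ] [Algebra R Γ] [Ring A]
    [Algebra R A] [Fintype N] (j : Γ →ₐ[R] A) (pr : A →ₗ[R] Γ) (s : RF R Γ A N j pr)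
    (j' : K ⊗[R] Γ →ₐ[K] K ⊗[R] A) (pr' : K ⊗[R] A →ₗ[K] K ⊗[R] Γ),
    (∀ k γ, j' (k ⊗ₜ γ) = k ⊗ₜ j γ) → (∀ k x, pr' (k ⊗ₜ x) = k ⊗ₜ pr x) →
    ∃ s' : RF K (K ⊗[R] Γ) (K ⊗[R] A) N j' pr', (∀ k, s'.x k = 1 ⊗ₜ s.x k) ∧
      (∀ k, s'.y k = 1 ⊗ₜ s.y k) ∧ ∀ a, s'.rt (1 ⊗ₜ a) = 1 ⊗ₜ s.rt a

/-- BDV: base change of the derivation.

Proof.  `v' = LinearMap.baseChange K v`.  Nilpotent: let `Q` be the `K`-span of the elements `1 ⊗ y`,
`y ∈ P`; `v' b ∈ Q`.  `Q ^ N = span (S ^ N)` (`Submodule.span_pow`), `S ^ N` consists of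
products of `N` elements of `S` (`Set.mem_pow`), which are `1 ⊗ 0` by `P_nil`; so `(v' b) ^ N = 0`. -/
def BdvStmt : Prop :=
  ∀ (R K Γ : Type) [CommRing R] [Field K] [Algebra R K] [Ring Γ] [Algebra R Γ]
    (v : Γ →ₗ[R] Γ) (P : Submodule R Γ) (N : ℕ),
    (∀ a b, v (a * b) = v a * b + a * v b) → (∀ a, v a ∈ P) →
    (∀ y : ℕ → Γ, (∀ i, y i ∈ P) → ((List.range N).map y).prod = 0) →
    ∃ v' : K ⊗[R] Γ →ₗ[K] K ⊗[R] Γ, (∀ k a, v' (k ⊗ₜ a) = k ⊗ₜ v a) ∧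
      (∀ a b, v' (a * b) = v' a * b + a * v' b) ∧ ∀ b, IsNilpotent (v' b)

/-- KBC: the data over `K` (assembly).

Proof.  `c1`: the Frobenius system of `Γ` with the form `x ↦ D.lam (u x)`: `b = D.fs.b`,
`b' = u' * D.fs.b'` (`u`, `u'` central), symmetric.  `a1 x = lr.a (j u * x) * j u`; then
`∑ j(b_s) a1 (j (u' b'_s) x j(b_t)) j (u' b'_t) = ∑ j(b_s) a (j(b'_s) x j(b_t)) j(b'_t)` (`u`
central).  `d1`: index `N × (I × W)`, `b (k, s) = x_k j(b_s)`, `b' (k, s) = j (u' b'_s) y_k`, form `tA`: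
`∑ tA (j (u' b'_s) y_k a) • (x_k j(b_s)) = ∑_k x_k j (∑_s D.lam (u u' b'_s pr (y_k a)) • b_s) = a`
(`ort`, `pr_l`, `e1`), in the same way `h2`.  BFS for `c1`, `d1`; BSP with `m = |W|` (not `0` in `K`);
BRF; BDV; `tv`: `c.lam (1 ⊗ u' * x) = D.lam x` on `Γ`; images of units are units. -/
def KbcStmt : Prop :=
  ∀ (R F Γ Γ0 A A1 W I K : Type) [CommRing R] [Field F] (c : Cdv R F) [Ring Γ]
    [Algebra R Γ] [Ring Γ0] [Algebra F Γ0] [Ring A] [Algebra F A] [Ring A1] [Algebra R A1]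
    [CommGroup W] [Fintype W] [Fintype I] (D : WFS R Γ W I) (f : FibG Γ Γ0 c)
    (j0 : Γ0 →ₐ[F] A) (pr0 : A →ₗ[F] Γ0) (_ : LR A1 D f j0 pr0) [Field K] [CharZero K]
    [Algebra R K] (v : Γ →ₗ[R] Γ) (P : Submodule R Γ) (M wt : ℕ),
    (∀ a b, v (a * b) = v a * b + a * v b) → (∀ a, v a ∈ P) →
    (∀ y : ℕ → Γ, (∀ i, y i ∈ P) → ((List.range M).map y).prod = 0) →
    0 < wt → (∀ a, D.lam (v a) = (wt : R) * D.lam a) →
    ∃ (J N : Type) (_ : Fintype J) (_ : Fintype N),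
      Nonempty (KL K (K ⊗[R] Γ) (K ⊗[R] A1) (I × W) J N)

end base

/-! ### the level of `K` -/

section K

/-- CRS: `rt s - s` is a trace from `1` to `B`.

Proof.  `al y = ∑_i j(b_i) a (j(b'_i) y)` (`a = sp.a`).
(1) `x - j (pr x) = ∑_k al (e_k) j (pr (e'_k x))`: `a_id` says `x - j (pr x) = ∑_l al (x j(b_l)) j(b'_l)`,
`x j(b_l) = ∑_k d.lam (e'_k x j(b_l)) e_k`, `d.lam (e'_k x j(b_l)) = c.lam (pr (e'_k x) b_l)` (`ort`),
`∑_l c.lam (pr (e'_k x) b_l) b'_l = pr (e'_k x)` (`c.h2`).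
(2) `rt s = ∑ x_k s y_k`; put `x_k = j (pr x_k) + ∑_l al (e_l) j (pr (e'_l x_k))`; `s` commutes with
`j B` and `∑_k j (pr (a x_k)) y_k = a` (`e2`): `rt s = s + ∑_l al (e_l) s e'_l`.
(3) `∑_l al (e_l) s e'_l = ∑_(l,i) j(b_i) a (j(b'_i) e_l) s e'_l = ∑_i j(b_i) (∑_l a (e_l) s e'_l) j(b'_i)`
(Casimir identity of `d`: `∑_l (j(b'_i) e_l) ⊗ e'_l = ∑_l e_l ⊗ (e'_l j(b'_i))`). -/
def CrsStmt : Prop :=
  ∀ (K B A I J N : Type) [Field K] [Ring B] [Algebra K B] [Ring A] [Algebra K A] [Fintype I]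
    [Fintype J] [Fintype N] (D : KL K B A I J N) (s : A),
    (∀ b, D.sp.j b * s = s * D.sp.j b) →
    ∃ t : A, D.s.rt s = s + D.TB t

/-- TTR: transitivity of the trace, and the rules of `TB`.

Proof.  The families `x_k j(b_i)`, `j(b'_i) y_k` are dual for `d.lam`:
`∑ d.lam (j(b'_i) y_k x) x_k j(b_i) = ∑_k x_k j (∑_i c.lam (b'_i pr (y_k x)) b_i) = ∑_k x_k j (pr (y_k x)) = x`.
So `∑_p e_p a e'_p = ∑_p ∑_(k,i) d.lam (j(b'_i) y_k e_p) x_k j(b_i) a e'_p = ∑_(k,i) x_k j(b_i) a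
(∑_p d.lam (j(b'_i) y_k e_p) e'_p) = ∑ x_k j(b_i) a j(b'_i) y_k`.
`TB a` commutes with `j B`: Casimir identity of `c`. -/
def TtrStmt : Prop :=
  ∀ (K B A I J N : Type) [Field K] [Ring B] [Algebra K B] [Ring A] [Algebra K A] [Fintype I]
    [Fintype J] [Fintype N] (D : KL K B A I J N),
    (∀ a, D.s.rt (D.TB a) = D.TA a) ∧ (∀ a b, D.sp.j b * D.TB a = D.TB a * D.sp.j b) ∧
    (∀ a z, (∀ b, D.sp.j b * z = z * D.sp.j b) → z * D.TB a = D.TB (z * a) ∧
      D.TB a * z = D.TB (a * z)) ∧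
    (∀ a z, (∀ b, b * z = z * b) → z * D.TA a = D.TA (z * a)) ∧
    (∀ a z, z * D.TA a = D.TA a * z)

/-- HSV: the Hattori-Stallings trace has form `0`.

Proof.  `f k l = pr (y_k e x_l)`: `f f = f` by `pr_r`, `e1`, `e e = e`.  With `v f` the matrix of the
`v (f k l)`: `v f = (v f) f + f (v f)`, so `f (v f) f = 0`.  `t b = c.lam (u' b)` is symmetric (`u'` is
central), `t (v b) = wt * t b`.
`wt * t (∑ f k k) = ∑ t (v (f k k)) = ∑_(k,m) t (v(f k m) f m k) + t (f k m v(f m k)) =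
2 ∑_(k,m) t (v(f k m) f m k) = 2 ∑_(k,m,l) t (v(f k m) f m l f l k) = 2 ∑_l t ((f (v f) f) l l) = 0`.
`K` has characteristic `0`, `wt > 0`. -/
def HsvStmt : Prop :=
  ∀ (K B A I J N : Type) [Field K] [CharZero K] [Ring B] [Algebra K B] [Ring A] [Algebra K A]
    [Fintype I] [Fintype J] [Fintype N] (D : KL K B A I J N) (e : A), e * e = e →
    D.d.lam (D.s.rt (D.sp.j D.u') * e) = 0

/-- TFS: the trace of a linear map by a Frobenius system.

Proof.  `T a = ∑_p d.lam (b'_p a) • T (b_p)`, a sum of maps of rank one. -/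
def TfsStmt : Prop :=
  ∀ (K A J : Type) [Field K] [Ring A] [Algebra K A] [Module.Finite K A] [Fintype J]
    (d : FS K A J) (T : A →ₗ[K] A), LinearMap.trace K A T = ∑ p, d.lam (d.b' p * T (d.b p))

/-- IDM: idempotents of a commutative algebra.

Proof.  There is an algebra homomorphism `χ : Z → K` with `χ x ≠ 0` (a maximal ideal which does not
contain `x`; `x` is not in the nilradical = Jacobson radical; `K` algebraically closed).  The
indicator of `χ` in `Z / nil = K^r` lifts to an idempotent `e`; `e z - χ z e` is nilpotent for all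
`z`; for `z = x`: `e x = χ x e + n`, so `e x` has an inverse `y` in `e Z`, `e = x y`. -/
def IdmStmt : Prop :=
  ∀ (K Z : Type) [Field K] [IsAlgClosed K] [CommRing Z] [Algebra K Z] [Module.Finite K Z]
    (x : Z), ¬ IsNilpotent x → ∃ e y : Z, e * e = e ∧ e ≠ 0 ∧ e = x * y ∧
      ∀ z : Z, ∃ k : K, IsNilpotent (e * z - k • e)

/-- ZPN: central elements which are traces from `1` are nilpotent.

Proof.  Suppose not.  IDM for the centre and `x = TA a`: `e = x y = TA (a y)`, put `b = a y`.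
(1) If `ν` is central and nilpotent with `ν e = ν` then `ν = 0`: for all `s`
`d.lam (ν s) = ∑_p d.lam (ν e_p b e'_p s) = ∑_p d.lam (e'_p (ν b e_p s))` (`∑ e_p ⊗ e'_p =
∑ e'_p ⊗ e_p`: `e_p = ∑_r d.lam (e_p e_r) e'_r`, symmetric; and `d.lam` symmetric) is the trace of
`a ↦ ν b a s` (TFS), which is nilpotent (`ν` central), so `0`; `d.lam` is nondegenerate (`d.h2`).
(2) So `e z = k e` for all central `z`.
(3) `c_A = ∑ e_p e'_p` is central; trace of `a ↦ e a` is `∑ d.lam (e'_p e e_p) = d.lam (e c_A) =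
k d.lam e`, and it is the dimension of `e A`, not `0` in `K`; so `d.lam e ≠ 0`.
(4) `y0 = rt (j u')` is central and a unit, `e y0 = k e`, `k ≠ 0`, and `d.lam (y0 e) = 0` (HSV), so
`d.lam e = 0`. -/
def ZpnStmt : Prop :=
  ∀ (K B A I J N : Type) [Field K] [CharZero K] [IsAlgClosed K] [Ring B] [Algebra K B]
    [Module.Finite K B] [Ring A] [Algebra K A] [Module.Finite K A]
    [Fintype I] [Fintype J] [Fintype N] (D : KL K B A I J N) (a : A), IsNilpotent (D.TA a)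

/-- ZET: the divergence.

Proof.  `De = u' * v u - wt`.  `u'` is central, `v u` is central (apply `v` to `u b = b u`), `v u` is
nilpotent (`nil`), so `ν = u' * v u` is central and nilpotent.  `c.lam (v a) = - c.lam (a * De)`:
`tv` for `b = u a`: `c.lam (u' v(u) a) + c.lam (u' u v a) = wt c.lam (a)`.
`ζ = rt (j De) + wt`: `rt (j De) = j De + TB t` (CRS), so `ζ = j ν + TB t`.  By induction
`ζ ^ m = j ν ^ m + TB t_m` (TTR), so `ζ ^ M = TB t'` for some `M`; `ζ` is central (`RtcStmt`).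
`ζ ^ M * rt 1 = rt (ζ ^ M) = rt (TB t') = TA t'` (RTC, TTR), with `i` the inverse of the central unit
`rt 1`: `ζ ^ M = TA (i t')`, nilpotent by ZPN. -/
def ZetStmt : Prop :=
  ∀ (K B A I J N : Type) [Field K] [CharZero K] [IsAlgClosed K] [Ring B] [Algebra K B]
    [Module.Finite K B] [Ring A] [Algebra K A] [Module.Finite K A]
    [Fintype I] [Fintype J] [Fintype N] (D : KL K B A I J N),
    ∃ (De ν : B), De = ν - algebraMap K B (D.wt : K) ∧ IsNilpotent ν ∧ (∀ b, ν * b = b * ν) ∧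
      (∀ a, D.c.lam (D.v a) = - D.c.lam (a * De)) ∧
      IsNilpotent (D.s.rt (D.sp.j De) + algebraMap K A (D.wt : K))

/-- KLT: equality of the dimensions of the centres.

Proof.  ZET and `FotStmt` for `v`, `De`: the trace of `rt (j De) = ζ - wt` on the centre of `A`
is `- wt * dim Z(A)` (`ζ` central and nilpotent, the trace of a nilpotent map is `0`), the trace of
`De = ν - wt` on the centre of `B` is `- wt * dim Z(B)`. -/
def KltStmt : Prop :=
  ∀ (K B A I J N : Type) [Field K] [CharZero K] [IsAlgClosed K] [Ring B] [Algebra K B]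
    [Module.Finite K B] [Ring A] [Algebra K A] [Module.Finite K A]
    [Fintype I] [Fintype J] [Fintype N] (_ : KL K B A I J N),
    Module.finrank K (Subalgebra.center K A) = Module.finrank K (Subalgebra.center K B)

end K

/-- MEQ: TOP of D2b and D4.

Proof.  LAT: `I`, `D`, `A1`, `la`.  LRX for `mu = tx.mu`, `x`, `y` of `tx`: `lr`.  ZON.  `K` = algebraic closure of
the fraction field of `R` (characteristic `0`).  KBC with `v`, `P` of `bo`; KLT.  CNR, CNK for `A1`,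
`lr.fb` (with ZON) and for `Γ`, `bo.fb` (with `bo.ctr`). -/
def MeqStmt : Prop :=
  ∀ (R F V E A Γ : Type) [CommRing R] [Field F] [CommGroup V] [Fintype V] [Group E] [Fintype E]
    [Ring A] [Algebra F A] (ℓ : ℕ) (c : Cdv R F) (o : Og ℓ c) (φ : E →* MulAut V)
    (W : Subgroup V) (z : Coc F E) [Ring Γ] [Algebra R Γ] [Module.Finite R Γ]
    [Module.Free R Γ] (_ : BO Γ o φ W z) (_ : D6.TX A φ W z), (∀ e, ∀ w ∈ W, φ e w ∈ W) →
    Module.finrank F (Subalgebra.center F A) =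
      Module.finrank F (Subalgebra.center F (CP (D0 φ z)))

end Pool.Agent.PFD.D4
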