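import Pool.Agent.PFD.DefsD2

/-!
Squad PFD, part D2b (helper36): the liftable bimodule attached to a subgroup `W`.

`WFS`: a symmetric algebra `Γ` over `R` with a group homomorphism `om : W → Γ` and relative dual
families `cf`, `cf'` over `W` (the families `cf i * om w`, `om w⁻¹ * cf' i` are dual).
`IsX D Ω BX`: `BX` is the bimodule structure of `Γ ⊗_(R W) (R Ω ⊗ Γ)` on the functions
`I × Ω → Γ` (the function `f` is the element `∑ cf i ⊗ ω ⊗ f (i, ω)`).
-/

open scoped BigOperators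

noncomputable section

namespace Pool.Agent.PFD.D2b

open MulOpposite
open Pool.Agent.PFC.B1 (BiM FS)
open Pool.Agent.PFD.D2

section frames

variable {R G N T : Type} [CommRing R] [Group G] [AddCommGroup N] [Module R N]

/-- a permutation frame over a commutative ring -/
def FrR (ρ : G →* (N →ₗ[R] N)) [Fintype T] [MulAction G T] (b : T → N)
    (c : T → (N →ₗ[R] R)) : Prop :=
  (∀ g t, b (g • t) = ρ g (b t)) ∧ (∀ g t n, c (g • t) (ρ g n) = c t n) ∧
  ∀ n, ∑ t, c t n • b t = n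

/-- vectors which are fixed modulo `p` by a subgroup lift to fixed vectors -/
def FPl (p : R) (ρ : G →* (N →ₗ[R] N)) : Prop :=
  ∀ (S : Subgroup G) (n : N), (∀ s ∈ S, ∃ x, ρ s n - n = p • x) →
    ∃ m, (∀ s ∈ S, ρ s m = m) ∧ ∃ x, m - n = p • x

end frames

/-- a symmetric algebra with relative dual families over the group `W` -/
structure WFS (R Γ W I : Type) [CommRing R] [Ring Γ] [Algebra R Γ] [CommGroup W] [Fintype W]
    [Fintype I] where
  lam : Γ →ₗ[R] R
  sym : ∀ x y, lam (x * y) = lam (y * x)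
  om : W →* Γ
  cf : I → Γ
  cf' : I → Γ
  h1 : ∀ x, ∑ i, ∑ w, lam (om w⁻¹ * cf' i * x) • (cf i * om w) = x
  h2 : ∀ x, ∑ i, ∑ w, lam (x * (cf i * om w)) • (om w⁻¹ * cf' i) = x
  d1 : ∀ i w, lam (om w⁻¹ * cf' i * (cf i * om w)) = 1
  d0 : ∀ i j u w, (i ≠ j ∨ u ≠ w) → lam (om u⁻¹ * cf' i * (cf j * om w)) = 0
  ph : I → W →* W
  phb : ∀ i, Function.Bijective (ph i)
  nrm : ∀ i w, om w * cf i = cf i * om (ph i w)

section

variable {R Γ W I N : Type} [CommRing R] [Ring Γ] [Algebra R Γ] [CommGroup W] [Fintype W]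
  [Fintype I] [AddCommGroup N] [Module R N]

/-- the Frobenius system of a `WFS` -/
def WFS.fs (D : WFS R Γ W I) : FS R Γ (I × W) where
  lam := D.lam
  b := fun t => D.cf t.1 * D.om t.2
  b' := fun t => D.om t.2⁻¹ * D.cf' t.1
  h1 := fun x => by
    rw [Fintype.sum_prod_type]
    exact D.h1 x
  h2 := fun x => by
    rw [Fintype.sum_prod_type]
    exact D.h2 x

/-- the action of `W × W` on a bimodule, `(u, v) n = om u n om v⁻¹` -/
def wrp (om : W →* Γ) (B : BiM R Γ N) : W × W →* (N →ₗ[R] N) where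
  toFun := fun w => (B.lm (om w.1)) ∘ₗ (B.rm (op (om w.2⁻¹)))
  map_one' := by
    ext n
    simp
  map_mul' := fun u v => by
    ext n
    show B.lm (om (u.1 * v.1)) (B.rm (op (om (u.2 * v.2)⁻¹)) n) =
      B.lm (om u.1) (B.rm (op (om u.2⁻¹)) (B.lm (om v.1) (B.rm (op (om v.2⁻¹)) n)))
    rw [map_mul, map_mul, mul_inv_rev, map_mul, op_mul, map_mul, Module.End.mul_apply,
      Module.End.mul_apply, B.comm]

/-- the bimodule `Γ ⊗_(R W) (R Ω ⊗ Γ)`, on the functions `I × Ω → Γ` -/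
def IsX (D : WFS R Γ W I) (Ω : Type) [MulAction W Ω] (BX : BiM R Γ (I × Ω → Γ)) : Prop :=
  (∀ γ f j ω, BX.lm γ f (j, ω) =
    ∑ i, ∑ w, D.lam (D.om w⁻¹ * D.cf' j * γ * D.cf i) • (D.om w * f (i, w⁻¹ • ω))) ∧
  ∀ γ f x, BX.rm (op γ) f x = f x * γ

/-- equivariant maps from `Ω` to a bimodule (conjugation action) -/
def EqM (om : W →* Γ) {Ω : Type} [MulAction W Ω] (B : BiM R Γ N) (m : Ω → N) : Prop :=
  ∀ w ω, m (w • ω) = B.lm (om w) (B.rm (op (om w⁻¹)) (m ω))

end

end Pool.Agent.PFD.D2b
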