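import Pool.Agent.PFD.DefsD3
import Pool.Agent.PFD.StmtsD2
import Pool.Agent.PFC.StmtsB3

/-!
# Squad PFD, block D3 (helper18): statements

The order `B1` over a complete discrete valuation ring `R` of characteristic `0` which lifts the
twisted group algebra `F_c[V : E]`, `V = Va × W`, `E` free on `Va - 1`: `S = R1 [W]`, `R1` a graded lift of
`F Va`, `B1 = CP D1`, `D1` the crossed product datum of `E` and `S`.

Rows (namespace `Pool.Agent.PFD.D3`): WIT REP COO PAC REL GBJ GBS QUA RHO ACR EUD EPN GRM FTS TSR SGM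
GLX RSU ACW FBW TSW DVW NLW ANW SOX CPB CPF CPT CPE CPN CPZ BOX.
-/

open scoped BigOperators

noncomputable section

namespace Pool.Agent.PFD.D3

open MvPolynomial

/-! ### Part 1: the base, lifting of representations -/

/-- WIT: the Witt vectors are a base.  (`PFD/Witt.lean` (helper51) has the `Cdv`;
`π = ℓ`, `κ = WittVector.constantCoeff`; Mathlib:
`WittVector.isDiscreteValuationRing`, `ker_constantCoeff`, `eq_zero_of_p_mul_eq_zero`,
`isUnit_of_coeff_zero_ne_zero`, `isAdicCompleteIdealSpanP` (precomplete: the partial sums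
`∑ i < n, ℓ ^ i * u i`), `WittVector.teichmuller`; characteristic `0`: a domain in which `ℓ ≠ 0`, and
the primes other than `ℓ` are not zero in `F`.) -/
def WitStmt : Prop :=
  ∀ (ℓ : ℕ) [Fact ℓ.Prime] (F : Type) [Field F] [IsAlgClosed F] [CharP F ℓ],
    ∃ c : D2.Cdv (WittVector ℓ F) F, Nonempty (Og ℓ c)

/-- REP: homomorphisms of an `ℓ'`-group to the residue algebra lift.

Proof.  `D2.SugStmt` for the module `E → M` and the condition `P n T : ∀ g h, T g * T h - T (g h)` is in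
`π ^ n M` (`P 1 T` for any lift `T` of `ρ0`).  Step: `T g * T h - T (g h) = π ^ n a(g,h)` with
`T g a(h,k) - a(gh,k) + a(g,hk) - a(g,h) T k` in `π M` (associativity, `π` regular on `M`).
`S g = - |E|⁻¹ ∑ k, a(g,k) T (k⁻¹)`: multiply the identity by `T (k⁻¹)` from the right and sum over
`k`: `|E| a(g,h) = T g b(h) - b(gh) + b(g) T h` modulo `π`, `b = ∑ a(.,k) T (k⁻¹)`
(`∑ k, a(g,hk) T (k⁻¹) = ∑ m, a(g,m) T (m⁻¹ h) = b(g) T h` modulo `π`); so `T + π ^ n S` satisfies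
`P (n+1)`.  The limit is multiplicative (`c.sep` for the coordinates of a basis of `M`); `T 1` is an
idempotent and `1` modulo `π`, so the left multiplication with it is bijective (`D2.UngStmt`) and
`T 1 = 1`. -/
def RepStmt : Prop :=
  ∀ (R F M M0 E : Type) [CommRing R] [Field F] (c : D2.Cdv R F) [Ring M] [Algebra R M]
    [Module.Finite R M] [Module.Free R M] [Ring M0] [Algebra F M0] (f : D2.FibG M M0 c)
    [Group E] [Fintype E] (ρ0 : E →* M0), (Fintype.card E : F) ≠ 0 →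
    ∃ ρ : E →* M, ∀ e, f.q (ρ e) = ρ0 e

/-! ### Part 2: coordinates of the group algebra of `V` -/

/-- COO: coordinates exist.

Proof.  As `B3.EigStmt` (row EIG), with blocks instead of eigenvectors.  Let `V ^ (ℓ ^ m) = 1`.
For `1 ≤ a ≤ m` the subspaces `Ia a` and `Ia a ⊓ Ua (a-1)` (`DefsB3`) are `E`-stable; averaging
(`B3.AvgStmt` with `I` empty) gives an `E`-stable complement `C a` of `Ia a ⊓ Ua (a-1)` in `Ia a`; so
`Ua a = C a ⊔ Ua (a-1)` and `C a ⊓ Ua (a-1) = ⊥`, `dim C a = dim Ua a - dim Ua (a-1)`.  Blocks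
`B = Fin m`, exponents `a b = b + 1`, `J b = Fin (dim C (b+1))`, `x ⟨b, _⟩` = a basis of `C (b+1)`,
`D b` = matrices of `E` on it.  `x ^ ℓ ^ a = 0` on `Ia a`.  `Au = Ua m` is spanned by the `x i` and
`Au2`; `B3.NkyStmt`: the reduced monomials span `F V`; their number is
`ℓ ^ ∑ a (dim Ua a - dim Ua (a-1)) = ∏ (a < m) ℓ ^ (dim Au - dim Ua a) ≤ |V|` by `B3.SpnStmt` and
`B3.CntStmt`, so they are a basis.  If `V` is nontrivial then `I` is nonempty (dimension of
`F V`). -/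
def CooStmt : Prop :=
  ∀ (ℓ : ℕ) [Fact ℓ.Prime] (F V E : Type) [Field F] [CharP F ℓ] [CommGroup V]
    [Finite V] [Group E] [Fintype E] (φ : E →* MulAut V), IsPGroup ℓ V → Nontrivial V →
    (Fintype.card E : F) ≠ 0 →
    ∃ (B : Type) (_ : Fintype B) (J : B → Type) (_ : ∀ b, Fintype (J b))
      (_ : ∀ b, DecidableEq (J b)), Nonempty (Σ b, J b) ∧ Nonempty (Crd ℓ F V E B φ J)

/-! ### Part 3: graded polynomials over `R` -/

/-- PAC: the action on polynomials: multiplicative, preserves degrees, and compatible with `map`. -/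
def PacStmt : Prop :=
  ∀ (R E B : Type) [CommRing R] [Group E] (J : B → Type) [∀ b, Fintype (J b)]
    [∀ b, DecidableEq (J b)] (D : ∀ b, E →* Matrix (J b) (J b) R),
    (∀ p, Lb D 1 p = p) ∧ (∀ e g p, Lb D (e * g) p = Lb D e (Lb D g p)) ∧
    (∀ e b j, Lb D e (X ⟨b, j⟩) = ∑ k, C (D b e k j) * X ⟨b, k⟩) ∧
    ∀ e (p : MvPolynomial (Σ b, J b) R) d, p.IsHomogeneous d → (Lb D e p).IsHomogeneous d

/-- REL: the relations.  `D'` is the action on the relations, a lift of the twist of `D` with the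
`ℓ ^ a b`-th power.

Proof.  `f ⟨b, j⟩ = ∑ h, ∑ k, C (m * D' b h⁻¹ k j) * (Lb D h (X ⟨b, k⟩)) ^ ℓ ^ a b`, `m = |E|⁻¹` in `R`
(`c.loc`).  Homogeneous of degree `ℓ ^ a b`.  `Lb D g (f ⟨b, j⟩) = ∑ k, C (D' b g k j) * f ⟨b, k⟩`
(substitute `h ↦ g⁻¹ h`, `D' (h⁻¹ g) = D' h⁻¹ * D' g`).  Modulo `π`:
`(Lb D h (X ⟨b, k⟩)) ^ q = (∑ i, D h i k * X i) ^ q = ∑ i, (D h i k) ^ q * X i ^ q = ∑ i, D' h i k * X i ^ q`
(`add_pow_char_pow`), so `f ⟨b, j⟩ = |E|⁻¹ ∑ h, ∑ i, (D' h * D' h⁻¹) i j * X i ^ q = X ⟨b, j⟩ ^ q`. -/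
def RelStmt : Prop :=
  ∀ (ℓ : ℕ) [Fact ℓ.Prime] (R F E B : Type) [CommRing R] [Field F] [CharP F ℓ] [Group E]
    [Fintype E] (c : D2.Cdv R F) (J : B → Type) [∀ b, Fintype (J b)]
    [∀ b, DecidableEq (J b)] (a : B → ℕ) (D D' : ∀ b, E →* Matrix (J b) (J b) R),
    (Fintype.card E : F) ≠ 0 →
    (∀ b e k j, c.κ (D' b e k j) = c.κ (D b e k j) ^ ℓ ^ a b) →
    ∃ f : (Σ b, J b) → MvPolynomial (Σ b, J b) R,
      (∀ i, (f i).IsHomogeneous (ℓ ^ a i.1)) ∧
      (∀ i, MvPolynomial.map c.κ (f i) = X i ^ ℓ ^ a i.1) ∧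
      ∀ e b j, Lb D e (f ⟨b, j⟩) = ∑ k, C (D' b e k j) * f ⟨b, k⟩

/-- GBJ: a graded linear map which is the identity modulo `π` is bijective.  (It preserves the
homogeneous submodules, which are finitely generated: `D2.UngStmt` for each of them; the
polynomials are the direct sum of them.) -/
def GbjStmt : Prop :=
  ∀ (R F I : Type) [CommRing R] [Field F] [Fintype I] (c : D2.Cdv R F)
    (T : MvPolynomial I R →ₗ[R] MvPolynomial I R),
    (∀ γ : I →₀ ℕ, (T (monomial γ 1)).IsHomogeneous γ.degree) →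
    (∀ γ : I →₀ ℕ, ∃ p : MvPolynomial I R, T (monomial γ 1) - monomial γ 1 = c.π • p) →
    Function.Bijective T

/-- GBS: the reduced monomials are a basis of the quotient, and the quotient is graded.

Proof.  As `B3.BasStmt`: `T (monomial γ 1) = ∏ i, f i ^ (γ i / q i) * X i ^ (γ i % q i)`, homogeneous of
degree `∑ γ i`, and equal to `monomial γ 1` modulo `π` (`MvPolynomial.map κ`; a polynomial with
`map κ p = 0` is divisible by `π`); GBJ.  `f i * T (monomial γ 1) = T (monomial (γ + q i • e_i) 1)`, so the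
ideal is the image under `T` of the span of the `monomial γ 1` with `q i ≤ γ i` for some `i`, and `T` is
the identity on the reduced monomials.  The last part: `p` homogeneous of degree `d` is `T z` with
`z` homogeneous of degree `d` (`T` preserves degrees and is bijective). -/
def GbsStmt : Prop :=
  ∀ (R F I : Type) [CommRing R] [Field F] [Fintype I] (c : D2.Cdv R F) (q : I → ℕ)
    (f : I → MvPolynomial I R), (∀ i, 0 < q i) → (∀ i, (f i).IsHomogeneous (q i)) →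
    (∀ i, MvPolynomial.map c.κ (f i) = X i ^ q i) →
    ∃ b : Module.Basis (∀ i, Fin (q i)) R (MvPolynomial I R ⧸ Ideal.span (Set.range f)),
      (∀ α, b α = Ideal.Quotient.mk _ (PFC.B3.mo R I α)) ∧
      ∀ d (p : MvPolynomial I R), p.IsHomogeneous d → ∀ α : (∀ i, Fin (q i)),
        (∑ i, (α i : ℕ)) ≠ d → b.repr (Ideal.Quotient.mk _ p) α = 0

/-- The quotient `R1` with its degrees: `pm` is onto with kernel generated by the `f i`, basis of
reduced monomials. -/
structure Qua (R F E B : Type) [CommRing R] [Field F] [Group E] (c : D2.Cdv R F) (ℓ : ℕ)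
    (a : B → ℕ) (J : B → Type) [∀ b, Fintype (J b)] [Fintype B] [∀ b, DecidableEq (J b)]
    (D : ∀ b, E →* Matrix (J b) (J b) R) (R1 : Type) [CommRing R1] [Algebra R R1] where
  pm : MvPolynomial (Σ b, J b) R →ₐ[R] R1
  sur : Function.Surjective pm
  f : (Σ b, J b) → MvPolynomial (Σ b, J b) R
  fh : ∀ i, (f i).IsHomogeneous (ℓ ^ a i.1)
  fm : ∀ i, MvPolynomial.map c.κ (f i) = X i ^ ℓ ^ a i.1
  fe : ∀ e i, Lb D e (f i) ∈ Ideal.span (Set.range f)
  ker : ∀ p, pm p = 0 ↔ p ∈ Ideal.span (Set.range f)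
  b : Module.Basis (∀ i : Σ b, J b, Fin (ℓ ^ a i.1)) R R1
  b_eq : ∀ α, b α = pm (PFC.B3.mo R (Σ b, J b) α)
  b_deg : ∀ d (p : MvPolynomial (Σ b, J b) R), p.IsHomogeneous d →
    ∀ α : (∀ i : Σ b, J b, Fin (ℓ ^ a i.1)), (∑ i, (α i : ℕ)) ≠ d → b.repr (pm p) α = 0

/-- QUA: the quotient exists, for a given representation `D0` over `F`.  (REP for the matrix algebras
and `D0`, and for the twist `e ↦ (D0 e k j) ^ ℓ ^ a b`; REL, GBS.) -/
def QuaStmt : Prop :=
  ∀ (ℓ : ℕ) [Fact ℓ.Prime] (R F E B : Type) [CommRing R] [Field F] [CharP F ℓ] [Group E]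
    [Fintype E] (c : D2.Cdv R F) (J : B → Type) [Fintype B] [∀ b, Fintype (J b)]
    [∀ b, DecidableEq (J b)] (a : B → ℕ) (D0 : ∀ b, E →* Matrix (J b) (J b) F),
    (Fintype.card E : F) ≠ 0 →
    ∃ (D : ∀ b, E →* Matrix (J b) (J b) R) (R1 : Type) (_ : CommRing R1) (_ : Algebra R R1),
      (∀ b e k j, c.κ (D b e k j) = D0 b e k j) ∧ Nonempty (Qua R F E B c ℓ a J D R1)

/-- RHO: the reduction `pm p ↦ p(x)` (`MvPolynomial.eval₂Hom` with `κ` and `x`): the `f i` go to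
`x i ^ ℓ ^ a = 0`; the basis goes to the basis, so the kernel is `π R1`. -/
def RhoStmt : Prop :=
  ∀ (ℓ : ℕ) [Fact ℓ.Prime] (R F V E B R1 : Type) [CommRing R] [Field F] [CharP F ℓ]
    [CommGroup V] [Group E] [Fintype B] (c : D2.Cdv R F) (φ : E →* MulAut V) (J : B → Type)
    [∀ b, Fintype (J b)] [∀ b, DecidableEq (J b)] (Z : Crd ℓ F V E B φ J)
    (D : ∀ b, E →* Matrix (J b) (J b) R) [CommRing R1] [Algebra R R1]
    (q : Qua R F E B c ℓ Z.a J D R1),
    ∃ rho : D2.FibG R1 (MonoidAlgebra F V) c, (∀ i, rho.q (q.pm (X i)) = Z.x i) ∧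
      ∀ α, rho.q (q.b α) = Z.bs α

/-- ACR: the action on `R1` (PAC, `fe`), compatible with the reduction. -/
def AcrStmt : Prop :=
  ∀ (ℓ : ℕ) [Fact ℓ.Prime] (R F V E B R1 : Type) [CommRing R] [Field F] [CharP F ℓ]
    [CommGroup V] [Group E] [Fintype B] (c : D2.Cdv R F) (φ : E →* MulAut V) (J : B → Type)
    [∀ b, Fintype (J b)] [∀ b, DecidableEq (J b)] (Z : Crd ℓ F V E B φ J)
    (D : ∀ b, E →* Matrix (J b) (J b) R) [CommRing R1] [Algebra R R1]
    (q : Qua R F E B c ℓ Z.a J D R1), (∀ b e k j, c.κ (D b e k j) = Z.D b e k j) →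
    ∃ act : E →* (R1 ≃ₐ[R] R1), (∀ e p, act e (q.pm p) = q.pm (Lb D e p)) ∧
      ∀ rho : D2.FibG R1 (MonoidAlgebra F V) c, (∀ i, rho.q (q.pm (X i)) = Z.x i) →
        ∀ e x, rho.q (act e x) = acV F φ e (rho.q x)

/-- EUD: the Euler derivation.  (`v (b α) = |α| b α`; by `b_deg` `v (pm p) = d pm p` for `p` homogeneous
of degree `d`; the homogeneous polynomials span, so `v` is a derivation; PAC: `Lb` preserves
degrees.) -/
def EudStmt : Prop :=
  ∀ (ℓ : ℕ) [Fact ℓ.Prime] (R F E B R1 : Type) [CommRing R] [Field F] [Group E] [Fintype B]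
    (c : D2.Cdv R F) (J : B → Type) [∀ b, Fintype (J b)] [∀ b, DecidableEq (J b)] (a : B → ℕ)
    (D : ∀ b, E →* Matrix (J b) (J b) R) [CommRing R1] [Algebra R R1]
    (q : Qua R F E B c ℓ a J D R1),
    ∃ v : R1 →ₗ[R] R1, (∀ d (p : MvPolynomial (Σ b, J b) R), p.IsHomogeneous d →
        v (q.pm p) = (d : R) • q.pm p) ∧
      (∀ x y, v (x * y) = v x * y + x * v y) ∧
      ∀ act : E →* (R1 ≃ₐ[R] R1), (∀ e p, act e (q.pm p) = q.pm (Lb D e p)) →
        ∀ e x, v (act e x) = act e (v x)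

/-- EPN: the augmentation and its nilpotent kernel.  (`eps (pm p)` = constant coefficient of `p`: the
`f i` are homogeneous of degree `ℓ ^ a > 0`.  `eps (pm p) = 0` implies that `pm p = pm p'` with
`p'` without constant term; a product of `N` such polynomials has only components of degree
`≥ N`, so it goes to `0` if `N` is greater than the sum of the `ℓ ^ a i - 1` (`b_deg`).) -/
def EpnStmt : Prop :=
  ∀ (ℓ : ℕ) [Fact ℓ.Prime] (R F E B R1 : Type) [CommRing R] [Field F] [Group E] [Fintype B]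
    (c : D2.Cdv R F) (J : B → Type) [∀ b, Fintype (J b)] [∀ b, DecidableEq (J b)] (a : B → ℕ)
    (D : ∀ b, E →* Matrix (J b) (J b) R) [CommRing R1] [Algebra R R1]
    (q : Qua R F E B c ℓ a J D R1), (∀ b, 1 ≤ a b) →
    ∃ (eps : R1 →ₐ[R] R) (N : ℕ), (∀ p, eps (q.pm p) = MvPolynomial.constantCoeff p) ∧
      (∀ y : Fin N → R1, (∀ i, eps (y i) = 0) → ∏ i, y i = 0) ∧
      (∀ act : E →* (R1 ≃ₐ[R] R1), (∀ e p, act e (q.pm p) = q.pm (Lb D e p)) →
        ∀ e x, eps (act e x) = eps x) ∧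
      ∀ v : R1 →ₗ[R] R1, (∀ d (p : MvPolynomial (Σ b, J b) R), p.IsHomogeneous d →
        v (q.pm p) = (d : R) • q.pm p) → ∀ x, eps (v x) = 0

/-- GRM: a symmetric bilinear form on a free module whose reduction is unimodular has dual bases.
(The Gram matrix `G` is invertible over `R`: `κ (det G) ≠ 0` and `c.loc`; `y' = G⁻¹ y`.) -/
def GrmStmt : Prop :=
  ∀ (R F A K : Type) [CommRing R] [Field F] (c : D2.Cdv R F) [CommRing A] [Algebra R A]
    [Fintype K] [DecidableEq K] (b : Module.Basis K R A) (t : A →ₗ[R] R) (p : K → K),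
    Function.Bijective p →
    (∀ i j, c.κ (t (b i * b j)) = if j = p i then 1 else 0) →
    ∃ y' : K → A, (∀ a, ∑ j, t (y' j * a) • b j = a) ∧
      ∀ i j, t (y' i * b j) = if i = j then 1 else 0

/-- FTS: the socle of `F V`: an element killed by the `u - 1` is a multiple of the sum of the elements
of `V`; so it is fixed by `E`, and if `F V` is not killed by a form `s` with `s z = 1` then it is
nonzero. -/
def FtsStmt : Prop :=
  ∀ (F V E : Type) [Field F] [CommGroup V] [Fintype V] [Group E] (φ : E →* MulAut V)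
    (z : MonoidAlgebra F V), (∀ u, MonoidAlgebra.of F V u * z = z) →
    (∃ r : F, z = r • ∑ u : V, MonoidAlgebra.of F V u) ∧ ∀ e, acV F φ e z = z

/-- TSR: the invariant form on `R1`.

Proof.  `t0` = coordinate of the monomial `top` with all exponents `ℓ ^ a i - 1`; `w` = its degree;
`t = |E|⁻¹ ∑ e, t0 ∘ act e`.  `t (pm p) = 0` for `p` homogeneous of degree `≠ w` (`b_deg`, PAC), so
`t (v x) = w t x`.  `E`-invariant.  `κ (t x) = s (rho x)`, `s = |E|⁻¹ ∑ e, s0 ∘ e` with `s0` the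
coordinate of `top` in `F V`; `s0 ∘ e = s0`: for a polynomial of degree `≠ w` both are `0`; in degree `w`
the reduced monomials other than `top` do not exist, and `z = rho (b top)` is killed by all `x i`
(`x i ^ ℓ ^ a = 0`), so by the `u - 1` (the augmentation ideal is spanned by the reduced monomials
`≠ 1`: they are nilpotent), FTS: `e z = z`.  So `κ (t (b α * b β)) = s0 (bs α * bs β)` is `1` if
`β i = ℓ ^ a i - 1 - α i` for all `i` and `0` otherwise (if the degrees add up to `w` but `β` is not the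
complement then some exponent is `≥ ℓ ^ a i` and the product is `0`); GRM. -/
def TsrStmt : Prop :=
  ∀ (ℓ : ℕ) [Fact ℓ.Prime] (R F V E B R1 : Type) [CommRing R] [Field F] [CharP F ℓ]
    [CommGroup V] [Fintype V] [Group E] [Fintype E] [Fintype B] [DecidableEq B]
    (c : D2.Cdv R F) (φ : E →* MulAut V) (J : B → Type)
    [∀ b, Fintype (J b)] [∀ b, DecidableEq (J b)] (Z : Crd ℓ F V E B φ J)
    (D : ∀ b, E →* Matrix (J b) (J b) R) [CommRing R1] [Algebra R R1]
    (q : Qua R F E B c ℓ Z.a J D R1) (act : E →* (R1 ≃ₐ[R] R1))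
    (rho : D2.FibG R1 (MonoidAlgebra F V) c), (Fintype.card E : F) ≠ 0 →
    (∀ e p, act e (q.pm p) = q.pm (Lb D e p)) → (∀ i, rho.q (q.pm (X i)) = Z.x i) →
    (∀ e x, rho.q (act e x) = acV F φ e (rho.q x)) →
    ∃ (t : R1 →ₗ[R] R) (y' : (∀ i : Σ b, J b, Fin (ℓ ^ Z.a i.1)) → R1),
      (∀ a, ∑ j, t (y' j * a) • q.b j = a) ∧
      (∀ i j, t (y' i * q.b j) = if i = j then 1 else 0) ∧
      (∀ e x, t (act e x) = t x) ∧
      ∀ d (p : MvPolynomial (Σ b, J b) R), p.IsHomogeneous d →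
        d ≠ ∑ i : Σ b, J b, (ℓ ^ Z.a i.1 - 1) → t (q.pm p) = 0

/-- SGM: the socle element.  (`sg0 = ∑ j, eps (y' j) • y j`: `t (sg0 * x) = eps x`, so
`x * sg0 = eps x • sg0` (`t` is nondegenerate, `∑ j, t (y j * x) • y' j = x`); its reduction is killed by
the `u - 1` (if `rho.q r = u - 1` then a power of `r` is in `π R1`, so `κ (eps r) = 0` and
`r * sg0 = eps r • sg0` goes to `0`), it is a
multiple `m ∑ u` by FTS with `m ≠ 0` since `sg0` is not divisible by `π` (`t (sg0 * 1) = 1`);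
`sg = r • sg0` with `κ r = m⁻¹`.) -/
def SgmStmt : Prop :=
  ∀ (R F V R1 K : Type) [CommRing R] [Field F] [CommGroup V] [Fintype V] [CommRing R1]
    [Algebra R R1] [Fintype K] [DecidableEq K] (c : D2.Cdv R F)
    (rho : D2.FibG R1 (MonoidAlgebra F V) c) (ℓ : ℕ) [Fact ℓ.Prime] [CharP F ℓ]
    (t : R1 →ₗ[R] R) (y y' : K → R1) (eps : R1 →ₐ[R] R), IsPGroup ℓ V →
    (∀ a, ∑ j, t (y' j * a) • y j = a) →
    (∀ i j, t (y' i * y j) = if i = j then 1 else 0) →
    ∃ sg : R1, (∀ x, x * sg = eps x • sg) ∧ rho.q sg = ∑ u : V, MonoidAlgebra.of F V u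

/-- GLX: the graded lift exists (COO, QUA, RHO, ACR, EUD, EPN, TSR, SGM; `wt = ∑ (ℓ ^ a i - 1) > 0`;
`R1` is finite and free by the basis). -/
def GlxStmt : Prop :=
  ∀ (ℓ : ℕ) [Fact ℓ.Prime] (R F V E : Type) [CommRing R] [Field F] [CharP F ℓ]
    [CommGroup V] [Fintype V] [Group E] [Fintype E] (c : D2.Cdv R F) (φ : E →* MulAut V),
    IsPGroup ℓ V → Nontrivial V → (Fintype.card E : F) ≠ 0 →
    ∃ (R1 : Type) (_ : CommRing R1) (_ : Algebra R R1), Nonempty (GrL (E := E) c φ R1)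

/-! ### Part 4: the order `S = R1 [W]` -/

/-- RSU: restriction of the action to a stable subgroup. -/
def RsuStmt : Prop :=
  ∀ (V E : Type) [CommGroup V] [Group E] (φ : E →* MulAut V) (W : Subgroup V),
    (∀ e, ∀ u ∈ W, φ e u ∈ W) → ∃ ψ : E →* MulAut W, ∀ e (u : W), (ψ e u : V) = φ e u

/-- ACW: the action on `R1 [W]`. -/
def AcwStmt : Prop :=
  ∀ (R R1 W E : Type) [CommRing R] [CommRing R1] [Algebra R R1] [CommGroup W] [Group E]
    (act : E →* (R1 ≃ₐ[R] R1)) (ψ : E →* MulAut W),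
    ∃ A : E →* (MonoidAlgebra R1 W ≃ₐ[R] MonoidAlgebra R1 W), ∀ e w r,
      A e (MonoidAlgebra.single w r) = MonoidAlgebra.single (ψ e w) (act e r)

/-- FBW: the reduction of `R1 [W]`, `V = Va × W`.  (`q (∑ r_w w) = ∑ i(rho r_w) w`, `i : F Va → F V`; it is
onto, and injective modulo `π`, since every element of `V` is uniquely `u w`.) -/
def FbwStmt : Prop :=
  ∀ (R F V R1 : Type) [CommRing R] [Field F] [CommGroup V] [Finite V] [CommRing R1]
    [Algebra R R1] (c : D2.Cdv R F) (Va W : Subgroup V)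
    (rho : D2.FibG R1 (MonoidAlgebra F Va) c), Va ⊓ W = ⊥ → Va ⊔ W = ⊤ →
    ∃ fb : D2.FibG (MonoidAlgebra R1 W) (MonoidAlgebra F V) c, ∀ (w : W) r,
      fb.q (MonoidAlgebra.single w r) =
        MonoidAlgebra.mapDomainAlgHom F F Va.subtype (rho.q r) * MonoidAlgebra.of F V (w : V)

/-- TSW: the form `x ↦ t (x 1)` on `R1 [W]` and its relative dual bases. -/
def TswStmt : Prop :=
  ∀ (R R1 W E K : Type) [CommRing R] [CommRing R1] [Algebra R R1] [CommGroup W] [Fintype W]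
    [DecidableEq W] [Group E] [Fintype K] [DecidableEq K] (act : E →* (R1 ≃ₐ[R] R1))
    (ψ : E →* MulAut W) (A : E →* (MonoidAlgebra R1 W ≃ₐ[R] MonoidAlgebra R1 W))
    (t : R1 →ₗ[R] R) (y y' : K → R1),
    (∀ e w r, A e (MonoidAlgebra.single w r) = MonoidAlgebra.single (ψ e w) (act e r)) →
    (∀ a, ∑ j, t (y' j * a) • y j = a) →
    (∀ i j, t (y' i * y j) = if i = j then 1 else 0) → (∀ e x, t (act e x) = t x) →
    ∃ tw : MonoidAlgebra R1 W →ₗ[R] R,
      (∀ w r, tw (MonoidAlgebra.single w r) = if w = 1 then t r else 0) ∧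
      (∀ a, ∑ j, ∑ w : W, tw (MonoidAlgebra.single w⁻¹ 1 * MonoidAlgebra.single 1 (y' j) * a) •
        (MonoidAlgebra.single 1 (y j) * MonoidAlgebra.single w 1) = a) ∧
      (∀ i j u v, tw (MonoidAlgebra.single u⁻¹ 1 * MonoidAlgebra.single 1 (y' i) *
        (MonoidAlgebra.single 1 (y j) * MonoidAlgebra.single v 1)) =
        if i = j ∧ u = v then 1 else 0) ∧ ∀ e x, tw (A e x) = tw x

/-- DVW: the derivation on `R1 [W]`. -/
def DvwStmt : Prop :=
  ∀ (R R1 W E : Type) [CommRing R] [CommRing R1] [Algebra R R1] [CommGroup W] [Group E]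
    (act : E →* (R1 ≃ₐ[R] R1)) (ψ : E →* MulAut W)
    (A : E →* (MonoidAlgebra R1 W ≃ₐ[R] MonoidAlgebra R1 W)) (v : R1 →ₗ[R] R1),
    (∀ e w r, A e (MonoidAlgebra.single w r) = MonoidAlgebra.single (ψ e w) (act e r)) →
    (∀ a b, v (a * b) = v a * b + a * v b) → (∀ e x, v (act e x) = act e (v x)) →
    ∃ vw : MonoidAlgebra R1 W →ₗ[R] MonoidAlgebra R1 W,
      (∀ w r, vw (MonoidAlgebra.single w r) = MonoidAlgebra.single w (v r)) ∧
      (∀ a b, vw (a * b) = vw a * b + a * vw b) ∧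
      (∀ w : W, vw (MonoidAlgebra.single w 1) = 0) ∧
      ∀ e x, vw (A e x) = A e (vw x)

/-- NLW: the nilpotent ideal of `R1 [W]`: the kernel of `R1 [W] → R [W]`. -/
def NlwStmt : Prop :=
  ∀ (R R1 W E : Type) [CommRing R] [CommRing R1] [Algebra R R1] [CommGroup W] [Finite W]
    [Group E] (act : E →* (R1 ≃ₐ[R] R1)) (ψ : E →* MulAut W)
    (A : E →* (MonoidAlgebra R1 W ≃ₐ[R] MonoidAlgebra R1 W)) (eps : R1 →ₐ[R] R) (N : ℕ),
    (∀ e w r, A e (MonoidAlgebra.single w r) = MonoidAlgebra.single (ψ e w) (act e r)) →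
    (∀ e x, eps (act e x) = eps x) →
    (∀ y : Fin N → R1, (∀ i, eps (y i) = 0) → ∏ i, y i = 0) →
    ∃ P : Ideal (MonoidAlgebra R1 W), P ^ N = ⊥ ∧ (∀ e, ∀ y ∈ P, A e y ∈ P) ∧
      ∀ x : MonoidAlgebra R1 W, x ∈ P ↔ ∀ w, eps (x.coeff w) = 0

/-- ANW: lifting of the annihilators.

Proof.  `e = 1`: any lift.  `e ≠ 1`: the map `u ↦ φ e u * u⁻¹` of `Va` is injective, so bijective,
so `z` is invariant under multiplication with `Va`, and its coefficients satisfy
`z (φ e w * x) = z (w * x)` for `w` in `W`.  `y = ∑ w, (τ (z w) • sg) w`: `fb.q y = ∑ w, z(w) (∑ u) w = z`.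
`A e (r w') y = r w' y`: `r * sg = eps r • sg = act e r * sg`, and the coefficients `τ (z w)` of `y` are
invariant under `w ↦ φ e w' * w'⁻¹ * w`. -/
def AnwStmt : Prop :=
  ∀ (R F V E R1 : Type) [CommRing R] [Field F] [CommGroup V] [Group E] [CommRing R1]
    [Algebra R R1] (ℓ : ℕ) (c : D2.Cdv R F) (_ : Og ℓ c) (φ : E →* MulAut V)
    (Va W : Subgroup V) [Fintype Va] (rho : D2.FibG R1 (MonoidAlgebra F Va) c)
    (act : E →* (R1 ≃ₐ[R] R1)) (ψ : E →* MulAut W)
    (A : E →* (MonoidAlgebra R1 W ≃ₐ[R] MonoidAlgebra R1 W))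
    (fb : D2.FibG (MonoidAlgebra R1 W) (MonoidAlgebra F V) c) (eps : R1 →ₐ[R] R) (sg : R1),
    CtW ℓ φ Va W → (∀ e (u : W), (ψ e u : V) = φ e u) →
    (∀ e w r, A e (MonoidAlgebra.single w r) = MonoidAlgebra.single (ψ e w) (act e r)) →
    (∀ (w : W) r, fb.q (MonoidAlgebra.single w r) =
      MonoidAlgebra.mapDomainAlgHom F F Va.subtype (rho.q r) * MonoidAlgebra.of F V (w : V)) →
    (∀ e x, eps (act e x) = eps x) → (∀ x, x * sg = eps x • sg) →
    rho.q sg = ∑ u : Va, MonoidAlgebra.of F Va u →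
    ∀ e, ∀ z : MonoidAlgebra F V,
      (∀ u : V, MonoidAlgebra.of F V (φ e u) * z = MonoidAlgebra.of F V u * z) →
      ∃ y : MonoidAlgebra R1 W, fb.q y = z ∧ ∀ s, A e s * y = s * y

/-- SOX: the lift of `F V` (`S = MonoidAlgebra R1 W`; RSU twice, GLX for `Va`, ACW, FBW, TSW, DVW, NLW,
ANW). -/
def SoxStmt : Prop :=
  ∀ (R F V E : Type) [CommRing R] [Field F] [CommGroup V] [Group E] [Fintype E] (ℓ : ℕ)
    (c : D2.Cdv R F) (_ : Og ℓ c) (φ : E →* MulAut V) (Va W : Subgroup V) [Fintype W],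
    CtW ℓ φ Va W →
    ∃ (S : Type) (_ : CommRing S) (_ : Algebra R S), Nonempty (SO c φ W S)

/-! ### Part 5: the crossed product -/

/-- the datum of `B1` -/
def D1 {R F V E S : Type} [CommRing R] [Field F] [CommGroup V] [Group E] {ℓ : ℕ}
    {c : D2.Cdv R F} (o : Og ℓ c) {φ : E →* MulAut V} {W : Subgroup V} [Fintype W]
    (z : Coc F E) [CommRing S] [Algebra R S] (s : SO c φ W S) : CD R S E where
  act := s.act
  c := (o.up z).c
  one_left := (o.up z).one_left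
  one_right := (o.up z).one_right
  coc := (o.up z).coc

/-- CPB: a crossed product of a free module is free (`b j * n e`). -/
def CpbStmt : Prop :=
  ∀ (k S E : Type) [CommRing k] [CommRing S] [Algebra k S] [Group E] [Fintype E]
    (D : CD k S E) [Module.Finite k S] [Module.Free k S],
    Module.Finite k (CP D) ∧ Module.Free k (CP D)

/-- CPF: the special fibre (`q a = ∑ e, (fb.q (a.f e)) * n e`, coefficientwise). -/
def CpfStmt : Prop :=
  ∀ (R F V E S : Type) [CommRing R] [Field F] [CommGroup V] [Group E] [Fintype E] (ℓ : ℕ)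
    (c : D2.Cdv R F) (o : Og ℓ c) (φ : E →* MulAut V) (W : Subgroup V) [Fintype W]
    (z : Coc F E) [CommRing S] [Algebra R S] (s : SO c φ W S),
    ∃ fb : D2.FibG (CP (D1 o z s)) (CP (D0 φ z)) c, ∀ a e, (fb.q a).f e = s.fb.q (a.f e)

/-- CPT: the relative Frobenius system: `t a = s.t (a.f 1)`, `om w`, `x (j, e) = y j * n e`,
`x' (j, e) = (n e)⁻¹ * y' j`, `ph (j, e) w = e⁻¹ w` (`n (e⁻¹)` is a scalar multiple of `(n e)⁻¹`:
`CP.n_mul_inv`, `CP.c_inv_symm`). -/
def CptStmt : Prop :=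
  ∀ (R F V E S : Type) [CommRing R] [Field F] [CommGroup V] [Group E] [Fintype E] (ℓ : ℕ)
    (c : D2.Cdv R F) (o : Og ℓ c) (φ : E →* MulAut V) (W : Subgroup V) [Fintype W]
    (z : Coc F E) [CommRing S] [Algebra R S] (s : SO c φ W S),
    (∀ e, ∀ u ∈ W, φ e u ∈ W) →
    ∃ (I : Type) (_ : Fintype I) (wf : RFS R (CP (D1 o z s)) W I),
      (∀ a, wf.t a = s.t (a.f 1)) ∧ ∀ w, wf.om w = CP.iS (D1 o z s) (s.om w)

/-- CPE: the derivation, coefficientwise. -/
def CpeStmt : Prop :=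
  ∀ (k S E : Type) [CommRing k] [CommRing S] [Algebra k S] [Group E] [Fintype E]
    (D : CD k S E) (v : S →ₗ[k] S), (∀ a b, v (a * b) = v a * b + a * v b) →
    (∀ e x, v (D.act e x) = D.act e (v x)) →
    ∃ vc : CP D →ₗ[k] CP D, (∀ a e, (vc a).f e = v (a.f e)) ∧
      (∀ a b, vc (a * b) = vc a * b + a * vc b) ∧ (∀ e, vc (CP.n D e) = 0) ∧
      ∀ s, vc (CP.iS D s) = CP.iS D (v s)

/-- CPN: the nilpotent ideal, coefficientwise. -/
def CpnStmt : Prop :=
  ∀ (k S E : Type) [CommRing k] [CommRing S] [Algebra k S] [Group E] [Fintype E]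
    (D : CD k S E) (P : Ideal S) (N : ℕ), (∀ e, ∀ y ∈ P, D.act e y ∈ P) → P ^ N = ⊥ →
    ∃ Pc : Submodule k (CP D), (∀ a, a ∈ Pc ↔ ∀ e, a.f e ∈ P) ∧
      (∀ a, ∀ y ∈ Pc, a * y ∈ Pc) ∧ (∀ a, ∀ y ∈ Pc, y * a ∈ Pc) ∧
      ∀ y : ℕ → CP D, (∀ i, y i ∈ Pc) → ((List.range N).map y).prod = 0

/-- CPZ: the centre lifts.

Proof.  `a` central in the special fibre; `a.f e` satisfies the condition of `ann` (compare the
coefficients of `vv u * a = a * vv u`); `y e` from `ann`, `b0 = ∑ y e * n e` commutes with `iS s`;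
`b = |E|⁻¹ ∑ g, n g * b0 * (n g)⁻¹` commutes with `iS s` (`(n g)⁻¹ iS s = iS (g⁻¹ s) (n g)⁻¹`) and with
the `n h` (`n h n g = c . n (h g)`, the scalars cancel), and it is a lift of `a`. -/
def CpzStmt : Prop :=
  ∀ (R F V E S : Type) [CommRing R] [Field F] [CommGroup V] [Group E] [Fintype E] (ℓ : ℕ)
    (c : D2.Cdv R F) (o : Og ℓ c) (φ : E →* MulAut V) (W : Subgroup V) [Fintype W]
    (z : Coc F E) [CommRing S] [Algebra R S] (s : SO c φ W S)
    (fb : D2.FibG (CP (D1 o z s)) (CP (D0 φ z)) c), (∀ a e, (fb.q a).f e = s.fb.q (a.f e)) →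
    (Fintype.card E : F) ≠ 0 →
    ∀ a ∈ Subalgebra.center F (CP (D0 φ z)),
      ∃ b ∈ Subalgebra.center R (CP (D1 o z s)), fb.q b = a

/-- BOX: the output of D3 (SOX, CPB, CPF, CPT, CPE, CPN, CPZ; `S` is finite and free because it has
the basis `y j * om w`; the basis `bs` from `RFS.t1`, `RFS.du`). -/
def BoxStmt : Prop :=
  ∀ (R F V E : Type) [CommRing R] [Field F] [CommGroup V] [Group E] [Fintype E] (ℓ : ℕ)
    (c : D2.Cdv R F) (o : Og ℓ c) (φ : E →* MulAut V) (Va W : Subgroup V)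
    (z : Coc F E), CtW ℓ φ Va W →
    ∃ (Γ : Type) (_ : Ring Γ) (_ : Algebra R Γ) (_ : Module.Finite R Γ)
      (_ : Module.Free R Γ), Nonempty (BO Γ o φ W z)

end Pool.Agent.PFD.D3
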