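import Pool.Agent.WAX.Asm
import Pool.Agent.Helper6_PFD.EIX
import Pool.Agent.Helper11_PFD.KXE
import Pool.Agent.Helper11_PFD.LEQ
import Pool.Agent.Helper11_PFD.MNY
import Pool.Agent.Helper24_PFD.NCG
import Pool.Agent.Helper31_PFD.KSM
import Pool.Agent.Helper34_PFD.TRN
import Pool.Agent.Helper39_PFD.Chr
import Pool.Agent.Helper39_PFD.Rqa
import Pool.Agent.Helper41_PFD.FIN
import Pool.Agent.Helper41_PFD.SPJ
import Pool.Agent.Helper63_PFD.LNT
import Pool.Agent.Helper64_PFD.YAD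
import Pool.Agent.Helper65_PFD.SPE
import Pool.Agent.Helper91_PFD.ED
import Pool.Agent.Helper94_PFD.BNR
import Pool.Agent.Helper95_PFD.FND
import Pool.Agent.Helper66_PFD.Fne

/-!
# Squad PFD, block D5b: assembly
-/

open scoped BigOperators

noncomputable section

namespace Pool.Agent.PFD

open Pool.Agent.PP Pool.Agent.PP.K9

theorem kxe_of (keg : KegStmt) : KxeStmt := H11.kxe keg H34.trn

theorem edf_ : EdfStmt := H91.edf (H91.eda H91.edc H91.edv) H91.edc H91.edv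

theorem spe_ : SpeStmt := H65.spe edf_ H6.lke K9.H34.inx

theorem ksm_ : KsmStmt := H31.ksm TV.tgi_ TB.zcp_ TB.poz_ TB.pjz_ TV.smm_

theorem leq_of (keg : KegStmt) : LeqStmt :=
  H11.leq (kxe_of keg) H24.ncg ksm_ H6.lke H63.lnt H6.spx TW.sta_ T3.lsb_ K9.H34.inx

theorem chr_ : ChrStmt := H39.chr H39.rqa

theorem mny_of (keg : KegStmt) : MnyStmt :=
  H11.mny chr_ H64.yad H94b.bnr (leq_of keg) H6.spx H41.spj H6.eix T3.nvt_ T3.lcj_

theorem fnd_of (keg : KegStmt) : FndStmt := H95.fnd (mny_of keg) spe_ T3.flt_ T2.dza_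

theorem fne_of (keg : KegStmt) : H66.FneStmt := H66.fne (mny_of keg) spe_ T3.flt_ T3.psg_

theorem fin_of (keg : KegStmt) : FinStmt := H41.fin TX.fnx_ (fnd_of keg)

end Pool.Agent.PFD
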