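import Pool.Agent.PFD.StmtsD5a
import Pool.Agent.WAX.Stmts

/-!
# Squad PFD, block D5, part b: from the dimension of the centre to the theorem for blocks

Setting: `Ld ℓ e V γ` (`e` a block of `G` with the abelian defect group `V`, `γ` a block of `C(V)` under
`e`), `T = Tg V γ` the inertial group, `Sp V γ U W` (`PFD/DefsD5.lean`: `V = U × W` stable under `T`,
`U ≠ 1`, `T / C(V)` free on `U - 1`), `Ei V γ` the group of the automorphisms of `V` induced by `T`,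
`ke V γ` the number of its conjugacy classes, `kv V γ` the number of the conjugacy classes of
`V : Ei V γ`.

1. `KxeStmt` (from `Chain2.lean`, the blocks D1 - D6): `|Irr(e)| = kv V γ`.
2. `LeqStmt`: `ln e = ke V γ` (induction on `|G|` with Brauer's count KSM and the count NCG).
3. `MnyStmt`: the alternating sums of `push p e`, `p : G → A` surjective with `p.ker < V`, are zero
   (induction on `|A|`; no quotient of a block is a block of the class in general, this is why the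
   statement is about `push p e`).
4. `FndStmt`, `FinStmt`: the final theorems.

Complete proofs in the docstrings; a row may take the rows which it uses as hypotheses.
-/

open scoped BigOperators

noncomputable section

namespace Pool.Agent.PFD

open Pool.Agent.Helper51_AWC Pool.Agent.Helper79_WRA Pool.Agent.PP Pool.Agent.PP.KF
open Pool.Agent.PP.K9 Pool.Agent.PP.K9.H97 Pool.Agent.PP.H75 Pool.Agent.PP.T3 Pool.Agent.PP.T2
open Pool.Agent.PP.TB (Zd Star iz cz)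

attribute [local instance] Ideal.Quotient.field

/-! ## 1. Groups -/

/-- the stabiliser of `v` in `E` -/
def Fxs {V E : Type} [Group V] [Group E] (φ : E →* MulAut V) (v : V) : Subgroup E where
  carrier := {e | φ e v = v}
  one_mem' := by
    change φ 1 v = v
    rw [map_one]
    rfl
  mul_mem' := by
    intro a b ha hb
    change φ a v = v at ha
    change φ b v = v at hb
    change φ (a * b) v = v
    rw [map_mul, MulAut.mul_apply, hb, ha]
  inv_mem' := by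
    intro a ha
    change φ a v = v at ha
    change φ a⁻¹ v = v
    rw [map_inv]
    have h : (φ a)⁻¹ (φ a v) = v := MulAut.inv_apply_self V (φ a) v
    rwa [ha] at h

section defs

variable {G : Type} [Group G]

/-- the number of conjugacy classes of `V : (T / C(V))` -/
def kv {F : Type} (V : Subgroup G) (γ : G → F) : ℕ :=
  Nat.card (ConjClasses (V ⋊[(Ei V γ).subtype] Ei V γ))

/-- the automorphisms of `V` induced by the elements of `T ∩ X` -/
def Eix {F : Type} (V : Subgroup G) (γ : G → F) (X : Subgroup G) : Subgroup (MulAut V) :=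
  ((Tg V γ ⊓ X).subgroupOf (Subgroup.normalizer (V : Set G))).map V.normalizerMonoidHom

end defs

/-- NCG: the conjugacy classes of `V : E`.

Proof.  `P = V : E`.  `|P| k(P)` is the number of the pairs `(x, y)` with `x y = y x` (Mathlib:
`card_comm_eq_card_conjClasses_mul_card`).  `(v, e) (w, f) = (v φ_e(w), e f)`, so `(v, e)`, `(w, f)` commute
if and only if `e f = f e` and `v φ_f(v)⁻¹ = w φ_e(w)⁻¹` (`V` is commutative).  Let `e f = f e`,
`I = {w φ_e(w)⁻¹} {v φ_f(v)⁻¹}`, a subgroup, `H` the subgroup generated by `e`, `f`, `C` the fixed points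
of `H` (those of `e` and `f`).  The number of the pairs `(v, w)` is the order of the kernel of the
homomorphism `V × V → V`, `(v, w) ↦ v φ_f(v)⁻¹ (w φ_e(w)⁻¹)⁻¹`, whose image is `I`: it is
`|V|² / |I|`.  `V = C I`, `C ∩ I = 1`: let `N(v) = ∏_(h ∈ H) φ_h(v)`.  `N` is trivial on `I` (`H` is
commutative or just: `N(φ_e v) = N(v)`, reindex with `h ↦ h e`) and `N(v) = v ^ |H|` for `v ∈ C`; as
`|H|` divides `|E|`, it is prime to `|V|`, so `C ∩ I = 1`.  For every `h ∈ H` and every `v`: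
`φ_h(v) v⁻¹ ∈ I` (the `h` with this property form a subgroup: `φ_(h h')(v) v⁻¹ = φ_h(φ_h'(v)) φ_h'(v)⁻¹ ·
φ_h'(v) v⁻¹`; it contains `e`, `f`), so `N(v) ∈ v ^ |H| I`, and `N(v) ∈ C` (`φ_h N = N`).  So `v ^ |H| ∈ C I`
and `v ∈ C I` (a power of `v ^ |H|`).  So the number of the pairs is `|V| |C|`.  Sum over the commuting
pairs: `|V| ∑_(e,f) |C(e, f)| = |V| ∑_v #{(e, f) commuting in Fxs φ v} =
|V| ∑_v |Fxs φ v| k(Fxs φ v)`, and it is `|V| |E| k(P)`. -/
def NcgStmt : Prop := ∀ (V E : Type) [Group V] [Finite V] [Group E] [Finite E]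
  (φ : E →* MulAut V), (∀ a b : V, a * b = b * a) → (Nat.card V).Coprime (Nat.card E) →
  Nat.card E * Nat.card (ConjClasses (V ⋊[φ] E)) =
    ∑ᶠ v : V, Nat.card (Fxs φ v) * Nat.card (ConjClasses (Fxs φ v))

/-- TRN: transport to `V` and `Ei V γ`.

Proof.  `a : V' ≃* V`, `w ↦ ι w`.  For `x : E` the automorphism `a φ_x a⁻¹` of `V` is in `Ei V γ` (by the last
hypothesis it is `v ↦ t v t⁻¹`, `t ∈ T ≤ N(V)`), `b : E → Ei V γ` is a homomorphism, injective (`φ` is), and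
surjective: an element of `Ei V γ` is induced by some `t ∈ T`; take the `x` of the third hypothesis.
`V' : E ≅ V : Ei V γ` (`SemidirectProduct.congr` or by hand), so the numbers of classes are equal. -/
def TrnStmt : Prop := ∀ (F : Type) (G : Type) [Group G] (V : Subgroup G) (γ : G → F)
  (V' E : Type) [CommGroup V'] [Group E] (ι : V' →* G) (φ : E →* MulAut V'),
  Function.Injective ι → ι.range = V → Function.Injective φ →
  (∀ t ∈ Tg V γ, ∃ x : E, ∀ w, ι (φ x w) = t * ι w * t⁻¹) →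
  (∀ x : E, ∃ t ∈ Tg V γ, ∀ w, ι (φ x w) = t * ι w * t⁻¹) →
  Nat.card (ConjClasses (V' ⋊[φ] E)) = kv V γ

/-- EIX: the automorphisms induced by the inertial group of `γ` in a subgroup `X ≥ C(V)`.

Proof.  `V ≤ C(V) ≤ X` (`Ld.ab`).  `Tg (V.subgroupOf X) (γ|X) = (Tg V γ ⊓ X).subgroupOf X`:
`T3.H85.Tg_eq` (`Helper85_AT3/LSB.lean`; `γ` is supported on `C(V)`: `Ld.gam`).  The isomorphism
`V.subgroupOf X ≃* V` (`Subgroup.subgroupOfEquivOfLe`) gives `MulAut (V.subgroupOf X) ≃* MulAut V`, which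
maps the automorphism induced by `t ∈ X` to the one induced by `t`. -/
def EixStmt : Prop := ∀ (ℓ : ℕ) (F : Type) [Field F] (G : Type) [Group G] [Finite G] (e : G → F)
  (V : Subgroup G) (γ : G → F), Ld ℓ e V γ → ∀ X : Subgroup G,
  Subgroup.centralizer (V : Set G) ≤ X →
  Nonempty (Ei (V.subgroupOf X) (fun t : X => γ t) ≃* Eix V γ X)

/-- LKE: the indices.

Proof.  The kernel of `N(V) → MulAut V` is `C(V)` (as subgroups of `N(V)`), `C(V) ≤ T`
(`T3.H66.cent_le_Tg`, `Helper66_AT3/Fnt.lean`), so `|Ei V γ| = |T : C(V) ∩ T| = iz V V γ`, and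
`|Eix V γ (C(v))| = |T ∩ C(v) : C(V) ∩ T| = cz V V γ v` (`C(V) ∩ T ≤ T ∩ C(v)` for `v ∈ V`).
`Eix V γ (C(v))` is the set of the elements of `Ei V γ` which fix `v` (if `t ∈ T` induces an automorphism
which fixes `v` then `t ∈ C(v)`), so it is isomorphic to `Fxs (Ei V γ).subtype v`.  Third claim: EIX
for `X = C(v) ≥ C(V)`. -/
def LkeStmt : Prop := ∀ (ℓ : ℕ) (F : Type) [Field F] (G : Type) [Group G] [Finite G] (e : G → F)
  (V : Subgroup G) (γ : G → F), Ld ℓ e V γ → iz V V γ = Nat.card (Ei V γ) ∧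
  ∀ v : V, cz V V γ (v : G) = Nat.card (Fxs (Ei V γ).subtype v) ∧
    ke (V.subgroupOf (Cu (v : G))) (fun t : Cu (v : G) => γ t) =
      Nat.card (ConjClasses (Fxs (Ei V γ).subtype v))

/-- SPX: the splitting in a subgroup `X ≥ C(V)`.

Proof.  `V ≤ C(V) ≤ X`.  `T3.H85.Tg_eq`: the inertial group in `X` is `T ∩ X`.  `fr`: an element of `X`
which is in `C(V)` centralises `V.subgroupOf X`.  The rest is clear (`U.subgroupOf X = ⊥` implies `U = ⊥`,
since `U ≤ X`; `jn`: every element of `V` is a product `u w`, `V` is abelian). -/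
def SpxStmt : Prop := ∀ (ℓ : ℕ) (F : Type) [Field F] (G : Type) [Group G] [Finite G] (e : G → F)
  (V : Subgroup G) (γ : G → F), Ld ℓ e V γ → ∀ U W : Subgroup G, Sp V γ U W →
  ∀ X : Subgroup G, Subgroup.centralizer (V : Set G) ≤ X →
  Sp (V.subgroupOf X) (fun t : X => γ t) (U.subgroupOf X) (W.subgroupOf X)

/-- SPJ: the splitting and conjugation.

Proof.  `Tg (conjS g V) (cj g γ) = conjS g (Tg V γ)` (see the proof of `T3.LcjStmt`,
`Helper62_AT3/LCJ.lean`), `C(g V g⁻¹) = g C(V) g⁻¹`. -/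
def SpjStmt : Prop := ∀ (F : Type) (G : Type) [Group G] (V : Subgroup G) (γ : G → F)
  (U W : Subgroup G), Sp V γ U W → ∀ g : G,
  Sp (conjS g V) (cj g γ) (conjS g U) (conjS g W)

/-! ## 2. Splitting of a free part -/

/-- EDA: a homocyclic subgroup over a simple submodule.

Proof.  Let `A` be minimal among the `E`-stable subgroups of `{v | v ^ ℓ ^ n ∈ U}` with
`{a ^ ℓ ^ n} = U` (the whole set is one of them, as `U ≤ V ^ (ℓ ^ n)`).  `q : A → U`, `a ↦ a ^ ℓ ^ n`, is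
surjective and trivial on `A ^ ℓ` (`u ^ ℓ = 1` in `U`).  The kernel `K` of `q` is `A ^ ℓ`: `A/A ^ ℓ` is an
elementary abelian `ℓ`-group on which `E` acts, `ℓ` does not divide `|E|`, so `K/A ^ ℓ` has an `E`-stable
complement, its
preimage `A'` is `E`-stable, `A' K = A`, so `q(A') = U` and `A' = A` by minimality, `K = A ^ ℓ`.  This is the
last claim.  `U = A ^ (ℓ ^ n) ≤ A`.  The kernel of `a ↦ a ^ ℓ` on `A` has the order `|A : A ^ ℓ| = |A : K| =
|U|` (first isomorphism theorem twice), and it contains `U`, so it is `U`.  (The complement of `K/A ^ ℓ`: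
EDC with `n = 0` for the group `A/A ^ ℓ`, then EDV.) -/
def EdaStmt : Prop := ∀ (ℓ n : ℕ) (V E : Type) [CommGroup V] [Finite V] [Group E] [Finite E]
  (φ : E →* MulAut V), ℓ.Prime → ¬ ℓ ∣ Nat.card E → ∀ U : Subgroup V, U ≠ ⊥ →
  (∀ e, ∀ u ∈ U, φ e u ∈ U) →
  (∀ u ∈ U, u ^ ℓ = 1) → (∀ u ∈ U, ∃ v : V, u = v ^ ℓ ^ n) →
  ∃ A : Subgroup V, (∀ e, ∀ a ∈ A, φ e a ∈ A) ∧ U ≤ A ∧ (∀ a ∈ A, a ^ ℓ = 1 → a ∈ U) ∧
    (∀ a ∈ A, a ^ ℓ ^ n = 1 → ∃ c ∈ A, a = c ^ ℓ)

/-- EDC: a complement.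

Proof.  `B₀ = {v ^ ℓ ^ (n+1)}`, `A ∩ B₀ = 1`.  Let `B ≥ B₀` be maximal with `A ∩ B = 1`.  Suppose
`A B ≠ V`.  `V/(A B)` is a nontrivial `ℓ`-group, so there is `v ∉ A B` with `v ^ ℓ = a b`, `a ∈ A`, `b ∈ B`.
`v ^ ℓ ^ (n+1) = a ^ ℓ ^ n b ^ ℓ ^ n`, so `a ^ ℓ ^ n ∈ A ∩ B = 1`, `a = c ^ ℓ`, `c ∈ A`.
`w = v c⁻¹ ∉ A B`, `w ^ ℓ = b ∈ B`.  `B' = B ⟨w⟩ > B`; if `b₁ w ^ k ∈ A` then `w ^ k ∈ A B`, so `ℓ` divides `k`
(otherwise `w` is a product of powers of `w ^ k` and `w ^ ℓ`, in `A B`), `w ^ k ∈ B`, and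
`b₁ w ^ k ∈ A ∩ B = 1`.  So `A ∩ B' = 1`, against the choice of `B`. -/
def EdcStmt : Prop := ∀ (ℓ n : ℕ) (V : Type) [CommGroup V] [Finite V], ℓ.Prime → IsPGroup ℓ V →
  ∀ A : Subgroup V, (∀ a ∈ A, a ^ ℓ ^ n = 1 → ∃ c ∈ A, a = c ^ ℓ) →
  (∀ v : V, v ^ ℓ ^ (n + 1) ∈ A → v ^ ℓ ^ (n + 1) = 1) → ∃ B : Subgroup V, IsCompl A B

/-- EDV: an `E`-stable complement.

Proof.  `π : V → V` the projection on `A` with kernel `B`, `m` with `m |E| = 1` modulo `|V|`,
`π'(v) = (∏_e φ_e (π (φ_e⁻¹ v))) ^ m`, a homomorphism with values in `A`, the identity on `A`, which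
commutes with `E` (reindex).  `W` = its kernel. -/
def EdvStmt : Prop := ∀ (V E : Type) [CommGroup V] [Finite V] [Group E] [Finite E]
  (φ : E →* MulAut V), (Nat.card V).Coprime (Nat.card E) → ∀ A B : Subgroup V, IsCompl A B →
  (∀ e, ∀ u ∈ A, φ e u ∈ A) → ∃ W : Subgroup V, IsCompl A W ∧ ∀ e, ∀ u ∈ W, φ e u ∈ W

/-- EDF: splitting of a free part.

Proof.  Let `U₁ ≤ U` be minimal among the nontrivial `E`-stable subgroups; `{u ∈ U₁ | u ^ ℓ = 1}` is one, so
`u ^ ℓ = 1` on `U₁`.  Let `n` be maximal with `U₁ ≤ {v ^ ℓ ^ n}` (`n = 0` is possible; for large `n` the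
right side is trivial).  EDA for `U₁`: `A`.  If `v ^ ℓ ^ (n+1) = y ∈ A`, `y ≠ 1`, then a power `y'` of `y` has
order `ℓ`, is in `A`, so in `U₁`, and in `{v ^ ℓ ^ (n+1)}`; so `U₁ ∩ {v ^ ℓ ^ (n+1)}` is a nontrivial
`E`-stable subgroup of `U₁`, so it is `U₁`, against the choice of `n`.  EDC, EDV: `V = A × W'`.  If
`φ_e(a) = a`, `a ∈ A`, `a ≠ 1`, then a power of `a` is in `U₁ - 1` and fixed by `e`, so `e = 1`.
`U' = A`. -/
def EdfStmt : Prop := ∀ (ℓ : ℕ) (V E : Type) [CommGroup V] [Finite V] [Group E] [Finite E]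
  (φ : E →* MulAut V), ℓ.Prime → IsPGroup ℓ V → ¬ ℓ ∣ Nat.card E → ∀ U : Subgroup V, U ≠ ⊥ →
  (∀ e, ∀ u ∈ U, φ e u ∈ U) → (∀ e, ∀ u ∈ U, φ e u = u → e = 1 ∨ u = 1) →
  ∃ U' W' : Subgroup V, U' ≠ ⊥ ∧ IsCompl U' W' ∧ (∀ e, ∀ u ∈ U', φ e u ∈ U') ∧
    (∀ e, ∀ u ∈ W', φ e u ∈ W') ∧ ∀ e, ∀ u ∈ U', φ e u = u → e = 1 ∨ u = 1

/-- SPE: the same for the inertial group.

Proof.  EDF for the commutative group `V` (`Ld.ab`), `E = Ei V γ` (its order is the index of `C(V)` in `T`,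
LKE, prime to `ℓ` by `K9.InxStmt`), `U.subgroupOf V`; `U = (U').map V.subtype`, `W = (W').map V.subtype`.  An
element `t ∈ T` which commutes with `u ≠ 1` in the new `U` induces an automorphism which fixes `u`, so it
is the identity, `t ∈ C(V)`. -/
def SpeStmt : Prop := ∀ (ℓ : ℕ) [Fact ℓ.Prime] (M : Ideal (integralClosure ℤ ℂ)) [M.IsMaximal],
  (ℓ : integralClosure ℤ ℂ) ∈ M → ∀ (G : Type) [Group G] [Finite G] (e : G → FF M)
  (V : Subgroup G) (γ : G → FF M), Ld ℓ e V γ → ∀ U₀ : Subgroup G, U₀ ≤ V → U₀ ≠ ⊥ →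
  (∀ t ∈ Tg V γ, ∀ u ∈ U₀, t * u * t⁻¹ ∈ U₀) →
  (∀ t ∈ Tg V γ, ∀ u ∈ U₀, u ≠ 1 → t * u = u * t → t ∈ Subgroup.centralizer (V : Set G)) →
  ∃ U W : Subgroup G, Sp V γ U W

/-! ## 3. The numbers of characters -/

/-- KXE: the number of the characters in `e`; from `Chain2.lean` (the blocks D1 - D6) and TRN. -/
def KxeStmt : Prop := ∀ (ℓ : ℕ) [Fact ℓ.Prime] (M : Ideal (integralClosure ℤ ℂ)) [M.IsMaximal],
  (ℓ : integralClosure ℤ ℂ) ∈ M → ∀ (G : Type) [Group G] [Finite G] (e : G → FF M)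
  (V : Subgroup G) (γ : G → FF M), Ld ℓ e V γ → ∀ U W : Subgroup G, Sp V γ U W →
  (IrrE M e).ncard = kv V γ

/-- KSM: Brauer's formula for the number of characters, weighted over `V`.

Proof.  Let `χ ∈ e`, `mm(v) = mm M ℓ (Cu v) v (b v) χ χ`, `A = ∑_v cz(v) mm(v)`.  As in the proof of
`TV.TvaStmt` (`Helper89_WAT/TVA.lean`) for the trivial homomorphism `lam = 1`: `A ∈ RM M` by `Star`,
`|V| A = iz n` with an integer `n` by `TV.TgiStmt` (`lam = 1`), `iz` is prime to `ℓ` (`TB.ZcpStmt`), so `|V|`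
divides `n` and `A = iz m`, `m` an integer.  `A > 0` (`TB.PozStmt`; `cz(v) > 0`) and
`A = Pw V ≤ iz` (`TB.PjzStmt` for `W = V`), so `m = 1`: `A = iz`.  Sum over `χ ∈ e` and `TV.SmmStmt`:
`iz |Irr(e)| = ∑_v cz(v) ln (b v)`.  (All these statements are proved: `TV.tgi_`, `TV.smm_`
in `Helper66_WAT/Asm.lean`, `TB.zcp_`, `TB.poz_`, `TB.pjz_`.) -/
def KsmStmt : Prop := ∀ (ℓ : ℕ) [Fact ℓ.Prime] (M : Ideal (integralClosure ℤ ℂ)) [M.IsMaximal],
  (ℓ : integralClosure ℤ ℂ) ∈ M → ∀ (G : Type) [Group G] [Finite G] (e : G → FF M)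
  (V : Subgroup G) (γ : G → FF M) (b : G → G → FF M), Zd ℓ e V V γ b → Star M ℓ e V V γ b →
  iz V V γ * (IrrE M e).ncard =
    ∑ᶠ v : V, cz V V γ (v : G) * ln (fun t : Cu (v : G) => b v t)

/-- LNT: the local block of a central element.

Proof.  `Cu v = ⊤`.  `b` is a block of `Cu v`, extended by zero, and under `e`, so `b = e` as functions on
`G` (a block of `G`, not orthogonal to the block `e`).  The modular characters of the subgroup `Cu v = ⊤` in
`e` and of `G` in `e` are the same (`lnum ⊤ e = ln e`: `K9.H35.lnum_top`; rewrite `Cu v = ⊤`). -/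
def LntStmt : Prop := ∀ (ℓ : ℕ) (F : Type) [Field F], GoodF ℓ F → ∀ (G : Type) [Group G]
  [Finite G] (e : G → F) (V : Subgroup G) (γ : G → F), Ld ℓ e V γ → ∀ v ∈ V,
  v ∈ Subgroup.center G → ∀ b : G → F, Lc e V γ v b → ln (fun t : Cu v => b t) = ln e

/-- LEQ: the number of the modular characters.

Proof.  Induction on `|G|`.  `TB.ZabStmt` (`TB.zab_`): `b` with `Zd ℓ e V V γ b`; `Star` by `TW.sta_` (see how
`TV.WatStmt` uses it).  `Lc e V γ v (b v)` for `v ∈ V` (`Zd.lb`).  KSM, KXE, LKE: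
`|Ei| kv V γ = ∑_v |Fxs v| ln (b v)`.  NCG for `φ = (Ei V γ).subtype` (`V` an `ℓ`-group, `|Ei|` prime to `ℓ` by
LKE and `K9.InxStmt`): `|Ei| kv V γ = ∑_v |Fxs v| k(Fxs v)`.  Let `v` be not central in `G`: `|Cu v| < |G|`,
`Ld` for `b v` (`T3.LsbStmt`), `Sp` (SPX, `C(V) ≤ C(v)`), so by induction
`ln (b v) = ke (V.subgroupOf (Cu v)) (γ|Cu v) = k(Fxs v)` (LKE).  If `v` is central then `Fxs v = ⊤`,
`k(Fxs v) = ke V γ` and `ln (b v) = ln e` (LNT).  So the terms of the two sums for noncentral `v` are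
equal, and `z |Ei| ln e = z |Ei| ke V γ`, where `z > 0` is the number of the central `v ∈ V` (`v = 1`). -/
def LeqStmt : Prop := ∀ (ℓ : ℕ) [Fact ℓ.Prime] (M : Ideal (integralClosure ℤ ℂ)) [M.IsMaximal],
  (ℓ : integralClosure ℤ ℂ) ∈ M → ∀ (G : Type) [Group G] [Finite G] (e : G → FF M)
  (V : Subgroup G) (γ : G → FF M), Ld ℓ e V γ → ∀ U W : Subgroup G, Sp V γ U W →
  ln e = ke V γ

/-! ## 4. The alternating sums -/

/-- YAD: additivity.

Proof.  Induction on the number of the blocks under `f` (finite; or on the dimension of the class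
functions `a` with `f a = a`).  `f = 0`: `H67.YY_zero`.  Otherwise there is a block `c` under `f`
(`K9.H24.exists_blk` with the identity map), `f = c + (f - c)`, orthogonal central idempotents;
`push p` is additive (`T3.H43.push_add`), multiplicative, and maps central idempotents to central
idempotents (`H75.push_isIdem`), so `YY` is additive (`H9.YY_add`, `Helper9_PP/Add.lean`). -/
def YadStmt : Prop := ∀ (ℓ : ℕ) (F : Type) [Field F], GoodF ℓ F → ∀ (N A : Type) [Group N]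
  [Finite N] [Group A] [Finite A] (p : N →* A), Function.Surjective p → ∀ f : N → F, IsIdem f →
  (∀ c : N → F, IsBlk c → mulF f c = c → YY ℓ ⊤ (push p c) = 0) → YY ℓ ⊤ (push p f) = 0

/-- BNR: the blocks of `N(R)` under `br_R(e)`.

Proof.  As `T3.Qt1Stmt` (`Helper65_AT3/QT1.lean`) with `A = N(R)` and `p` the identity, then GCH.
`N = N(R)`, `C = C(R)`.  (1) `br_R e ≠ 0`, so `R` is good for `e`, `R` is contained in a conjugate of `V`
(`FmgStmt`), abelian, `R ≤ C ≤ N`.  (2) `e|C` is a central idempotent of `F C`, `c (e|C) = c`, so there is a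
block `d` of `C` under `e|C` with `c d ≠ 0`.  `T3.DugStmt`: `P` good for `d`, `R ≤ P ≤ C`, `|P| = |V|`.  `P` is
good for `e` (`br_P(e) br_P(d) = br_P(d)`), so `P = conjS k V` (`FmgStmt`, orders).
`T3.H65.cover_gd` for `C.subgroupOf N`: `P` is good for `c`.  A good `ℓ`-subgroup of `c` is good for `br_R e`
and for `e`, so its order is at most `|V|`: `Tp ℓ c (P.subgroupOf N)`.  (3) `C(P) ≤ C(R) ≤ N`.  `br_P(c) ≠ 0`
on `C(P)`: let `γ₁` be a block of `C(P)` with `br_P(c) γ₁ = γ₁` (`c` extended by zero).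
`br_P(e) br_P(c) = br_P(c)` (`c (br_R e) = c`, `br_P br_R = br_P`), so `br_P(e) γ₁ = γ₁`.
`cj k γ` is a block of `C(P)` under `br_P(e)` (`T3.LcjStmt`), and `br_P(e)` is a block of `N(P)` (`FmgStmt`), so
`K9.OrbStmt` (as in the proof of `T3.GchStmt`) gives `n ∈ N(P)` with `γ₁ = cj n (cj k γ)`; `g = n k`,
`conjS g V = P`.  `T3.H85.ld_of` with `X = N`. -/
def BnrStmt : Prop := ∀ (ℓ : ℕ) [Fact ℓ.Prime] (M : Ideal (integralClosure ℤ ℂ)) [M.IsMaximal],
  (ℓ : integralClosure ℤ ℂ) ∈ M → ∀ (G : Type) [Group G] [Finite G] (e : G → FF M)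
  (V : Subgroup G) (γ : G → FF M), Ld ℓ e V γ → ∀ R : Subgroup G, IsPGroup ℓ R →
  ∀ c : Subgroup.normalizer (R : Set G) → FF M, IsBlk c →
  mulF (fun t : Subgroup.normalizer (R : Set G) => br R e t) c = c →
  ∃ g : G, R ≤ conjS g V ∧
    Ld ℓ c ((conjS g V).subgroupOf (Subgroup.normalizer (R : Set G)))
      (fun t : Subgroup.normalizer (R : Set G) => cj g γ t)

/-- RQA: the local alternating sums of a quotient.

Proof.  `R = p⁻¹(R')`, an `ℓ`-group; `N = N(R) = p⁻¹(N')`, `N' = N(R')`.  `p` induces an isomorphism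
`σ : N/R → N'/R'`.  `a = push (N → N/R) (br_R e|N)`, `a' = push (N' → N'/R') (br_R'(push p e)|N')`, central
idempotents.  Claim: `push σ a = a'`.  Let `τ` be an irreducible representation of `N'/R'`, `ρ'` its
inflation to `N'`, `ρ` its inflation to `N`.  `ev τ a' = ev ρ' (br_R'(push p e)|N') = ev ρ' ((push p e)|N')`
(`NlsStmt`: `R'` is a normal `ℓ`-subgroup of `N'`) `= ev ρ (e|N)` (`(push p e)|N' = push (N → N') (e|N)`, as
`N` is the full preimage), and `ev τ (push σ a) = ev ρ (br_R e|N) = ev ρ (e|N)` (`NlsStmt` for `R`).  So the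
two central idempotents act in the same way in all irreducible representations; `x = push σ a`:
`x - x a'` is idempotent and nilpotent (`IbnStmt`), so `x = x a' = a'`.  `YY` is invariant under the isomorphism
`σ`.  Another way: both sides are sums over chains, and all the terms are numbers
`lnum (preimage in G of the stabiliser) e` by `K9.LbrStmt` and `K9.H35.lnum_up` (see
`Helper28_AT3/REC.lean`). -/
def RqaStmt : Prop := ∀ (ℓ : ℕ) [Fact ℓ.Prime] (F : Type) [Field F], GoodF ℓ F → ∀ (G A : Type)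
  [Group G] [Finite G] [Group A] [Finite A] (p : G →* A), Function.Surjective p →
  IsPGroup ℓ p.ker → ∀ e : G → F, IsIdem e → ∀ R' : Subgroup A, IsPGroup ℓ R' →
  YQ ℓ (push p e) R' = YQ ℓ e (R'.comap p)

/-- CHR: the alternating sum of `push p e`.

Proof.  As `T3.ChaStmt` (`Helper41_AT3/CHA.lean`).  `K = p.ker ≤ V`, `f = push p e`.  `T3.RecStmt`
(`T3.Asm.rec__`) for `A` and the central idempotent `f`: `YY ℓ ⊤ f = |A| lnum ⊤ f - ∑ |R'| YQ ℓ f R'` over the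
nontrivial `ℓ`-subgroups `R'` of `A`; `R = p⁻¹(R')` is an `ℓ`-group with `K < R`, `|R'| |K| = |R|`, and
`YQ ℓ f R' = YQ ℓ e R` (RQA).  `lnum ⊤ f = ln e` (`K` is a normal `ℓ`-subgroup: `cnt_push` in
`Helper35_K9/CHQ.lean`).  If `R` is not good for `e` then `br R e = 0` and `YQ ℓ e R = 0`.  If `R` is good and
`|R| < |V|`: hypothesis.  Otherwise `R` is a conjugate of `V` (`FmgStmt`), and
`|R| YQ ℓ e R = |N(R)| lnum N(R) e` (`T3.H41.term_max`).  All the conjugates of `V` contain `K` (normal), they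
are `|G : N(V)|`, and `V ≠ K`.  So the sum is `|G : N(V)| |N(V)| |K|⁻¹ lnum N(V) e = |A| lnum N(V) e`, and
`lnum N(V) e = ln (br V e|N(V))` (`K9.LbrStmt`). -/
def ChrStmt : Prop := ∀ (ℓ : ℕ) [Fact ℓ.Prime] (M : Ideal (integralClosure ℤ ℂ)) [M.IsMaximal],
  (ℓ : integralClosure ℤ ℂ) ∈ M → ∀ (G : Type) [Group G] [Finite G] (e : G → FF M), IsBlk e →
  ∀ V : Subgroup G, Tp ℓ e V → ∀ (A : Type) [Group A] [Finite A] (p : G →* A),
  Function.Surjective p → p.ker ≤ V → p.ker ≠ V →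
  (∀ R : Subgroup G, IsPGroup ℓ R → p.ker ≤ R → p.ker ≠ R → Gd e R →
    Nat.card R < Nat.card V → YQ ℓ e R = 0) →
  YY ℓ ⊤ (push p e) = (Nat.card A : ℤ) *
    ((ln e : ℤ) - (ln (fun t : Subgroup.normalizer (V : Set G) => br V e t) : ℤ))

/-- MNY: the alternating sums are zero.

Proof.  Strong induction on `|A|`, for all `G`, `e`, `V`, `γ`, `U`, `W`, `p`.  `K = p.ker`.  (1) Let `R` be as in the
hypothesis of CHR: `YQ ℓ e R` is the `YY ℓ ⊤` of `push q (br_R e|N)`, `N = N(R)`, `q : N → N/R`.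
`br_R e|N` is a central idempotent.  By YAD it is enough that `YY ℓ ⊤ (push q c) = 0` for the blocks `c` of `N`
under it.  BNR: `g`, `V₁ = conjS g V`, `R ≤ V₁ ≤ C(R) ≤ N`, `Ld ℓ c (V₁.subgroupOf N) (cj g γ|N)`;
`Sp` by SPJ (and `T3.LcjStmt` for `Ld ℓ e V₁ (cj g γ)`) and SPX (`C(V₁) ≤ C(R) ≤ N`).  `q.ker = R.subgroupOf N` is
contained in `V₁.subgroupOf N` and different from it (`|R| < |V|`).  `|N/R| ≤ |G|/|R| < |G|/|K| = |A|`.
Induction.  (2) CHR: `YY ℓ ⊤ (push p e) = |A| (ln e - ln f)`, `f = br V e|N(V)`.  LEQ: `ln e = ke V γ`.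
`T3.NvtStmt`: `Ld` for `f`, SPX with `X = N(V)`, LEQ: `ln f = ke (V.subgroupOf N(V)) (γ|N(V))`, which is
`ke V γ` by EIX with `X = N(V)` (`T ≤ N(V)`, so `Eix V γ N(V) = Ei V γ`). -/
def MnyStmt : Prop := ∀ (ℓ : ℕ) [Fact ℓ.Prime] (M : Ideal (integralClosure ℤ ℂ)) [M.IsMaximal],
  (ℓ : integralClosure ℤ ℂ) ∈ M → ∀ (G : Type) [Group G] [Finite G] (e : G → FF M)
  (V : Subgroup G) (γ : G → FF M), Ld ℓ e V γ → ∀ U W : Subgroup G, Sp V γ U W →
  ∀ (A : Type) [Group A] [Finite A] (p : G →* A), Function.Surjective p → p.ker ≤ V →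
  p.ker ≠ V → YY ℓ ⊤ (push p e) = 0

/-! ## 5. The final theorems -/

/-- FND: the theorem for characters.  `D` is an abelian defect group of the block of `χ`, larger than
`O_ℓ(G)`, `th` belongs to a block of `C(D)` under the block of `χ`, `Iner M D th` is its inertial group; it
normalises a nontrivial subgroup `U` of `D`, and `Iner M D th / C(D)` acts freely on `U - 1`.

Proof.  As `T3.FntStmt` (`Helper66_AT3/Fnt.lean`).  `Z = opCore ℓ G`, `p : G → G/Z`, `e` the block of `χ`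
(`H50.bid`), `H75.altSum_central`: `|G| altSum χ = |Z|² YY ℓ ⊤ (push p e)`.  `T3.FltStmt`: `γ` with
`Ld ℓ e D γ` and `Tg D γ = Iner M D th`.  SPE: `Sp D γ U' W'`.  `Z ≤ D`: `Z D` is an `ℓ`-group, `Z` is central, so
`C(Z D) = C(D)` and `Z D` is good for `e`, `|Z D| ≤ |D|` (`Tp.mx`).  MNY. -/
def FndStmt : Prop := ∀ (ℓ : ℕ) [Fact ℓ.Prime] (M : Ideal (integralClosure ℤ ℂ)) [M.IsMaximal],
  (ℓ : integralClosure ℤ ℂ) ∈ M → ∀ (G : Type) [Group G] [Finite G],
  opCore ℓ G ≤ Subgroup.center G → ∀ χ ∈ Irr G, ∀ D : Subgroup G, ML.IsDef ℓ M χ D →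
  D ≠ opCore ℓ G → (∀ x ∈ D, ∀ y ∈ D, x * y = y * x) →
  ∀ th ∈ IrrBlock M (Subgroup.centralizer (D : Set G)).subtype χ,
  ∀ U : Subgroup G, U ≤ D → U ≠ ⊥ →
  (∀ t ∈ Iner M D th, ∀ u ∈ U, t * u * t⁻¹ ∈ U) →
  (∀ t ∈ Iner M D th, ∀ u ∈ U, u ≠ 1 → t * u = u * t →
    t ∈ Subgroup.centralizer (D : Set G)) → altSum ℓ M χ = 0

/-- FIN: the final theorem, together with the previous cases (`TX.FnxStmt`, squad WAX).

Proof.  `TX.fnx_` (`Pool/Agent/WAX`) for the first five alternatives, FND for the last one. -/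
def FinStmt : Prop := ∀ (ℓ : ℕ) [Fact ℓ.Prime] (M : Ideal (integralClosure ℤ ℂ)) [M.IsMaximal],
  (ℓ : integralClosure ℤ ℂ) ∈ M → ∀ (G : Type) [Group G] [Finite G],
  opCore ℓ G ≤ Subgroup.center G → ∀ χ ∈ Irr G, ∀ D : Subgroup G, ML.IsDef ℓ M χ D →
  D ≠ opCore ℓ G → (∀ x ∈ D, ∀ y ∈ D, x * y = y * x) →
  ∀ th ∈ IrrBlock M (Subgroup.centralizer (D : Set G)).subtype χ,
  ∀ a : ℕ, 0 < a → (∃ d ∈ D, d ^ ℓ ^ (a - 1) ∉ opCore ℓ G) →
  ∀ r : ℕ, (∃ s : Fin r → G, (∀ i, s i ∈ D) ∧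
    TV.Dc M D th ≤ Subgroup.closure (Set.range s)) →
  (r ≤ 2 ∨ 3 * (Iner M D th).ncard ≤ ℓ * Nat.card (Subgroup.centralizer (D : Set G)) ∨
    (T8.In M D th ℓ ∧ r ≤ a) ∨
    (ℓ ≠ 2 ∧ (∀ s ∈ Iner M D th, ∀ t ∈ Iner M D th,
      s * t * s⁻¹ * t⁻¹ ∈ Subgroup.centralizer (D : Set G)) ∧ r ^ 2 < 2 * a) ∨
    2 * r ^ 3 + 2 * r * T5.ep ℓ ≤ a ∨
    (∃ U : Subgroup G, U ≤ D ∧ U ≠ ⊥ ∧ (∀ t ∈ Iner M D th, ∀ u ∈ U, t * u * t⁻¹ ∈ U) ∧
      ∀ t ∈ Iner M D th, ∀ u ∈ U, u ≠ 1 → t * u = u * t →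
        t ∈ Subgroup.centralizer (D : Set G))) → altSum ℓ M χ = 0

end Pool.Agent.PFD
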