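import Mathlib

/-!
# Squad PFD: crossed products `S_c E` (twisted skew group algebras)

`S` is a commutative `k`-algebra on which the finite group `E` acts by `k`-automorphisms, `c` is a
normalised 2-cocycle of `E` with values in the units of `k`.  `CP D` is the free `S`-module with
basis `n e` (`e` in `E`), with `n e * s = e(s) * n e` and `n e * n f = c e f • n (e f)`.

* over the residue field `F`: `S = F V`, the twisted group algebra of `V : E`;
* over the discrete valuation ring: `S = R_V` (a lift of `F V`);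
* over the fraction field: `S = K ⊗ R_V`.
-/

open scoped BigOperators

noncomputable section

namespace Pool.Agent.PFD

/-- The datum of a crossed product. -/
structure CD (k S E : Type) [CommRing k] [CommRing S] [Algebra k S] [Group E] where
  act : E →* (S ≃ₐ[k] S)
  c : E → E → kˣ
  one_left : ∀ e, c 1 e = 1
  one_right : ∀ e, c e 1 = 1
  coc : ∀ e f g, c e f * c (e * f) g = c f g * c e (f * g)

/-- The crossed product: the function `f` stands for the sum of the `f e * n e`. -/
@[ext] structure CP {k S E : Type} [CommRing k] [CommRing S] [Algebra k S] [Group E]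
    (D : CD k S E) : Type where
  f : E → S

namespace CP

section

variable {k S E : Type} [CommRing k] [CommRing S] [Algebra k S] [Group E] {D : CD k S E}

instance : Zero (CP D) := ⟨⟨0⟩⟩
instance : Add (CP D) := ⟨fun a b => ⟨a.f + b.f⟩⟩
instance : Neg (CP D) := ⟨fun a => ⟨-a.f⟩⟩
instance : Sub (CP D) := ⟨fun a b => ⟨a.f - b.f⟩⟩
instance : SMul k (CP D) := ⟨fun r a => ⟨fun e => r • a.f e⟩⟩
instance : SMul ℕ (CP D) := ⟨fun r a => ⟨fun e => r • a.f e⟩⟩
instance : SMul ℤ (CP D) := ⟨fun r a => ⟨fun e => r • a.f e⟩⟩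

theorem inj : Function.Injective (CP.f : CP D → (E → S)) := fun _ _ h => CP.ext h

instance : AddCommGroup (CP D) :=
  Function.Injective.addCommGroup (CP.f : CP D → (E → S)) inj rfl (fun _ _ => rfl)
    (fun _ => rfl) (fun _ _ => rfl) (fun _ _ => rfl) (fun _ _ => rfl)

@[simp] theorem zero_f (e : E) : (0 : CP D).f e = 0 := rfl
@[simp] theorem add_f (a b : CP D) (e : E) : (a + b).f e = a.f e + b.f e := rfl
@[simp] theorem neg_f (a : CP D) (e : E) : (-a).f e = -a.f e := rfl
@[simp] theorem sub_f (a b : CP D) (e : E) : (a - b).f e = a.f e - b.f e := rfl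
@[simp] theorem smul_f (r : k) (a : CP D) (e : E) : (r • a).f e = r • a.f e := rfl

/-- the coefficients, as an additive map -/
def cf (D : CD k S E) (e : E) : CP D →+ S where
  toFun := fun a => a.f e
  map_zero' := rfl
  map_add' := fun _ _ => rfl

instance : Module k (CP D) where
  one_smul := fun a => by apply CP.ext; funext e; exact one_smul _ _
  mul_smul := fun r s a => by apply CP.ext; funext e; exact mul_smul _ _ _
  smul_zero := fun r => by apply CP.ext; funext e; exact smul_zero _
  smul_add := fun r a b => by apply CP.ext; funext e; exact smul_add _ _ _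
  add_smul := fun r s a => by apply CP.ext; funext e; exact add_smul _ _ _
  zero_smul := fun a => by apply CP.ext; funext e; exact zero_smul _ _

open Classical in
/-- the element `s * n e` -/
def sn (D : CD k S E) (s : S) (e : E) : CP D := ⟨fun h => if h = e then s else 0⟩

open Classical in
theorem sn_f (s : S) (e h : E) : (sn D s e).f h = if h = e then s else 0 := rfl

instance : One (CP D) := ⟨sn D 1 1⟩

theorem one_def : (1 : CP D) = sn D 1 1 := rfl

/-- the basis elements -/
def n (D : CD k S E) (e : E) : CP D := sn D 1 e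

theorem n_one : n D 1 = 1 := rfl

theorem sn_add (s t : S) (e : E) : sn D (s + t) e = sn D s e + sn D t e := by
  apply CP.ext; funext h
  rw [add_f, sn_f, sn_f, sn_f]
  by_cases hh : h = e
  · rw [if_pos hh, if_pos hh, if_pos hh]
  · rw [if_neg hh, if_neg hh, if_neg hh, add_zero]

theorem sn_zero (e : E) : sn D 0 e = 0 := by
  apply CP.ext; funext h
  rw [sn_f, zero_f]
  exact ite_self _

theorem sn_smul (r : k) (s : S) (e : E) : sn D (r • s) e = r • sn D s e := by
  apply CP.ext; funext h
  rw [smul_f, sn_f, sn_f]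
  by_cases hh : h = e
  · rw [if_pos hh, if_pos hh]
  · rw [if_neg hh, if_neg hh, smul_zero]

theorem c_inv_symm (e : E) : D.c e e⁻¹ = D.c e⁻¹ e := by
  have h := D.coc e e⁻¹ e
  rw [mul_inv_cancel, D.one_left, inv_mul_cancel, D.one_right, mul_one, mul_one] at h
  exact h

theorem sum_f {I : Type} (s : Finset I) (g : I → CP D) (e : E) :
    (∑ i ∈ s, g i).f e = ∑ i ∈ s, (g i).f e := by
  have h := map_sum (cf D e) g s
  exact h

end

section

variable {k S E : Type} [CommRing k] [CommRing S] [Algebra k S] [Group E] [Fintype E]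
  {D : CD k S E}

instance : Mul (CP D) :=
  ⟨fun a b => ⟨fun e => ∑ h, (D.c h (h⁻¹ * e) : k) • (a.f h * D.act h (b.f (h⁻¹ * e)))⟩⟩

theorem mul_f (a b : CP D) (e : E) :
    (a * b).f e = ∑ h, (D.c h (h⁻¹ * e) : k) • (a.f h * D.act h (b.f (h⁻¹ * e))) := rfl

theorem sum_sn (a : CP D) : ∑ e, sn D (a.f e) e = a := by
  apply CP.ext; funext h
  rw [sum_f]
  have : ∀ e ∈ Finset.univ, e ≠ h → (sn D (a.f e) e).f h = 0 := by
    intro e _ he
    rw [sn_f, if_neg (Ne.symm he)]
  rw [Finset.sum_eq_single h this (fun hh => absurd (Finset.mem_univ _) hh), sn_f, if_pos rfl]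

theorem sn_mul_f (s : S) (e : E) (b : CP D) (g : E) :
    (sn D s e * b).f g = (D.c e (e⁻¹ * g) : k) • (s * D.act e (b.f (e⁻¹ * g))) := by
  rw [mul_f]
  have : ∀ h ∈ Finset.univ, h ≠ e →
      (D.c h (h⁻¹ * g) : k) • ((sn D s e).f h * D.act h (b.f (h⁻¹ * g))) = 0 := by
    intro h _ hh
    rw [sn_f, if_neg hh, zero_mul, smul_zero]
  rw [Finset.sum_eq_single e this (fun hh => absurd (Finset.mem_univ _) hh), sn_f, if_pos rfl]

theorem sn_mul_sn (s t : S) (e g : E) :
    sn D s e * sn D t g = (D.c e g : k) • sn D (s * D.act e t) (e * g) := by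
  apply CP.ext; funext x
  rw [sn_mul_f, smul_f, sn_f, sn_f]
  by_cases hx : x = e * g
  · rw [if_pos hx, hx, inv_mul_cancel_left, if_pos rfl]
  · rw [if_neg hx, if_neg, map_zero, mul_zero, smul_zero, smul_zero]
    intro h
    apply hx
    rw [← h, mul_inv_cancel_left]

theorem add_mul' (a b d : CP D) : (a + b) * d = a * d + b * d := by
  apply CP.ext; funext e
  rw [add_f, mul_f, mul_f, mul_f, ← Finset.sum_add_distrib]
  apply Finset.sum_congr rfl
  intro h _
  rw [add_f, add_mul, smul_add]

theorem mul_add' (a b d : CP D) : a * (b + d) = a * b + a * d := by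
  apply CP.ext; funext e
  rw [add_f, mul_f, mul_f, mul_f, ← Finset.sum_add_distrib]
  apply Finset.sum_congr rfl
  intro h _
  rw [add_f, map_add, mul_add, smul_add]

theorem zero_mul' (a : CP D) : 0 * a = 0 := by
  apply CP.ext; funext e
  rw [mul_f, zero_f]
  apply Finset.sum_eq_zero
  intro h _
  rw [zero_f, zero_mul, smul_zero]

theorem mul_zero' (a : CP D) : a * 0 = 0 := by
  apply CP.ext; funext e
  rw [mul_f, zero_f]
  apply Finset.sum_eq_zero
  intro h _
  rw [zero_f, map_zero, mul_zero, smul_zero]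

theorem one_mul' (a : CP D) : 1 * a = a := by
  apply CP.ext; funext e
  rw [one_def, sn_mul_f, inv_one, one_mul, D.one_left, one_mul, map_one, Units.val_one, one_smul]
  rfl

theorem mul_one' (a : CP D) : a * 1 = a := by
  apply CP.ext; funext e
  rw [mul_f]
  have : ∀ h ∈ Finset.univ, h ≠ e →
      (D.c h (h⁻¹ * e) : k) • (a.f h * D.act h ((1 : CP D).f (h⁻¹ * e))) = 0 := by
    intro h _ hh
    rw [one_def, sn_f, if_neg, map_zero, mul_zero, smul_zero]
    intro h1
    exact hh (inv_mul_eq_one.mp h1)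
  rw [Finset.sum_eq_single e this (fun hh => absurd (Finset.mem_univ _) hh), inv_mul_cancel,
    D.one_right, one_def, sn_f, if_pos rfl, map_one, mul_one, Units.val_one, one_smul]

theorem mul_assoc' (a b d : CP D) : a * b * d = a * (b * d) := by
  apply CP.ext; funext e
  rw [mul_f, mul_f]
  have h1 : ∀ h : E, (D.c h (h⁻¹ * e) : k) • ((a * b).f h * D.act h (d.f (h⁻¹ * e)))
      = ∑ x, (D.c h (h⁻¹ * e) : k) • ((D.c x (x⁻¹ * h) : k) •
          (a.f x * D.act x (b.f (x⁻¹ * h))) * D.act h (d.f (h⁻¹ * e))) := by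
    intro h
    rw [mul_f, Finset.sum_mul, Finset.smul_sum]
  have h2 : ∀ x : E, (D.c x (x⁻¹ * e) : k) • (a.f x * D.act x ((b * d).f (x⁻¹ * e)))
      = ∑ h, (D.c x (x⁻¹ * e) : k) • (a.f x * D.act x ((D.c (x⁻¹ * h) (h⁻¹ * e) : k) •
          (b.f (x⁻¹ * h) * D.act (x⁻¹ * h) (d.f (h⁻¹ * e))))) := by
    intro x
    rw [mul_f, map_sum, Finset.mul_sum, Finset.smul_sum]
    have := Equiv.sum_comp (Equiv.mulLeft x⁻¹) (fun y => (D.c x (x⁻¹ * e) : k) •
      (a.f x * D.act x ((D.c y (y⁻¹ * (x⁻¹ * e)) : k) •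
        (b.f y * D.act y (d.f (y⁻¹ * (x⁻¹ * e)))))))
    rw [← this]
    apply Finset.sum_congr rfl
    intro h _
    have h3 : (x⁻¹ * h)⁻¹ * (x⁻¹ * e) = h⁻¹ * e := by group
    rw [Equiv.coe_mulLeft, h3]
  rw [Finset.sum_congr rfl (fun h _ => h1 h), Finset.sum_congr rfl (fun x _ => h2 x),
    Finset.sum_comm]
  apply Finset.sum_congr rfl
  intro x _
  apply Finset.sum_congr rfl
  intro h _
  have hc := D.coc x (x⁻¹ * h) (h⁻¹ * e)
  have h4 : x * (x⁻¹ * h) = h := by group
  have h5 : x⁻¹ * h * (h⁻¹ * e) = x⁻¹ * e := by group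
  rw [h4, h5] at hc
  have hc' : (D.c x (x⁻¹ * h) : k) * (D.c h (h⁻¹ * e) : k)
      = (D.c (x⁻¹ * h) (h⁻¹ * e) : k) * (D.c x (x⁻¹ * e) : k) := by
    rw [← Units.val_mul, ← Units.val_mul, hc]
  have hact : D.act x (D.act (x⁻¹ * h) (d.f (h⁻¹ * e))) = D.act h (d.f (h⁻¹ * e)) := by
    have := congrArg (fun u => u (d.f (h⁻¹ * e))) (map_mul D.act x (x⁻¹ * h))
    rw [h4] at this
    exact this.symm
  rw [map_smul, map_mul, hact, smul_mul_assoc, smul_smul, mul_smul_comm, smul_smul, mul_comm
    (D.c h (h⁻¹ * e) : k), hc', mul_comm (D.c (x⁻¹ * h) (h⁻¹ * e) : k), mul_assoc]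

instance : Ring (CP D) :=
  { (inferInstance : AddCommGroup (CP D)) with
    mul := (· * ·)
    one := 1
    mul_assoc := mul_assoc'
    one_mul := one_mul'
    mul_one := mul_one'
    left_distrib := mul_add'
    right_distrib := add_mul'
    zero_mul := zero_mul'
    mul_zero := mul_zero' }

theorem smul_mul' (r : k) (a b : CP D) : (r • a) * b = r • (a * b) := by
  apply CP.ext; funext e
  rw [smul_f, mul_f, mul_f, Finset.smul_sum]
  apply Finset.sum_congr rfl
  intro h _
  rw [smul_f, smul_mul_assoc, smul_comm]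

theorem mul_smul' (r : k) (a b : CP D) : a * (r • b) = r • (a * b) := by
  apply CP.ext; funext e
  rw [smul_f, mul_f, mul_f, Finset.smul_sum]
  apply Finset.sum_congr rfl
  intro h _
  rw [smul_f, map_smul, mul_smul_comm, smul_comm]

instance : Algebra k (CP D) := Algebra.ofModule smul_mul' mul_smul'

/-- the embedding of `S` -/
def iS (D : CD k S E) : S →ₐ[k] CP D :=
  AlgHom.ofLinearMap
    { toFun := fun s => sn D s 1
      map_add' := fun s t => sn_add s t 1
      map_smul' := fun r s => sn_smul r s 1 }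
    rfl
    (fun s t => by
      show sn D (s * t) 1 = sn D s 1 * sn D t 1
      rw [sn_mul_sn, D.one_left, map_one, mul_one, Units.val_one, one_smul]
      rfl)

theorem iS_apply (s : S) : iS D s = sn D s 1 := rfl

theorem n_mul_n (e g : E) : n D e * n D g = (D.c e g : k) • n D (e * g) := by
  unfold n
  rw [sn_mul_sn, map_one, mul_one]

theorem n_mul_iS (e : E) (s : S) : n D e * iS D s = iS D (D.act e s) * n D e := by
  unfold n
  rw [iS_apply, iS_apply, sn_mul_sn, sn_mul_sn, D.one_left, D.one_right, one_mul, mul_one,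
    one_mul, map_one, mul_one]

theorem iS_mul_n (s : S) (e : E) : iS D s * n D e = sn D s e := by
  unfold n
  rw [iS_apply, sn_mul_sn, map_one, mul_one, one_mul, D.one_left, Units.val_one, one_smul]

theorem sum_iS_n (a : CP D) : ∑ e, iS D (a.f e) * n D e = a := by
  rw [← sum_sn a]
  apply Finset.sum_congr rfl
  intro e _
  rw [iS_mul_n, sum_sn]

/-- the units `n e` -/
theorem n_mul_inv (e : E) : n D e * (((D.c e e⁻¹)⁻¹ : kˣ) : k) • n D e⁻¹ = 1 := by
  rw [mul_smul_comm, n_mul_n, mul_inv_cancel, smul_smul, Units.inv_mul, one_smul, n_one]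

theorem inv_mul_n (e : E) : (((D.c e e⁻¹)⁻¹ : kˣ) : k) • n D e⁻¹ * n D e = 1 := by
  rw [smul_mul_assoc, n_mul_n, inv_mul_cancel, smul_smul, c_inv_symm, Units.inv_mul, one_smul,
    n_one]

/-- the universal property -/
theorem lift {A : Type} [Ring A] [Algebra k A] (al : S →ₐ[k] A) (m : E → A) (m1 : m 1 = 1)
    (mm : ∀ e g, m e * m g = (D.c e g : k) • m (e * g))
    (ms : ∀ e s, m e * al s = al (D.act e s) * m e) :
    ∃ j : CP D →ₐ[k] A, (∀ s, j (iS D s) = al s) ∧ (∀ e, j (n D e) = m e) ∧
      ∀ a, j a = ∑ e, al (a.f e) * m e := by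
  classical
  let L : CP D →ₗ[k] A :=
    { toFun := fun a => ∑ e, al (a.f e) * m e
      map_add' := fun a b => by
        rw [← Finset.sum_add_distrib]
        apply Finset.sum_congr rfl
        intro e _
        rw [add_f, map_add, add_mul]
      map_smul' := fun r a => by
        rw [RingHom.id_apply, Finset.smul_sum]
        apply Finset.sum_congr rfl
        intro e _
        rw [smul_f, map_smul, smul_mul_assoc] }
  have Ls : ∀ s e, L (sn D s e) = al s * m e := by
    intro s e
    show ∑ h, al ((sn D s e).f h) * m h = _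
    have : ∀ h ∈ Finset.univ, h ≠ e → al ((sn D s e).f h) * m h = 0 := by
      intro h _ hh
      rw [sn_f, if_neg hh, map_zero, zero_mul]
    rw [Finset.sum_eq_single e this (fun hh => absurd (Finset.mem_univ _) hh), sn_f, if_pos rfl]
  have L1 : L 1 = 1 := by
    rw [one_def, Ls, m1, map_one, one_mul]
  have Lsm : ∀ s e t g, L (sn D s e * sn D t g) = L (sn D s e) * L (sn D t g) := by
    intro s e t g
    rw [sn_mul_sn, map_smul, Ls, Ls, Ls, mul_assoc, ← mul_assoc (m e), ms, mul_assoc (al _) (m e),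
      mm, map_mul, mul_smul_comm, mul_smul_comm, mul_assoc]
  have Lm : ∀ a b, L (a * b) = L a * L b := by
    intro a b
    have ha := sum_sn a
    have hb := sum_sn b
    rw [← ha, ← hb, Finset.sum_mul, map_sum, map_sum, Finset.sum_mul]
    apply Finset.sum_congr rfl
    intro e _
    rw [Finset.mul_sum, map_sum, map_sum, Finset.mul_sum]
    apply Finset.sum_congr rfl
    intro g _
    exact Lsm _ _ _ _
  refine ⟨AlgHom.ofLinearMap L L1 Lm, ?_, ?_, fun a => rfl⟩
  · intro s
    show L (sn D s 1) = _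
    rw [Ls, m1, mul_one]
  · intro e
    show L (sn D 1 e) = _
    rw [Ls, map_one, one_mul]

end

end CP

end Pool.Agent.PFD
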