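import Pool.Agent.PFC.DefsB1

/-!
# Squad PFD, block D1: the first order theorem (helper78)

`B → A` symmetric algebras over a commutative ring, the form of `A` restricts to the form of `B`,
the orthogonal complement `P` of `B` is a projective `B`-bimodule.  The complement is given by a
family `x r, y r` of its elements (`Net`).  All objects are explicit finite sums.
-/

open scoped BigOperators

noncomputable section

namespace Pool.Agent.PFD

open Pool.Agent.PFC.B1

/-- Relative Frobenius system of `A` over `B` with respect to the bimodule projection `pr`. -/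
structure RF (R B A N : Type) [CommRing R] [Ring B] [Algebra R B] [Ring A] [Algebra R A]
    [Fintype N] (j : B →ₐ[R] A) (pr : A →ₗ[R] B) where
  x : N → A
  y : N → A
  e1 : ∀ a, ∑ k, x k * j (pr (y k * a)) = a
  e2 : ∀ a, ∑ k, j (pr (a * x k)) * y k = a

/-- the relative trace -/
def RF.rt {R B A N : Type} [CommRing R] [Ring B] [Algebra R B] [Ring A] [Algebra R A]
    [Fintype N] {j : B →ₐ[R] A} {pr : A →ₗ[R] B} (s : RF R B A N j pr) (a : A) : A :=
  ∑ k, s.x k * a * s.y k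

/-- Bilinear functions. -/
structure Bil (R : Type) {M M' X : Type} [CommRing R] [AddCommGroup M] [Module R M]
    [AddCommGroup M'] [Module R M'] [AddCommGroup X] [Module R X] (F : M → M' → X) : Prop where
  a1 : ∀ a a' b, F (a + a') b = F a b + F a' b
  a2 : ∀ a b b', F a (b + b') = F a b + F a b'
  s1 : ∀ (r : R) a b, F (r • a) b = r • F a b
  s2 : ∀ (r : R) a b, F a (r • b) = r • F a b

/-- Network data: symmetric algebras `B → A` (Frobenius systems `c`, `d`), the orthogonal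
projection `pr`, and a family `x r, y r` in the complement `P` of `B` such that
`∑ b_i x_r b_l' ⊗ b_l y_r b_i'` is the Casimir element of `P` (for `x, y` and for `y, x`). -/
structure Net (R B A I J N : Type) [CommRing R] [Ring B] [Algebra R B] [Ring A] [Algebra R A]
    [Fintype I] [Fintype J] [Fintype N] where
  c : FS R B I
  d : FS R A J
  cs : ∀ x y, c.lam (x * y) = c.lam (y * x)
  ds : ∀ x y, d.lam (x * y) = d.lam (y * x)
  j : B →ₐ[R] A
  pr : A →ₗ[R] B
  pr_j : ∀ b, pr (j b) = b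
  pr_l : ∀ b a, pr (j b * a) = b * pr a
  pr_r : ∀ a b, pr (a * j b) = pr a * b
  ort : ∀ a, d.lam a = c.lam (pr a)
  x : N → A
  y : N → A
  px : ∀ r, pr (x r) = 0
  py : ∀ r, pr (y r) = 0
  cx : ∀ a, ∑ r, ∑ i, ∑ l, d.lam (j (c.b l) * y r * j (c.b' i) * a) •
    (j (c.b i) * x r * j (c.b' l)) = a - j (pr a)
  cy : ∀ a, ∑ r, ∑ i, ∑ l, d.lam (j (c.b l) * x r * j (c.b' i) * a) •
    (j (c.b i) * y r * j (c.b' l)) = a - j (pr a)

section
variable {R B A I J N : Type} [CommRing R] [Ring B] [Algebra R B] [Ring A] [Algebra R A]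
    [Fintype I] [Fintype J] [Fintype N]

/-- the flipped family -/
def Net.op (D : Net R B A I J N) : Net R B A I J N where
  c := D.c
  d := D.d
  cs := D.cs
  ds := D.ds
  j := D.j
  pr := D.pr
  pr_j := D.pr_j
  pr_l := D.pr_l
  pr_r := D.pr_r
  ort := D.ort
  x := D.y
  y := D.x
  px := D.py
  py := D.px
  cx := D.cy
  cy := D.cx

/-- the element `b_i` in `A` -/
def Net.u (D : Net R B A I J N) (i : I) : A := D.j (D.c.b i)

/-- the element `b_i'` in `A` -/
def Net.u' (D : Net R B A I J N) (i : I) : A := D.j (D.c.b' i)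

/-- the form of `A` -/
def Net.T (D : Net R B A I J N) (a : A) : R := D.d.lam a

/-- the weight `t (f1 a1 * f2 a2 * f3 a3 * f4 a4)` -/
def Net.w4 (D : Net R B A I J N) (f1 f2 f3 f4 : B →ₗ[R] B) (a1 a2 a3 a4 : B) : R :=
  D.c.lam (f1 a1 * f2 a2 * f3 a3 * f4 a4)

/-- the 4-gon with walls `X, X'` and `Y, Y'` -/
def Net.H4 (D : Net R B A I J N) (X X' Y Y' : N → A) (f1 f2 f3 f4 : B →ₗ[R] B) : R :=
  ∑ r, ∑ s, ∑ i1, ∑ i2, ∑ i3, ∑ i4,
    D.w4 f1 f2 f3 f4 (D.c.b' i1) (D.c.b' i2) (D.c.b' i3) (D.c.b' i4) *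
      D.T (X r * D.u i1 * Y s * D.u i2 * X' r * D.u i3 * Y' s * D.u i4)

/-- the part of the 4-gon `H4 x y x y` which belongs to `B` -/
def Net.GB (D : Net R B A I J N) (f1 f2 f3 f4 : B →ₗ[R] B) : R :=
  ∑ r, ∑ s, ∑ i1, ∑ i2, ∑ i3, ∑ i4, ∑ k,
    D.w4 f1 f2 f3 f4 (D.c.b' i1) (D.c.b' i2) (D.c.b' i3) (D.c.b' i4) *
      (D.T (D.x r * D.u i1 * D.x s * D.u i2 * D.u k) *
        D.T (D.u' k * D.y r * D.u i3 * D.y s * D.u i4))

/-- the hexagon; the arguments of the weight are `x1', y3', x2', y1', x3', y2'` -/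
def Net.G6 (D : Net R B A I J N) (W : B → B → B → B → B → B → R) : R :=
  ∑ r, ∑ s, ∑ m, ∑ i1, ∑ i2, ∑ i3, ∑ k1, ∑ k2, ∑ k3,
    W (D.c.b' i1) (D.c.b' k3) (D.c.b' i2) (D.c.b' k1) (D.c.b' i3) (D.c.b' k2) *
      (D.T (D.x r * D.u i1 * D.x s * D.u i2 * D.x m * D.u i3) *
        D.T (D.y r * D.u k1 * D.y s * D.u k2 * D.y m * D.u k3))

/-- the weight of the hexagon -/
def Net.w6 (D : Net R B A I J N) (f1 f2 f3 f4 f5 f6 : B →ₗ[R] B) (a1 a2 a3 a4 a5 a6 : B) : R :=
  D.c.lam (f1 a1 * f2 a2 * f3 a3 * f4 a4 * f5 a5 * f6 a6)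

/-- the trace of `z` on `P^B` -/
def Net.E (D : Net R B A I J N) (z : B) : R :=
  ∑ r, ∑ i, ∑ k, D.T (D.u' k * D.y r * D.u i * D.u k * D.x r * D.j z * D.u' i)

/-- the right connection for which `y` is flat: `b x_r b' ⊗ b' y_r v(b)` -/
def Net.Ry (D : Net R B A I J N) (v : B →ₗ[R] B) (a : A) : A :=
  ∑ s, ∑ i, ∑ l, D.T (D.u i * D.x s * D.u l * a) • (D.u' l * D.y s * D.j (v (D.c.b' i)))

/-- the left connection for which `y` is flat -/
def Net.Ly (D : Net R B A I J N) (v : B →ₗ[R] B) (a : A) : A :=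
  ∑ s, ∑ i, ∑ l, D.T (D.u i * D.x s * D.u l * a) • (D.j (v (D.c.b' l)) * D.y s * D.u' i)

/-- the 4-gon with a bimodule map `de` inserted -/
def Net.N4 (D : Net R B A I J N) (X X' : N → A) (de : A → A) : R :=
  ∑ r, ∑ i, ∑ p, D.T (X r * D.d.b p * X' r * D.u i * de (D.d.b' p) * D.u' i)

/-- A derivation `v` of `B` with divergence `De`. -/
structure Net.Der (D : Net R B A I J N) (v : B →ₗ[R] B) (De : B) : Prop where
  der : ∀ a b, v (a * b) = v a * b + a * v b
  cen : ∀ a, De * a = a * De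
  div : ∀ a, D.c.lam (v a) = - D.c.lam (a * De)

end

end Pool.Agent.PFD
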