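import Pool.Agent.PFC.StmtsB1

/-!
Squad PFD, part D2 (helper51): lifting over a complete discrete valuation ring.
Definitions.  The basic notions (`FS`, `Rp`, `Split`, `Sep`, `BiM`, `Bal`, `mu`, `as`) are those of
`PFC/DefsB1.lean`, `PFC/StmtsB1.lean`.
-/

namespace Pool.Agent.PFD.D2

open MulOpposite
open Pool.Agent.PFC.B1 (BiM)

/-- `R` is complete for the powers of the nonzero divisor `π`, local, with residue map `κ`. -/
structure Cdv (R F : Type) [CommRing R] [Field F] where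
  π : R
  κ : R →+* F
  surj : Function.Surjective κ
  ker : ∀ r, κ r = 0 ↔ ∃ s, r = π * s
  reg : ∀ r, π * r = 0 → r = 0
  loc : ∀ r, κ r ≠ 0 → IsUnit r
  sep : ∀ r, (∀ n : ℕ, ∃ s, r = π ^ n * s) → r = 0
  cpl : ∀ u : ℕ → R, ∃ r, ∀ n : ℕ, ∃ s, r - ∑ i ∈ Finset.range n, π ^ i * u i = π ^ n * s

section
variable {R Γ X N : Type} [CommRing R] [Ring Γ] [Algebra R Γ] [AddCommGroup X] [Module R X]
  [AddCommGroup N] [Module R N]

/-- `Γ` as a bimodule over itself -/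
def regB (R Γ : Type) [CommRing R] [Ring Γ] [Algebra R Γ] : BiM R Γ Γ where
  lm := Algebra.lmul R Γ
  rm :=
    { toFun := fun a => LinearMap.mulRight R a.unop
      map_one' := by ext x; simp
      map_mul' := fun a b => by
        ext x
        show x * (a * b).unop = x * b.unop * a.unop
        rw [unop_mul, mul_assoc]
      map_zero' := by ext x; simp
      map_add' := fun a b => by ext x; simp [mul_add]
      commutes' := fun r => by
        ext x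
        show x * (algebraMap R Γᵐᵒᵖ r).unop = r • x
        rw [MulOpposite.algebraMap_apply, unop_op, ← Algebra.commutes, Algebra.smul_def] }
  comm := fun a b x => by
    show a * (x * b.unop) = a * x * b.unop
    rw [mul_assoc]

/-- bimodule homomorphisms -/
def BHom (BX : BiM R Γ X) (BN : BiM R Γ N) (g : X →ₗ[R] N) : Prop :=
  (∀ γ x, g (BX.lm γ x) = BN.lm γ (g x)) ∧ (∀ γ x, g (BX.rm γ x) = BN.rm γ (g x))

/-- balanced bilinear maps `X × X → N` -/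
def Bal2 (BX : BiM R Γ X) (BN : BiM R Γ N) (β : X →ₗ[R] X →ₗ[R] N) : Prop :=
  (∀ γ x y, β (BX.lm γ x) y = BN.lm γ (β x y)) ∧
  (∀ γ x y, β (BX.rm (op γ) x) y = β x (BX.lm γ y)) ∧
  (∀ γ x y, β x (BX.rm γ y) = BN.rm γ (β x y))

/-- bimodule homomorphisms modulo `p` -/
def BHomP (p : R) (BX : BiM R Γ X) (BN : BiM R Γ N) (g : X →ₗ[R] N) : Prop :=
  (∀ γ x, ∃ n, g (BX.lm γ x) - BN.lm γ (g x) = p • n) ∧
  (∀ γ x, ∃ n, g (BX.rm γ x) - BN.rm γ (g x) = p • n)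

/-- balanced bilinear maps modulo `p` -/
def Bal2P (p : R) (BX : BiM R Γ X) (BN : BiM R Γ N) (β : X →ₗ[R] X →ₗ[R] N) : Prop :=
  (∀ γ x y, ∃ n, β (BX.lm γ x) y - BN.lm γ (β x y) = p • n) ∧
  (∀ γ x y, ∃ n, β (BX.rm (op γ) x) y - β x (BX.lm γ y) = p • n) ∧
  (∀ γ x y, ∃ n, β x (BX.rm γ y) - BN.rm γ (β x y) = p • n)

/-- bimodule homomorphisms modulo `p` lift -/
def Lif1 (p : R) (BX : BiM R Γ X) (BN : BiM R Γ N) : Prop :=
  ∀ g : X →ₗ[R] N, BHomP p BX BN g → ∃ g' : X →ₗ[R] N, BHom BX BN g' ∧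
    ∀ x, ∃ n, g' x - g x = p • n

/-- balanced bilinear maps modulo `p` lift -/
def Lif2 (p : R) (BX : BiM R Γ X) (BN : BiM R Γ N) : Prop :=
  ∀ β : X →ₗ[R] X →ₗ[R] N, Bal2P p BX BN β → ∃ β' : X →ₗ[R] X →ₗ[R] N, Bal2 BX BN β' ∧
    ∀ x y, ∃ n, β' x y - β x y = p • n

/-- the liftable bimodules: bimodule homomorphisms `X → X` and balanced maps `X × X → X`,
`X × X → Γ` lift -/
structure Lft (p : R) (BX : BiM R Γ X) : Prop where
  l1 : Lif1 p BX BX
  l2 : Lif2 p BX BX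
  l3 : Lif2 p BX (regB R Γ)

end

/-- the residue level: `A` is killed by `π`; `e` the projector onto the image of `Γ`; `ker e` is a
retract (by `i0`, `p0`) of the reduction `X0` of the bimodule `X`. -/
structure ResX {R F : Type} (Γ A X X0 : Type) [CommRing R] [Field F] (c : Cdv R F) [Ring Γ]
    [Algebra R Γ] [Ring A] [Algebra R A] [AddCommGroup X] [Module R X] [AddCommGroup X0]
    [Module R X0] (BX : BiM R Γ X) where
  j : Γ →ₐ[R] A
  hA : algebraMap R A c.π = 0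
  hj : ∀ γ, j γ = 0 → ∃ γ', γ = c.π • γ'
  e : A →ₗ[R] A
  e1 : ∀ x, ∃ γ, e x = j γ
  e2 : ∀ γ, e (j γ) = j γ
  e3 : ∀ γ x, e (j γ * x) = j γ * e x
  e4 : ∀ γ x, e (x * j γ) = e x * j γ
  B0 : BiM R Γ X0
  s : X →ₗ[R] X0
  s1 : BHom BX B0 s
  s2 : Function.Surjective s
  s3 : ∀ x, s x = 0 ↔ ∃ y, x = c.π • y
  i0 : A →ₗ[R] X0
  i1 : ∀ γ x, i0 (j γ * x) = B0.lm γ (i0 x)
  i2 : ∀ γ x, i0 (x * j γ) = B0.rm (op γ) (i0 x)
  p0 : X0 →ₗ[R] A
  p1 : ∀ γ x, p0 (B0.lm γ x) = j γ * p0 x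
  p2 : ∀ γ x, p0 (B0.rm (op γ) x) = p0 x * j γ
  ip : ∀ x, p0 (i0 x) = x - e x

/-- a lift `P` of the bimodule `ker e`, a retract of `X` -/
structure PLX {R F : Type} {Γ A X X0 : Type} (P : Type) [CommRing R] [Field F] {c : Cdv R F}
    [Ring Γ] [Algebra R Γ] [Ring A] [Algebra R A] [AddCommGroup X] [Module R X]
    [AddCommGroup X0] [Module R X0] {BX : BiM R Γ X} (D : ResX Γ A X X0 c BX)
    [AddCommGroup P] [Module R P] extends BiM R Γ P where
  q : P →ₗ[R] A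
  q1 : ∀ γ x, q (lm γ x) = D.j γ * q x
  q2 : ∀ γ x, q (rm (op γ) x) = q x * D.j γ
  q3 : ∀ x, D.e (q x) = 0
  q4 : ∀ y, D.e y = 0 → ∃ x, q x = y
  q5 : ∀ x, q x = 0 ↔ ∃ y, x = c.π • y
  i : P →ₗ[R] X
  i1 : BHom toBiM BX i
  p : X →ₗ[R] P
  p1 : BHom BX toBiM p
  pi : p ∘ₗ i = LinearMap.id

/-- the map `Γ × P → A` -/
noncomputable def PLX.qq {R F : Type} {Γ A X X0 P : Type} [CommRing R] [Field F] {c : Cdv R F}
    [Ring Γ] [Algebra R Γ] [Ring A] [Algebra R A] [AddCommGroup X] [Module R X]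
    [AddCommGroup X0] [Module R X0] {BX : BiM R Γ X} {D : ResX Γ A X X0 c BX}
    [AddCommGroup P] [Module R P] (L : PLX P D) (x : Γ × P) : A :=
  D.j x.1 + L.q x.2

/-- the special fibre map `q : A' → A` of an `R`-algebra onto an `F`-algebra -/
structure FibG {R F : Type} (A' A : Type) [CommRing R] [Field F] (c : Cdv R F) [Ring A']
    [Algebra R A'] [Ring A] [Algebra F A] where
  q : A' →+* A
  sc : ∀ r : R, q (algebraMap R A' r) = algebraMap F A (c.κ r)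
  surj : Function.Surjective q
  ker : ∀ x, q x = 0 → ∃ y, x = c.π • y

/-- the special fibre map `s : X → X0` of bimodules -/
structure FibM {R F : Type} {Γ Γ0 : Type} (X X0 : Type) [CommRing R] [Field F] {c : Cdv R F}
    [Ring Γ] [Algebra R Γ] [Ring Γ0] [Algebra F Γ0] (f : FibG Γ Γ0 c) [AddCommGroup X]
    [Module R X] [AddCommGroup X0] [Module F X0] (BX : BiM R Γ X) (B0 : BiM F Γ0 X0) where
  s : X →+ X0
  sc : ∀ (r : R) x, s (r • x) = c.κ r • s x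
  lm : ∀ γ x, s (BX.lm γ x) = B0.lm (f.q γ) (s x)
  rm : ∀ γ x, s (BX.rm (op γ) x) = B0.rm (op (f.q γ)) (s x)
  surj : Function.Surjective s
  ker : ∀ x, s x = 0 → ∃ y, x = c.π • y

/-- `A = Γ ⊕ P` with `P` (the kernel of `pr`) a retract of the bimodule `X` -/
structure SplitX {R Γ X : Type} (A : Type) [CommRing R] [Ring Γ] [Algebra R Γ]
    [AddCommGroup X] [Module R X] (BX : BiM R Γ X) [Ring A] [Algebra R A] where
  j : Γ →ₐ[R] A
  pr : A →ₗ[R] Γ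
  pr_j : ∀ γ, pr (j γ) = γ
  pr_l : ∀ γ x, pr (j γ * x) = γ * pr x
  pr_r : ∀ x γ, pr (x * j γ) = pr x * γ
  i : A →ₗ[R] X
  i1 : ∀ γ x, i (j γ * x) = BX.lm γ (i x)
  i2 : ∀ γ x, i (x * j γ) = BX.rm (op γ) (i x)
  p : X →ₗ[R] A
  p1 : ∀ γ x, p (BX.lm γ x) = j γ * p x
  p2 : ∀ γ x, p (BX.rm (op γ) x) = p x * j γ
  ip : ∀ x, p (i x) = x - j (pr x)

/-- the deformation data -/
structure DfmX {R F : Type} {Γ Γ0 X X0 : Type} (A A' : Type) [CommRing R] [Field F]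
    (c : Cdv R F) [Ring Γ] [Algebra R Γ] [Ring Γ0] [Algebra F Γ0] [Ring A] [Algebra F A]
    [Ring A'] [Algebra R A'] [AddCommGroup X] [Module R X] [AddCommGroup X0] [Module F X0]
    (f : FibG Γ Γ0 c) (BX : BiM R Γ X) (B0 : BiM F Γ0 X0) (sp0 : SplitX A B0) where
  sp : SplitX A' BX
  fb : FibG A' A c
  cj : ∀ γ, fb.q (sp.j γ) = sp0.j (f.q γ)
  cp : ∀ x, sp0.pr (fb.q x) = f.q (sp.pr x)

end Pool.Agent.PFD.D2
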