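import Pool.Agent.PFD.DefsCP
import Pool.Agent.PFD.DefsD2
import Pool.Agent.PFC.DefsP2

/-!
# Squad PFD, block D3 (helper18): the order `B1` over `R` which lifts `F_c[V : E]`

`Og ℓ c`: the base: `R` complete discrete valuation ring of characteristic `0` with residue field
`F` of characteristic `ℓ`, with a multiplicative section `F → R`.

`CtW ℓ φ Va W`: `V` abelian `ℓ`-group, `E` an `ℓ'`-group, `V = Va × W` with `E`-stable `Va ≠ 1`, `W`, and `E`
acts freely on `Va - 1`.

`D0`: the datum of the twisted group algebra `F_c[V : E] = CP (D0 φ z)`.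

`BO`: the properties of the order `B1` (output of D3).

`RFS`, `Crd`, `GrL`, `SO`: intermediate data (relative Frobenius systems, coordinates of `F Va`, its
graded lift `R1`, the lift `R1 [W]` of `F V`).
-/

open scoped BigOperators

noncomputable section

namespace Pool.Agent.PFD

open MvPolynomial

/-- The base ring. -/
structure Og {R F : Type} [CommRing R] [Field F] (ℓ : ℕ) (c : D2.Cdv R F) where
  pr : ℓ.Prime
  ch : CharP F ℓ
  ch0 : CharZero R
  dom : IsDomain R
  pid : IsPrincipalIdealRing R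
  τ : F →* R
  τκ : ∀ a, c.κ (τ a) = a

/-- The groups. -/
structure CtW {V E : Type} [CommGroup V] [Group E] (ℓ : ℕ) (φ : E →* MulAut V)
    (Va W : Subgroup V) : Prop where
  pr : ℓ.Prime
  pg : IsPGroup ℓ V
  fin : Finite V
  cop : ¬ ℓ ∣ Nat.card E
  sa : ∀ e, ∀ u ∈ Va, φ e u ∈ Va
  sw : ∀ e, ∀ u ∈ W, φ e u ∈ W
  dis : Va ⊓ W = ⊥
  sup : Va ⊔ W = ⊤
  nt : ∃ u ∈ Va, u ≠ 1
  free : ∀ e, ∀ u ∈ Va, φ e u = u → e = 1 ∨ u = 1

/-- `E` acts on the group algebra `k V` -/
def acV (k : Type) {V E : Type} [CommRing k] [CommGroup V] [Group E] (φ : E →* MulAut V) :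
    E →* (MonoidAlgebra k V ≃ₐ[k] MonoidAlgebra k V) where
  toFun := fun e => MonoidAlgebra.domCongr k k (φ e)
  map_one' := by
    apply AlgEquiv.ext
    intro x
    induction x using MonoidAlgebra.induction_linear with
    | zero => simp
    | add f g hf hg => rw [map_add, hf, hg, map_add]
    | single v r => simp
  map_mul' := fun e g => by
    apply AlgEquiv.ext
    intro x
    induction x using MonoidAlgebra.induction_linear with
    | zero => simp
    | add f g hf hg => rw [map_add, hf, hg, map_add]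
    | single v r => simp

theorem acV_single (k : Type) {V E : Type} [CommRing k] [CommGroup V] [Group E]
    (φ : E →* MulAut V) (e : E) (u : V) (r : k) :
    acV k φ e (MonoidAlgebra.single u r) = MonoidAlgebra.single (φ e u) r := by
  show MonoidAlgebra.domCongr k k (φ e) _ = _
  simp

/-- normalised 2-cocycles of `E` with values in the units of `k` -/
structure Coc (k E : Type) [CommRing k] [Group E] where
  c : E → E → kˣ
  one_left : ∀ e, c 1 e = 1
  one_right : ∀ e, c e 1 = 1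
  coc : ∀ e f g, c e f * c (e * f) g = c f g * c e (f * g)

/-- the datum of the twisted group algebra `F_c[V : E]` -/
def D0 {F V E : Type} [CommRing F] [CommGroup V] [Group E] (φ : E →* MulAut V) (c : Coc F E) :
    CD F (MonoidAlgebra F V) E where
  act := acV F φ
  c := c.c
  one_left := c.one_left
  one_right := c.one_right
  coc := c.coc

/-- the element of `F_c[V : E]` which belongs to `v` in `V` -/
def vv {F V E : Type} [CommRing F] [CommGroup V] [Group E] [Fintype E] (φ : E →* MulAut V)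
    (c : Coc F E) : V →* CP (D0 φ c) :=
  (CP.iS (D0 φ c)).toMonoidHom.comp (MonoidAlgebra.of F V)

/-- the lift of the cocycle -/
def Og.up {R F E : Type} [CommRing R] [Field F] [Group E] {ℓ : ℕ} {c : D2.Cdv R F}
    (o : Og ℓ c) (z : Coc F E) : Coc R E where
  c := fun e f => Units.map o.τ (z.c e f)
  one_left := fun e => by rw [z.one_left, map_one]
  one_right := fun e => by rw [z.one_right, map_one]
  coc := fun e f g => by rw [← map_mul, ← map_mul, z.coc]

/-- The order `Γ` over `R` which lifts `F_c[V : E]`. -/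
structure BO {R F V E : Type} (Γ : Type) [CommRing R] [Field F] [CommGroup V] [Group E]
    [Fintype E] {ℓ : ℕ} {c : D2.Cdv R F} (o : Og ℓ c) (φ : E →* MulAut V) (W : Subgroup V)
    (z : Coc F E) [Ring Γ] [Algebra R Γ] where
  /-- the special fibre -/
  fb : D2.FibG Γ (CP (D0 φ z)) c
  /-- the subgroup `W` -/
  om : W →* Γ
  om_q : ∀ w : W, fb.q (om w) = vv φ z (w : V)
  /-- the units `n e` -/
  n : E → Γ
  n_one : n 1 = 1
  n_mul : ∀ e g, n e * n g = o.τ (z.c e g : F) • n (e * g)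
  n_om : ∀ e (w w' : W), (w' : V) = φ e w → n e * om w = om w' * n e
  n_q : ∀ e, fb.q (n e) = CP.n (D0 φ z) e
  /-- the Frobenius system `x i * w`, `w⁻¹ * x' i` -/
  I : Type
  fi : Fintype I
  fw : Fintype W
  x : I → Γ
  x' : I → Γ
  t : Γ →ₗ[R] R
  ts : ∀ a b, t (a * b) = t (b * a)
  t1 : ∀ a, ∑ i, ∑ w, t (om w⁻¹ * x' i * a) • (x i * om w) = a
  t2 : ∀ a, ∑ i, ∑ w, t (a * (x i * om w)) • (om w⁻¹ * x' i) = a
  /-- the basis `x i * w`, and `om w` normalises it -/
  bs : Module.Basis (I × W) R Γ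
  bs_eq : ∀ i w, bs (i, w) = x i * om w
  ph : I → W →* W
  phb : ∀ i, Function.Bijective (ph i)
  nrm : ∀ i w, om w * x i = x i * om (ph i w)
  /-- the derivation -/
  v : Γ →ₗ[R] Γ
  v_mul : ∀ a b, v (a * b) = v a * b + a * v b
  v_om : ∀ w, v (om w) = 0
  v_n : ∀ e, v (n e) = 0
  wt : ℕ
  wt_pos : 0 < wt
  t_v : ∀ a, t (v a) = (wt : R) * t a
  /-- the nilpotent ideal -/
  P : Submodule R Γ
  P_l : ∀ a, ∀ y ∈ P, a * y ∈ P
  P_r : ∀ a, ∀ y ∈ P, y * a ∈ P
  P_v : ∀ a, v a ∈ P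
  N : ℕ
  P_nil : ∀ y : ℕ → Γ, (∀ i, y i ∈ P) → ((List.range N).map y).prod = 0
  /-- the centre of the special fibre lifts -/
  ctr : ∀ a ∈ Subalgebra.center F (CP (D0 φ z)), ∃ b ∈ Subalgebra.center R Γ, fb.q b = a

open Classical in
/-- Relative Frobenius system over the subgroup `W` with its basis. -/
structure RFS (R Γ W I : Type) [CommRing R] [Ring Γ] [Algebra R Γ] [Group W] [Fintype W]
    [Fintype I] where
  t : Γ →ₗ[R] R
  ts : ∀ x y, t (x * y) = t (y * x)
  om : W →* Γ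
  x : I → Γ
  x' : I → Γ
  t1 : ∀ a, ∑ i, ∑ w, t (om w⁻¹ * x' i * a) • (x i * om w) = a
  t2 : ∀ a, ∑ i, ∑ w, t (a * (x i * om w)) • (om w⁻¹ * x' i) = a
  du : ∀ i j u v, t (om u⁻¹ * x' i * (x j * om v)) = if i = j ∧ u = v then 1 else 0
  ph : I → W →* W
  phb : ∀ i, Function.Bijective (ph i)
  nrm : ∀ i w, om w * x i = x i * om (ph i w)

/-! ### Intermediate data -/

/-- Coordinates of `F V` (`V` an abelian `ℓ`-group): blocks `b` with exponents `ℓ ^ a b`, `E` acts
linearly on the span of the `x ⟨b, j⟩` for every block `b`. -/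
structure Crd (ℓ : ℕ) (F V E B : Type) [Field F] [CommGroup V] [Group E] (φ : E →* MulAut V)
    (J : B → Type) [∀ b, Fintype (J b)] [∀ b, DecidableEq (J b)] [Fintype B] where
  a : B → ℕ
  a1 : ∀ b, 1 ≤ a b
  D : ∀ b, E →* Matrix (J b) (J b) F
  x : (Σ b, J b) → MonoidAlgebra F V
  x0 : ∀ i, x i ^ ℓ ^ a i.1 = 0
  xe : ∀ e b j, acV F φ e (x ⟨b, j⟩) = ∑ k, D b e k j • x ⟨b, k⟩
  bs : Module.Basis (∀ i : Σ b, J b, Fin (ℓ ^ a i.1)) F (MonoidAlgebra F V)
  bs_eq : ∀ α, bs α = ∏ i, x i ^ (α i : ℕ)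

/-- the linear action on polynomials -/
def Lb {R E B : Type} [CommRing R] [Group E] {J : B → Type} [∀ b, Fintype (J b)]
    [∀ b, DecidableEq (J b)] (D : ∀ b, E →* Matrix (J b) (J b) R) (e : E) :
    MvPolynomial (Σ b, J b) R →ₐ[R] MvPolynomial (Σ b, J b) R :=
  aeval (fun i => ∑ k : J i.1, C (D i.1 e k i.2) * X ⟨i.1, k⟩)

open Classical in
/-- The graded lift `R1` of `F V`: a commutative `R`-algebra with an action of `E`, reduction
`rho`, dual bases `y`, `y'` for the form `t`, derivation `v`, nilpotent ideal `P`, which is the kernel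
of `eps`, socle element `sg`. -/
structure GrL {R F V E : Type} [CommRing R] [Field F] [CommGroup V] [Fintype V] [Group E]
    (c : D2.Cdv R F) (φ : E →* MulAut V) (R1 : Type) [CommRing R1] [Algebra R R1] where
  act : E →* (R1 ≃ₐ[R] R1)
  rho : D2.FibG R1 (MonoidAlgebra F V) c
  rho_act : ∀ e x, rho.q (act e x) = acV F φ e (rho.q x)
  J : Type
  fJ : Fintype J
  y : J → R1
  y' : J → R1
  t : R1 →ₗ[R] R
  h1 : ∀ a, ∑ j, t (y' j * a) • y j = a
  du : ∀ i j, t (y' i * y j) = if i = j then 1 else 0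
  t_act : ∀ e x, t (act e x) = t x
  v : R1 →ₗ[R] R1
  v_mul : ∀ a b, v (a * b) = v a * b + a * v b
  v_act : ∀ e x, v (act e x) = act e (v x)
  wt : ℕ
  wt_pos : 0 < wt
  t_v : ∀ a, t (v a) = (wt : R) * t a
  eps : R1 →ₐ[R] R
  eps_act : ∀ e x, eps (act e x) = eps x
  eps_v : ∀ x, eps (v x) = 0
  N : ℕ
  eps_nil : ∀ y : Fin N → R1, (∀ i, eps (y i) = 0) → ∏ i, y i = 0
  sg : R1
  sg_eps : ∀ x, x * sg = eps x • sg
  sg_q : rho.q sg = ∑ u : V, MonoidAlgebra.of F V u

open Classical in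
/-- The lift `S` of `F V` for `V = Va × W`. -/
structure SO {R F V E : Type} [CommRing R] [Field F] [CommGroup V] [Group E]
    (c : D2.Cdv R F) (φ : E →* MulAut V) (W : Subgroup V) [Fintype W] (S : Type) [CommRing S]
    [Algebra R S] where
  act : E →* (S ≃ₐ[R] S)
  fb : D2.FibG S (MonoidAlgebra F V) c
  fb_act : ∀ e s, fb.q (act e s) = acV F φ e (fb.q s)
  om : W →* S
  om_q : ∀ w : W, fb.q (om w) = MonoidAlgebra.of F V (w : V)
  om_act : ∀ e (w w' : W), (w' : V) = φ e w → act e (om w) = om w'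
  J : Type
  fJ : Fintype J
  y : J → S
  y' : J → S
  t : S →ₗ[R] R
  h1 : ∀ a, ∑ j, ∑ w, t (om w⁻¹ * y' j * a) • (y j * om w) = a
  du : ∀ i j u v, t (om u⁻¹ * y' i * (y j * om v)) = if i = j ∧ u = v then 1 else 0
  t_act : ∀ e x, t (act e x) = t x
  v : S →ₗ[R] S
  v_mul : ∀ a b, v (a * b) = v a * b + a * v b
  v_om : ∀ w, v (om w) = 0
  v_act : ∀ e x, v (act e x) = act e (v x)
  wt : ℕ
  wt_pos : 0 < wt
  t_v : ∀ a, t (v a) = (wt : R) * t a
  P : Ideal S
  P_v : ∀ a, v a ∈ P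
  P_act : ∀ e, ∀ y ∈ P, act e y ∈ P
  N : ℕ
  P_nil : P ^ N = ⊥
  ann : ∀ e, ∀ z : MonoidAlgebra F V,
    (∀ u : V, MonoidAlgebra.of F V (φ e u) * z = MonoidAlgebra.of F V u * z) →
    ∃ y : S, fb.q y = z ∧ ∀ s, act e s * y = s * y

end Pool.Agent.PFD
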