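import Pool.Agent.PFD.DefsD1
import Pool.Agent.PFD.DefsD2b
import Pool.Agent.PFD.DefsD3

/-!
Squad PFD, parts D2b (second half) and D4 (helper36).

`WFr`: the `W`-relative form of the complement of `Γ` in `A` (as in helper79's `TX`).
`LA`: a lift `A1` over `R` of the extension `j0 : Γ0 → A`.
`LR`: the same with the orthogonal projection, the form and a relative Frobenius system.
`KL`: the data over an algebraically closed field of characteristic `0`.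
-/

open scoped BigOperators

noncomputable section

namespace Pool.Agent.PFD.D2b

open MulOpposite
open Pool.Agent.PFC.B1 (BiM FS Split)
open Pool.Agent.PFD.D2

/-- the `W`-relative form of the projection `x ↦ x - j (pr x)` -/
structure WFr {R Γ W I A : Type} [CommRing R] [Ring Γ] [Algebra R Γ] [CommGroup W] [Fintype W]
    [Fintype I] [Ring A] [Algebra R A] (D : WFS R Γ W I) (j : Γ →ₐ[R] A) (pr : A →ₗ[R] Γ)
    (Ω : Type) [Fintype Ω] [MulAction W Ω] where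
  m : Ω → A
  τ : Ω → (A →ₗ[R] R)
  m1 : ∀ w ω, m (w • ω) = j (D.om w) * m ω * j (D.om w⁻¹)
  t1 : ∀ w ω a, τ (w • ω) (j (D.om w) * a * j (D.om w⁻¹)) = τ ω a
  id : ∀ a, ∑ i, ∑ k, ∑ w, ∑ ω, τ ω (j (D.cf' i) * a * j (D.cf k * D.om w)) •
    (j (D.cf i) * m ω * j (D.om w⁻¹ * D.cf' k)) = a - j (pr a)

/-- a lift `A1` of the extension `j0 : Γ0 → A` -/
structure LA {R F Γ Γ0 A W I : Type} (A1 : Type) [CommRing R] [Field F] {c : Cdv R F} [Ring Γ]
    [Algebra R Γ] [Ring Γ0] [Algebra F Γ0] [Ring A] [Algebra F A] [CommGroup W] [Fintype W]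
    [Fintype I] [Ring A1] [Algebra R A1] (D : WFS R Γ W I) (f : FibG Γ Γ0 c)
    (j0 : Γ0 →ₐ[F] A) (pr0 : A →ₗ[F] Γ0) where
  fb : FibG A1 A c
  j : Γ →ₐ[R] A1
  pr : A1 →ₗ[R] Γ
  pr_j : ∀ γ, pr (j γ) = γ
  pr_l : ∀ γ x, pr (j γ * x) = γ * pr x
  pr_r : ∀ x γ, pr (x * j γ) = pr x * γ
  cj : ∀ γ, fb.q (j γ) = j0 (f.q γ)
  cp : ∀ x, pr0 (fb.q x) = f.q (pr x)
  /-- the Higman operator -/
  a : A1 →ₗ[R] A1
  a_id : ∀ x, ∑ s, ∑ t, j (D.fs.b s) * a (j (D.fs.b' s) * x * j (D.fs.b t)) * j (D.fs.b' t) =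
    (Fintype.card W : R) • (x - j (pr x))
  /-- the centraliser of `Γ0` lifts -/
  cl : ∀ x0 : A, (∀ γ, j0 γ * x0 = x0 * j0 γ) →
    ∃ x : A1, (∀ γ, j γ * x = x * j γ) ∧ fb.q x = x0

/-- a lift with the orthogonal projection -/
structure LR {R F Γ Γ0 A W I : Type} (A1 : Type) [CommRing R] [Field F] {c : Cdv R F} [Ring Γ]
    [Algebra R Γ] [Ring Γ0] [Algebra F Γ0] [Ring A] [Algebra F A] [CommGroup W] [Fintype W]
    [Fintype I] [Ring A1] [Algebra R A1] (D : WFS R Γ W I) (f : FibG Γ Γ0 c)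
    (j0 : Γ0 →ₐ[F] A) (pr0 : A →ₗ[F] Γ0) extends LA A1 D f j0 pr0 where
  N : Type
  fN : Fintype N
  rf : RF R Γ A1 N j pr
  tA : A1 →ₗ[R] R
  ts : ∀ a b, tA (a * b) = tA (b * a)
  u : Γ
  u' : Γ
  uc : ∀ γ, u * γ = γ * u
  uu : u * u' = 1
  ort : ∀ x, tA x = D.lam (u * pr x)
  un1 : IsUnit (rf.rt 1)
  unu : IsUnit (rf.rt (j u'))

end Pool.Agent.PFD.D2b

namespace Pool.Agent.PFD.D4

open Pool.Agent.PFC.B1 (FS Split)

/-- the data over a field: symmetric algebras `B → A`, a derivation `v` of `B` with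
`t (v b) = wt * t b` for the form `t b = c.lam (u' * b)` -/
structure KL (K B A I J N : Type) [Field K] [Ring B] [Algebra K B] [Ring A] [Algebra K A]
    [Fintype I] [Fintype J] [Fintype N] where
  c : FS K B I
  cs : ∀ x y, c.lam (x * y) = c.lam (y * x)
  sp : Split c A
  d : FS K A J
  ds : ∀ x y, d.lam (x * y) = d.lam (y * x)
  ort : ∀ x, d.lam x = c.lam (sp.pr x)
  s : RF K B A N sp.j sp.pr
  u : B
  u' : B
  uc : ∀ b, u * b = b * u
  uu : u * u' = 1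
  v : B →ₗ[K] B
  vm : ∀ a b, v (a * b) = v a * b + a * v b
  wt : ℕ
  wp : 0 < wt
  tv : ∀ b, c.lam (u' * v b) = (wt : K) * c.lam (u' * b)
  nil : ∀ b, IsNilpotent (v b)
  un1 : IsUnit (s.rt 1)
  unu : IsUnit (s.rt (sp.j u'))

section
variable {K B A I J N : Type} [Field K] [Ring B] [Algebra K B] [Ring A] [Algebra K A]
    [Fintype I] [Fintype J] [Fintype N]

/-- `∑ e_p a e_p'` -/
def KL.TA (D : KL K B A I J N) (a : A) : A := ∑ p, D.d.b p * a * D.d.b' p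

/-- `∑ j(b_i) a j(b_i')` -/
def KL.TB (D : KL K B A I J N) (a : A) : A := ∑ i, D.sp.j (D.c.b i) * a * D.sp.j (D.c.b' i)

end

end Pool.Agent.PFD.D4
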