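import Pool.Agent.PFC.StmtsB6
import Pool.Agent.PFC.StmtsB6b

/-!
# Squad PFD, block D5: definitions

`Sp V γ U W`: the defect group `V` is the direct product of two subgroups `U ≠ 1` and `W` which are
normalised by the inertial group `T = Tg V γ`, and `T / C(V)` acts freely on `U - 1`.
`Ei V γ`: the group of the automorphisms of `V` induced by `T`, isomorphic to `T / C(V)`.
-/

open scoped BigOperators

noncomputable section

namespace Pool.Agent.PFD

open Pool.Agent.Helper51_AWC Pool.Agent.Helper79_WRA Pool.Agent.PP Pool.Agent.PP.KF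
open Pool.Agent.PP.K9 Pool.Agent.PP.K9.H97 Pool.Agent.PP.H75 Pool.Agent.PP.T3 Pool.Agent.PP.T2

attribute [local instance] Ideal.Quotient.field

section defs

variable {G : Type} [Group G]

/-- `V = U × W`, both factors are normalised by the inertial group, which acts freely on `U - 1`
modulo `C(V)`, and `U ≠ 1`. -/
structure Sp {F : Type} (V : Subgroup G) (γ : G → F) (U W : Subgroup G) : Prop where
  lu : U ≤ V
  lw : W ≤ V
  dj : U ⊓ W = ⊥
  jn : U ⊔ W = V
  nt : U ≠ ⊥
  su : ∀ t ∈ Tg V γ, ∀ u ∈ U, t * u * t⁻¹ ∈ U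
  sw : ∀ t ∈ Tg V γ, ∀ w ∈ W, t * w * t⁻¹ ∈ W
  fr : ∀ t ∈ Tg V γ, ∀ u ∈ U, u ≠ 1 → t * u = u * t → t ∈ Subgroup.centralizer (V : Set G)

/-- the automorphisms of `V` induced by the inertial group -/
def Ei {F : Type} (V : Subgroup G) (γ : G → F) : Subgroup (MulAut V) :=
  ((Tg V γ).subgroupOf (Subgroup.normalizer (V : Set G))).map V.normalizerMonoidHom

/-- the number of conjugacy classes of `T / C(V)` -/
def ke {F : Type} (V : Subgroup G) (γ : G → F) : ℕ := Nat.card (ConjClasses (Ei V γ))

end defs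

end Pool.Agent.PFD
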