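import Pool.Agent.PFD.DefsD6

/-!
# Squad PFD, block D6 (helper79): statements

* Part 1: the twisted group algebra inside `A`: COC, TGT, CHS.
* Part 2: the central unit and the retraction: COT, PRJ, RET.
* Part 3: combinatorics of the frame: OMT, ORB.
* Part 4: right projectivity, Casimir element, separability: ALT, AVE, CAT, UNL, SPT, CVS.
* Part 5: the `W`-relative form of the complement: HTW.
* Part 6: assembly: CPJ, TXT.

`g = gg α n`, `g' = gg' α n'` are `α v * n e` and `n' e * α v⁻¹`.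
-/

open scoped BigOperators

noncomputable section

namespace Pool.Agent.PFD.D6

open Pool.Agent.PFC
open Pool.Agent.PFC.B5a (FvtStmt TrsStmt BkiStmt FdbStmt Du)

/-! ## Part 1 -/

/-- COC: the scalars form a normalised cocycle.

Proof.  `n e` is a unit and `A` is not trivial, so `c e f ≠ 0` (otherwise `n e * n f = 0`), and
`a • n e = b • n e` implies `a = b`.  `n 1 = 1` gives `c 1 e = c e 1 = 1`.  Associativity of
`n e * n f * n g` gives the cocycle identity. -/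
def CocStmt : Prop := ∀ (F V E A : Type) [Field F] [CommGroup V] [Group E] [Ring A]
  [Nontrivial A] [Algebra F A] (φ : E →* MulAut V) (α : V →* A) (n n' : E → A) (c : E → E → F),
  Unt φ α n n' c → ∃ z : Coc F E, ∀ e f, (z.c e f : F) = c e f

/-- TGT: the twisted group algebra in `A` and its Casimir element.

Proof.  `n e * α u = α (φ e u) * n e`, `n e * n f = c e f • n (e * f)`, `n 1 = 1`, so the span of the
`α v * n e` is a subalgebra `S`.  `c e f ≠ 0` (see COC).  `n' e = (c e⁻¹ e)⁻¹ • n e⁻¹` (from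
`n e⁻¹ * n e = c e⁻¹ e • 1`), so `g' (v, e) ∈ S`.  Let `(v,e)(u,f) = (v φ e u, e f)`; then
`g p * g q = c • g (p q)` and `g' (p q) = c • g' q * g' p` with `c = c e f`.
`cs1`: it is linear in `s`, so let `s = g h`; put `p = h k`: `g' (h k) * g h = c • g' k`,
`g (h k) = c⁻¹ • g h * g k`.  (It is enough to do this for `s = α u` and for `s = n f`: the set of the
`s` with `cs1` for all `T` is closed under sums, scalar multiples and products.)  `cs2`: the same
with `p = k h`.  `cs3`: replace `p` by `p⁻¹`: `g p⁻¹ = c • g' p`, `g' p⁻¹ = c⁻¹ • g p`, `c = c e e⁻¹`. -/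
def TgtStmt : Prop := ∀ (F V E A : Type) [Field F] [CommGroup V] [Fintype V] [Group E]
  [Fintype E] [Ring A] [Nontrivial A] [Algebra F A] (φ : E →* MulAut V) (α : V →* A)
  (n n' : E → A) (c : E → E → F), Unt φ α n n' c →
  ∃ S : Subalgebra F A, Tg F S (gg α n) (gg' α n') ∧ (∀ u, α u ∈ S) ∧ ∀ e, n e ∈ S

/-- CHS: sums over cosets vanish.

Proof.  For `w ∈ V` put `f w = lam (α w * x)`, `x = n' e` or `x = n e`, `e ≠ 1`.  For `v ∈ V`:
`f w = lam (α v * (α w * n' e) * α v⁻¹)`, `n' e * α v⁻¹ = α (φ e⁻¹ v⁻¹) * n' e`, so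
`f w = f (w * v * φ e⁻¹ v⁻¹)`.  `E` acts faithfully (`Ctf.nt`, `Ctf.free`), so there is `v` with
`k = v * φ e⁻¹ v⁻¹ ≠ 1`; `f` is invariant under the subgroup generated by `k`, whose order is a
power of `ℓ`, not `1`, so `∑ f w = 0`.  The same for `n e`. -/
def ChsStmt : Prop := ∀ (F V E A : Type) [Field F] [CommGroup V] [Fintype V] [Group E]
  [Ring A] [Algebra F A] (ℓ : ℕ) [CharP F ℓ] (φ : E →* MulAut V) (W : Subgroup V)
  (α : V →* A) (n n' : E → A) (c : E → E → F) (lam : A →ₗ[F] F), Ctf ℓ φ W →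
  Unt φ α n n' c → (∀ a b, lam (a * b) = lam (b * a)) →
  ∀ e, e ≠ 1 → ∑ w, lam (α w * n' e) = 0 ∧ ∑ w, lam (α w * n e) = 0

/-! ## Part 2 -/

/-- COT: `Ev 1` is a unit.

Proof.  Let `c0 = Ev 1 = ∑ lam (g' p) • g p`.  By `cs1`, the symmetry of `lam` and `cs2`:
`s * c0 = ∑ lam (g' p * s) • g p = ∑ lam (s * g' p) • g p = c0 * s` for `s ∈ S`.  Let
`N = {b | c0 * b = 0}`; it is stable under left multiplication by `S`, so if `N ≠ 0` there is `b ∈ N`,
`b ≠ 0`, with `α u * b = b` for all `u` (FVT for the group `V`, `ρ u` the left multiplication by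
`α u`).  `g (v, e) * b = α v * n e * b = n e * α (φ e⁻¹ v) * b = n e * b`, so
`0 = c0 * b = ∑_e (∑_v lam (n' e * α v⁻¹)) • n e * b`.  For `e ≠ 1` the coefficient is `0` (CHS, symmetry
of `lam`), for `e = 1` it is `lam (∑ α v) ≠ 0` (`n' 1 = 1`).  So `b = 0`, a contradiction.  The map
`x ↦ c0 * x` on the finite-dimensional space `S` is injective, so there is `c' ∈ S` with
`c0 * c' = 1`; also `c' * c0 = 1` (`c0 * (c' * c0 - 1) = 0`), and `c'` commutes with `S`. -/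
def CotStmt : Prop := FvtStmt → ChsStmt → ∀ (F V E A : Type) [Field F] [CommGroup V]
  [Fintype V] [Group E] [Fintype E] [Ring A] [Algebra F A] [FiniteDimensional F A] (ℓ : ℕ)
  [CharP F ℓ] (φ : E →* MulAut V) (W : Subgroup V) (α : V →* A) (n n' : E → A)
  (c : E → E → F) (lam : A →ₗ[F] F) (S : Subalgebra F A), Ctf ℓ φ W → Unt φ α n n' c →
  (∀ a b, lam (a * b) = lam (b * a)) → lam (∑ u, α u) ≠ 0 →
  Tg F S (gg α n) (gg' α n') → (∀ u, α u ∈ S) → (∀ e, n e ∈ S) →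
  ∃ c', Cg F S (gg α n) (gg' α n') lam c'

/-- PRJ: the projection to the complement of `S`, and its Frobenius property.

Proof.  Write `E x = Ev x`.  `cs1` for `T a b = lam (a * x) • b`: `E (s * x) = s * E x` for `s ∈ S`; the
symmetry of `lam` and `cs2`: `E (x * s) = E x * s`.  `E x ∈ S`.  So `E s = s * E 1`,
`E (E x * c') = E x * c' * E 1 = E x`.  `q x = x - E x * c'`: `E (q x) = 0`, `q (q x) = q x`,
`q (s * x) = s * q x`, `q (x * s) = x * s - E x * s * c' = q x * s`, `q s = s - s * E 1 * c' = 0`.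
`lam (z * E y) = ∑ lam (g' p * y) * lam (z * g p)`, `lam (E z * y) = ∑ lam (g' p * z) * lam (g p * y)`; they
are equal by `cs3` and the symmetry.  Last claim: `lam (E x * c') = lam (E (x * c')) = lam (1 * E (x * c'))`
`= lam (E 1 * x * c') = lam (x * c' * E 1) = lam x`. -/
def PrjStmt : Prop := ∀ (F A ι : Type) [Field F] [Ring A] [Algebra F A] [Fintype ι]
  (S : Subalgebra F A) (g g' : ι → A) (lam : A →ₗ[F] F) (c' : A), Tg F S g g' →
  (∀ a b, lam (a * b) = lam (b * a)) → Cg F S g g' lam c' →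
  (∀ x, Ev F g g' lam x ∈ S) ∧
  (∀ s ∈ S, ∀ x, Ev F g g' lam (s * x) = s * Ev F g g' lam x) ∧
  (∀ s ∈ S, ∀ x, Ev F g g' lam (x * s) = Ev F g g' lam x * s) ∧
  (∀ x y, lam (x * Ev F g g' lam y) = lam (Ev F g g' lam x * y)) ∧
  (∀ x, lam (Ev F g g' lam x * c') = lam x) ∧
  ∃ q : A →ₗ[F] A, (∀ x, q x = x - Ev F g g' lam x * c') ∧ (∀ x, q (q x) = q x) ∧
    (∀ s ∈ S, ∀ x, q (s * x) = s * q x) ∧ (∀ s ∈ S, ∀ x, q (x * s) = q x * s) ∧
    ∀ s ∈ S, q s = 0

/-- RET: the functional of the retraction; the elements `g p` are linearly independent.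

Proof.  Let `K` be the space of the functions `k : V × E → F` with `∑ k p • g p = 0`.  It is stable under
the translations `(u k) (v, e) = k (u⁻¹ v, e)`, `u ∈ V` (multiply by `α u` from the left); if it is not `0` it
contains a nonzero `k` with `k (v, e) = κ e` (FVT), so `∑_e κ e • (σ * n e) = 0`, `σ = ∑ α v`.  Let
`κ f ≠ 0`; multiply by `n' f` from the right and apply `mu`: `n e * n' f` is a scalar multiple of
`n (e * f⁻¹)` (`n (e f⁻¹) * n f = c • n e`), so by CHS only `e = f` contributes: `κ f * mu σ = 0`, a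
contradiction.  So the `g p` are linearly independent.  By PRJ
`g q = Ev (g q) * c' = ∑_p mu (g' p * g q * c') • g p` (`Ev (g q * c') = g q * Ev c' = g q`,
`Ev c' = c' * Ev 1 = 1`), so `mu (g' p * g q * c') = [p = q]`. -/
def RetStmt : Prop := FvtStmt → ChsStmt → PrjStmt → ∀ (F V E A : Type) [Field F]
  [CommGroup V] [Fintype V] [Group E] [Fintype E] [Ring A] [Algebra F A]
  [FiniteDimensional F A] (ℓ : ℕ) [CharP F ℓ] (φ : E →* MulAut V) (W : Subgroup V)
  (α : V →* A) (n n' : E → A) (c : E → E → F) (mu : A →ₗ[F] F) (S : Subalgebra F A) (c' : A),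
  Ctf ℓ φ W → Unt φ α n n' c → Frm F α mu → Tg F S (gg α n) (gg' α n') →
  (∀ u, α u ∈ S) → (∀ e, n e ∈ S) → Cg F S (gg α n) (gg' α n') mu c' →
  LinearIndependent F (gg α n) ∧
  (∀ p, mu (gg' α n' p * gg α n p * c') = 1) ∧
  (∀ p q, p ≠ q → mu (gg' α n' p * gg α n q * c') = 0) ∧
  (∀ s ∈ S, ∀ a, mu (s * a * c') = mu (a * s * c')) ∧
  ∀ x, Ev F (gg α n) (gg' α n') mu x * c' = ∑ p, mu (gg' α n' p * x * c') • gg α n p

/-! ## Part 3 -/

/-- OMT: the orbits of `1 × V`.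

Proof.  `O` = the set of the orbits of `1 × V` on `Ω`; `V` acts on it by `(v, 1)`.  `1 × V` acts freely: if
`(1, h) • ω = ω` then `(1, h) = (φ e r, r)`, so `r = 1`.  `s = Quotient.out`.  Last claim: `v • p ω = p ω` means that
`(v, h) • ω = ω` for some `h`; so for every `v` there is `h ∈ R` with `v = φ e h`, hence `R = ⊤`. -/
def OmtStmt : Prop := ∀ (V E Ω : Type) [CommGroup V] [Fintype V] [Group E]
  (φ : E →* MulAut V) [Fintype Ω] [MulAction (V × V) Ω],
  (∀ ω : Ω, ∃ (e : E) (R : Subgroup V),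
    MulAction.stabilizer (V × V) ω = tw (φ e).toMonoidHom R) →
  ∃ (O : Type) (_ : Fintype O) (_ : MulAction V O) (s : O → Ω) (p : Ω → O),
    (∀ o, p (s o) = o) ∧ (∀ (v h : V) (ω : Ω), p ((v, h) • ω) = v • p ω) ∧
    (∀ ω, ∃ h : V, ω = ((1, h) : V × V) • s (p ω)) ∧
    (∀ (M : Type) [AddCommMonoid M] (f : Ω → M),
      ∑ ω, f ω = ∑ o, ∑ h : V, f (((1, h) : V × V) • s o)) ∧
    ∀ (ω : Ω) (e : E) (R : Subgroup V),
      MulAction.stabilizer (V × V) ω = tw (φ e).toMonoidHom R →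
      (∀ v : V, v • p ω = p ω) → R = ⊤

/-- ORB: the `W`-set of a `V × V`-set with stabilisers `tw (φ e) R`, `R ≤ W`.

Proof.  Choose a point `ω_o` in every orbit `o` of `V × V` on `Ω`, and `e_o`, `R_o ≤ W` with
`stabilizer ω_o = tw (φ e_o) R_o`.  `Om` = the set of the points `(φ e_o w, w) • ω_o`, `w ∈ W`, `i` the
inclusion, `ee = e_o`, `w • p = (φ e_o w, w) • p`.  For a transversal `T` of `W` in `V` the map
`(p, t, v) ↦ (φ e_o t, v) • p` from `Om × T × V` to `Ω` is bijective.  Surjective: `(a, b) • ω_o`,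
`a = φ e_o (t w)`; `(a, b) • ω_o = (φ e_o t, b w⁻¹) • ((φ e_o w, w) • ω_o)`.  Injective: if
`(φ e_o (t w), v w) • ω_o = (φ e_o (t₁ w₁), v₁ w₁) • ω_o` then
`t w = r t₁ w₁`, `v w = r v₁ w₁` with `r ∈ R_o ≤ W` (`V` is commutative), so `t = t₁` (`T` is a
transversal), `w = r w₁`, `v = v₁`, and the points are equal. -/
def OrbStmt : Prop := ∀ (V E Ω : Type) [CommGroup V] [Fintype V] [Group E]
  (φ : E →* MulAut V) (W : Subgroup V) [Fintype Ω] [MulAction (V × V) Ω],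
  (∀ ω : Ω, ∃ (e : E) (R : Subgroup V), R ≤ W ∧
    MulAction.stabilizer (V × V) ω = tw (φ e).toMonoidHom R) →
  ∃ (Om : Type) (_ : Fintype Om) (_ : MulAction W Om) (i : Om → Ω) (ee : Om → E),
    (∀ (w : W) (p : Om), ee (w • p) = ee p) ∧
    (∀ (w : W) (p : Om), i (w • p) = ((φ (ee p) (w : V), (w : V)) : V × V) • i p) ∧
    ∀ T : Finset V, IsTv W ⊤ T → ∀ (M : Type) [AddCommMonoid M] (f : Ω → M),
      ∑ ω, f ω = ∑ p : Om, ∑ t ∈ T, ∑ v : V, f (((φ (ee p) t, v) : V × V) • i p)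

/-! ## Part 4 -/

/-- ALT: right projectivity over `V`, and the relative trace.

Proof.  Let `O, s, p` be as in OMT.  `al x = ∑_o d (s o) x • b (s o)`.  `b ((1,h) • ω) = b ω * α h⁻¹` and
`d ((1,h) • ω) x = d ω (x * α h)`; so `q x = ∑_o ∑_h d (s o) (x * α h) • (b (s o) * α h⁻¹)`, replace `h` by
`h⁻¹`.  Second claim: for `ω ∈ Ω` let `y ω = ∑_k d ω (b_k) • b'_k`; it satisfies `lam (y ω * x) = d ω x`
for all `x`, and it is determined by this (`lam` is nondegenerate), so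
`y ((v,h) • ω) = α h * y ω * α v⁻¹`.  `U ω = b ω * ζ * y ω`: `U ((1,h) • ω) = U ω` (`ζ` commutes with
`α h`), so `U ω = U (s (p ω))`, and `U (s (v • o)) = α v * U (s o) * α v⁻¹` (as `v • o = p ((v,1) • s o)`).
`∑_k al (b_k) * ζ * b'_k = ∑_o U (s o)`.  TRS for the group `V` acting on `O`, `ρ = cj F α`, `P = ⊤`, `T`
everything: a point `o` fixed by `V` has `R = ⊤` (OMT for `ω = s o`), but `R ≤ W ≠ ⊤`. -/
def AltStmt : Prop := OmtStmt → TrsStmt → ∀ (F V E A Ω : Type) [Field F] [CommGroup V]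
  [Fintype V] [Group E] [Ring A] [Algebra F A] [FiniteDimensional F A] [Fintype Ω]
  [MulAction (V × V) Ω] (φ : E →* MulAut V) (W : Subgroup V) (α : V →* A) (lam : A →ₗ[F] F)
  (q : A →ₗ[F] A) (b : Ω → A) (d : Ω → (A →ₗ[F] F)), W ≠ ⊤ →
  (∀ a b, lam (a * b) = lam (b * a)) → (∀ a, (∀ b, lam (a * b) = 0) → a = 0) →
  Fq F φ W α q b d →
  ∃ al : A →ₗ[F] A, (∀ x, ∑ h, al (x * α h⁻¹) * α h = q x) ∧
    ∀ (m : ℕ) (b b' : Fin m → A), Du F lam b b' → ∀ ζ : A, (∀ u, ζ * α u = α u * ζ) →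
      ∑ k, al (b k) * ζ * b' k ∈ BK (cj F α) ⊤

/-- AVE: from `V` to `V × E` by averaging over `E`.

Proof.  `al' = |E|⁻¹ • al`.  `∑_{v, e} al (x * n' e * α v⁻¹) * α v * n e = ∑_e q (x * n' e) * n e =
∑_e q (x * n' e * n e) = |E| • q x`. -/
def AveStmt : Prop := ∀ (F V E A : Type) [Field F] [CommGroup V] [Fintype V] [Group E]
  [Fintype E] [Ring A] [Algebra F A] (φ : E →* MulAut V) (α : V →* A) (n n' : E → A)
  (c : E → E → F) (q al : A →ₗ[F] A), Unt φ α n n' c → (Nat.card E : F) ≠ 0 →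
  (∀ e x, q (x * n e) = q x * n e) → (∀ x, ∑ h, al (x * α h⁻¹) * α h = q x) →
  ∀ x, ∑ p, (((Nat.card E : F)⁻¹ • al) (x * gg' α n' p)) * gg α n p = q x

/-- CAT: the relative dual basis and the Casimir element over `S`.

Proof.  As CAS (`PFC/StmtsB5a.lean`), with PRJ.  `u = (c', al (b k))`, `v = (1, b' k)`, `E = Ev`.
(1) `a = ∑ u_i E (v_i a)`: `∑_k al (b k) E (b' k a) = ∑_p al (∑_k lam (g' p b' k a) b k) g p =
∑_p al (a g' p) g p` (`lam (g' p b' k a) = lam (b' k a g' p)`, `Du`) `= a - E a c'`, and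
`c' E a = E a c'`.  (2) `lam (b a) = ∑ lam (b u_i E (v_i a)) = lam ((∑ E (b u_i) v_i) a)` for all `a`
(PRJ), so `b = ∑ E (b u_i) v_i`.  (3) For balanced `T`: `∑_i T (c u_i) (v_i) =
∑_{i,j} T (u_j E (v_j c u_i)) (v_i) = ∑_{i,j} T (u_j) (E (v_j c u_i) v_i) = ∑_j T (u_j) (v_j c)`. -/
def CatStmt : Prop := PrjStmt → ∀ (F A ι : Type) [Field F] [Ring A] [Algebra F A] [Fintype ι]
  (S : Subalgebra F A) (g g' : ι → A) (lam : A →ₗ[F] F) (c' : A) (al : A →ₗ[F] A) (m : ℕ)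
  (b b' : Fin m → A), Tg F S g g' → (∀ a b, lam (a * b) = lam (b * a)) →
  (∀ a, (∀ b, lam (a * b) = 0) → a = 0) → Cg F S g g' lam c' →
  (∀ x, ∑ i, al (x * g' i) * g i = x - Ev F g g' lam x * c') → Du F lam b b' →
  (∀ a, ∑ k : Option (Fin m), k.elim c' (fun k => al (b k)) *
    Ev F g g' lam (k.elim 1 b' * a) = a) ∧
  (∀ a, ∑ k : Option (Fin m), Ev F g g' lam (a * k.elim c' (fun k => al (b k))) *
    k.elim 1 b' = a) ∧
  Cs F S (fun k : Option (Fin m) => k.elim c' (fun k => al (b k)))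
    (fun k : Option (Fin m) => k.elim 1 b')

/-- UNL: units modulo the Brauer kernel.

Proof.  `x`, `x'` commute with `α V`, so they are units of `L = Cz F α ⊤`.  `y = x + w`, `w` in the Brauer
kernel, which is contained in `L`, is an ideal of `L` and does not contain `1` (BKI).  If `y` is not a unit of
the local ring `L`, then, as `x = y + (-w)` is a unit, `-w` is a unit of `L`, so `1` is in the Brauer
kernel, a contradiction. -/
def UnlStmt : Prop := BkiStmt → ∀ (F V A : Type) [Field F] [CommGroup V] [Finite V] [Ring A]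
  [Algebra F A] (α : V →* A) (x x' y : A), IsLocalRing (Cz F α ⊤) →
  (1 : A) ∉ BK (cj F α) ⊤ → x * x' = 1 → x' * x = 1 → (∀ u, x * α u = α u * x) →
  y - x ∈ BK (cj F α) ⊤ → IsUnit y

/-- SPT: separability over `S`, and the units `∑ x k * z * y k`.

Proof.  `ρ = ∑ u k * v k = c' + ∑ al (b k) * b' k`; it is central (`Cs` for `T a b = a * b`), and a unit by
UNL (`x = c'`, `x' = Ev 1`; the difference is in the Brauer kernel by the hypothesis with `ζ = 1`);
its inverse is central.  Take `u k`, `v k * ρ⁻¹`: for balanced `T` apply `Cs` to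
`(a, b) ↦ T a (b * ρ⁻¹)`.
Units: `w` commutes with `S`, `w * w' = w' * w = 1`.  `x k = u k`, `y k = Ev 1 * v k`:
`∑ x k * w * y k = ∑ u k * (w * Ev 1) * v k = c' * w * Ev 1 + ∑ al (b k) * (w * Ev 1) * b' k`, the first
term is `w`, the second is in the Brauer kernel (`ζ = w * Ev 1`); UNL. -/
def SptStmt : Prop := UnlStmt → ∀ (F V A ι : Type) [Field F] [CommGroup V] [Finite V]
  [Ring A] [Algebra F A] [Fintype ι] (S : Subalgebra F A) (g g' : ι → A) (lam : A →ₗ[F] F)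
  (c' : A) (al : A →ₗ[F] A) (m : ℕ) (b b' : Fin m → A) (α : V →* A), (∀ u, α u ∈ S) →
  Cg F S g g' lam c' → Ev F g g' lam 1 ∈ S → IsLocalRing (Cz F α ⊤) →
  (1 : A) ∉ BK (cj F α) ⊤ →
  (∀ ζ : A, (∀ u, ζ * α u = α u * ζ) → ∑ k, al (b k) * ζ * b' k ∈ BK (cj F α) ⊤) →
  Cs F S (fun k : Option (Fin m) => k.elim c' (fun k => al (b k)))
    (fun k : Option (Fin m) => k.elim 1 b') →
  (∃ ρ : A, (∀ a, ρ * a = a * ρ) ∧
    (∑ k : Option (Fin m), k.elim c' (fun k => al (b k)) * (k.elim 1 b' * ρ) = 1) ∧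
    Cs F S (fun k : Option (Fin m) => k.elim c' (fun k => al (b k)))
      (fun k : Option (Fin m) => k.elim 1 b' * ρ)) ∧
  ∀ w w' : A, (∀ s ∈ S, w * s = s * w) → w * w' = 1 → w' * w = 1 →
    IsUnit (∑ k : Option (Fin m), k.elim c' (fun k => al (b k)) * w *
      (Ev F g g' lam 1 * k.elim 1 b'))

/-- CVS: from `F`-bilinear balanced maps to additive balanced maps.

Proof.  Let `B : A →+ A →+ X` be balanced over `S`, in particular over the scalars `F`.  `B` gives an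
additive map `A ⊗[F] A → X` (`TensorProduct.liftAddHom`) which kills the subspace spanned by the
`(a * s) ⊗ b - a ⊗ (s * b)`, so an additive map from the quotient `X'` by this subspace; `X'` is an
`F`-space, apply `Cs` to `T a b = [a ⊗ b]`. -/
def CvsStmt : Prop := ∀ (F Γ A κ : Type) [Field F] [Ring Γ] [Algebra F Γ] [Ring A]
  [Algebra F A] [Fintype κ] (S : Subalgebra F A) (j : Γ →ₐ[F] A) (u v : κ → A),
  (∀ x, x ∈ S ↔ ∃ γ, j γ = x) → ∑ k, u k * v k = 1 → Cs F S u v →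
  Nonempty (Pool.Agent.PFC.B1.Sep Γ A κ j.toRingHom)

/-! ## Part 5 -/

/-- HTW: the `W`-relative form of the complement.

Proof.  ORB gives `Om`, `i`, `ee`.  `m p = n' (ee p) * b (i p)`, `τ p x = |E|⁻² • d (i p) (n (ee p) * x)`.
Equivariance: `b (i (w • p)) = α (φ e w) * b (i p) * α w⁻¹`, `n' e * α (φ e w) = α w * n' e`;
`d (i (w • p)) (n e * α w * x * α w⁻¹) = d (i (w • p)) (α (φ e w) * (n e * x) * α w⁻¹) =
d (i p) (n e * x)`.  The formula: `q y = ∑_p ∑_t ∑_v d ((φ e t, v) • i p) y • b ((φ e t, v) • i p)`, `e = ee p`,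
`b ((φ e t, v) • i p) = α (φ e t) * b (i p) * α v⁻¹ = n e * (α t * m p * α v⁻¹)`,
`d ((φ e t, v) • i p) y = d (i p) (α (φ e t)⁻¹ * y * α v) = d (i p) (n e * (α t⁻¹ * n' e * y * α v))`.
Hence `|E|⁻² • q y = ∑_p n e * Q_p (n' e * y)`, `Q_p y = ∑_t ∑_v τ p (α t⁻¹ * y * α v) • (α t * m p * α v⁻¹)`.
`q x = |E|⁻² ∑_{f,g} n f * q (n' f * x * n g) * n' g = ∑_{f,g} ∑_p n f * n e * Q_p (n' e * n' f * x * n g) * n' g`;
for fixed `p` replace `f` by `h = f * e`: `n f * n e = c • n h`, `n' e * n' f = c⁻¹ • n' h`. -/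
def HtwStmt : Prop := OrbStmt → ∀ (F V E A Ω : Type) [Field F] [CommGroup V] [Fintype V]
  [Group E] [Fintype E] [Ring A] [Nontrivial A] [Algebra F A] [Fintype Ω]
  [MulAction (V × V) Ω] (φ : E →* MulAut V) (W : Subgroup V) (α : V →* A) (n n' : E → A)
  (c : E → E → F) (q : A →ₗ[F] A) (b : Ω → A) (d : Ω → (A →ₗ[F] F)),
  Unt φ α n n' c → (Nat.card E : F) ≠ 0 → (∀ e x, q (n e * x) = n e * q x) →
  (∀ e x, q (x * n e) = q x * n e) → Fq F φ W α q b d →
  ∃ (Om : Type) (_ : Fintype Om) (_ : MulAction W Om) (m : Om → A) (τ : Om → (A →ₗ[F] F)),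
    (∀ (w : W) (ω : Om), m (w • ω) = α w * m ω * α (w : V)⁻¹) ∧
    (∀ (w : W) (ω : Om) (a : A), τ (w • ω) (α w * a * α (w : V)⁻¹) = τ ω a) ∧
    ∀ T : Finset V, IsTv W ⊤ T → ∀ a : A,
      ∑ h : E, ∑ t ∈ T, ∑ g : E, ∑ v : V, ∑ ω,
        τ ω (α t⁻¹ * n' h * a * (n g * α v)) • (n h * α t * m ω * (α v⁻¹ * n' g)) = q a

/-! ## Part 6 -/

/-- CPJ: the crossed product and the projection.

Proof.  `CP.lift` with `al` the algebra map `F V → A` which extends `α` and `m = n`.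
`j (∑ ..) = ∑_e ∑_v (γ.f e) v • (α v * n e)`; the image is the span of the `g p`, that is `S`, and `j` is
injective by the linear independence.  `pr x` is the element with
`(pr x).f e = ∑_v lam (g' (v, e) * x) • v`; `j (pr x) = ∑ lam (g' p * x) • g p`.  `pr (j γ) = γ` by
`lam (g' p * g q) = [p = q]`.  `pr (j γ * x) = γ * pr x`: apply the injective `j`:
`j (pr (j γ * x)) = r (j γ * x) = j γ * r x`, `r x = ∑ lam (g' p * x) • g p`. -/
def CpjStmt : Prop := ∀ (F V E A : Type) [Field F] [CommGroup V] [Fintype V] [Group E]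
  [Fintype E] [Ring A] [Algebra F A] (φ : E →* MulAut V) (α : V →* A) (n n' : E → A)
  (z : Coc F E) (lam : A →ₗ[F] F) (S : Subalgebra F A) (r : A →ₗ[F] A),
  Unt φ α n n' (fun e f => (z.c e f : F)) → Tg F S (gg α n) (gg' α n') →
  LinearIndependent F (gg α n) → (∀ x, r x = ∑ p, lam (gg' α n' p * x) • gg α n p) →
  (∀ s ∈ S, r s = s) → (∀ s ∈ S, ∀ x, r (s * x) = s * r x) →
  (∀ s ∈ S, ∀ x, r (x * s) = r x * s) →
  ∃ (j : CP (D0 φ z) →ₐ[F] A) (pr : A →ₗ[F] CP (D0 φ z)),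
    (∀ u, j (vv φ z u) = α u) ∧ (∀ e, j (CP.n (D0 φ z) e) = n e) ∧
    (∀ e, j (ni (D0 φ z) e) = n' e) ∧ (∀ x, x ∈ S ↔ ∃ γ, j γ = x) ∧
    Function.Injective j ∧ (∀ γ, pr (j γ) = γ) ∧ (∀ γ x, pr (j γ * x) = γ * pr x) ∧
    (∀ x γ, pr (x * j γ) = pr x * γ) ∧ ∀ x, j (pr x) = r x

/-- TXT (TOP of D6): `TxtStmt` from the rows.

Proof.  UNT gives `n`, `n'`, `c`; `A` is not trivial (`1` is not in the Brauer kernel), COC gives `z`; the
form `mu` with `Frm`; TGT, COT, PRJ, RET; `r x = Ev x * c'`, `lam x = mu (x * c')`.  QWF gives the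
frame `Fq` for `q`, ALT and AVE `al` (`W ≠ ⊤` by `Ctf.nt`, `|E| ≠ 0` by `Ctf.cop`), FDB the dual bases, CAT
the Casimir element and the dual families `x k = u k`, `y k = Ev 1 * v k` for `r`
(`r (Ev 1 * y) = Ev y`: `Ev (Ev 1 * y) * c' = Ev 1 * Ev y * c'`), SPT, CVS, HTW, CPJ. -/
def TxtRow : Prop := UntStmt → QwfStmt → FvtStmt → TrsStmt → BkiStmt → FdbStmt → CocStmt →
  TgtStmt → ChsStmt → CotStmt → PrjStmt → RetStmt → OmtStmt → OrbStmt → AltStmt → AveStmt →
  CatStmt → UnlStmt → SptStmt → CvsStmt → HtwStmt → CpjStmt → TxtStmt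

end Pool.Agent.PFD.D6
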